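import Pool.Agent.Lib.MP_61a4e3_al.Braid3

/-! Definitions for the rank one range of the Burau image theorem. -/

set_option linter.unusedSectionVars false
set_option linter.unusedVariables false

namespace Pool.Agent.Lib.MP_61a4e3_al.R

open Matrix WG Form

section
variable {O : Type} [CommRing O] [StarRing O]

/-- Extra arithmetic input: characteristic zero and a finite class group. -/
structure RK (O : Type) [CommRing O] : Prop where
  cz : CharZero O
  cls : ∀ (n : ℕ) (a : O), n ≠ 0 → a ≠ 0 → ∃ (h : ℕ) (α β : O) (j : ℕ), 0 < h ∧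
    (n : O) ^ h = α * β ∧ IsCoprime β a ∧ α ∣ a ^ j

/-- Solutions of the Pell equation of every real level. -/
def PellD (δ : O) : Prop := ∀ N : O, star N = N → N ≠ 0 → ∃ s t : O, star s = s ∧ star t = t ∧
  t ≠ 0 ∧ s ^ 2 - δ * t ^ 2 = 1 ∧ N ∣ s - 1 ∧ N ∣ t

/-- A place at which all positive real elements have Pell solutions. -/
structure Place (φ : O →+* ℂ) : Prop where
  inj : Function.Injective φ
  st : ∀ x, φ (star x) = star (φ x)
  pell : ∀ δ : O, star δ = δ → 0 < (φ δ).re → PellD δ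

/-- Admissible denominators. -/
def Nice (D l : O) : Prop := IsCoprime l (star l) ∧ IsCoprime l (2 * D)

end

variable {O : Type} [CommRing O] [StarRing O] {ι : Type} [Fintype ι] [DecidableEq ι]

/-- A hyperbolic pair. -/
structure Hyp (F : Form O ι) (f f' : ι → O) : Prop where
  ff : F.B f f = 0
  f'f' : F.B f' f' = 0
  ff' : F.B f f' = 1

lemma Hyp.f'f {F : Form O ι} {f f' : ι → O} (T : Hyp F f f') : F.B f' f = F.z :=
  F.B_eq_one_swap T.ff'

/-- Saturated submodules. -/
def Sat (P : Submodule O (ι → O)) : Prop := ∀ (c : O) (y : ι → O), c ≠ 0 → c • y ∈ P → y ∈ P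

/-- The form is nondegenerate on `P`. -/
def Nd (F : Form O ι) (P : Submodule O (ι → O)) : Prop :=
  ∀ y ∈ P, (∀ x ∈ P, F.B x y = 0) → y = 0

/-- The complement of the pair inside `P`. -/
def LL (F : Form O ι) (P : Submodule O (ι → O)) (f f' : ι → O) : Submodule O (ι → O) :=
  P ⊓ orth F f f'

lemma mem_LL {F : Form O ι} {P : Submodule O (ι → O)} {f f' x : ι → O} :
    x ∈ LL F P f f' ↔ x ∈ P ∧ F.B f x = 0 ∧ F.B f' x = 0 := by
  rw [LL, Submodule.mem_inf, mem_orth]

/-- The coefficient of `f`. -/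
def aco (F : Form O ι) (f' v : ι → O) : O := star F.z * F.B f' v

/-- The component orthogonal to the pair. -/
def xco (F : Form O ι) (f f' v : ι → O) : ι → O := v - aco F f' v • f - F.B f v • f'

/-- `y` has norm `(1 + z) q` with `q` real and `ε q` positive at `φ`. -/
def Sg (φ : O →+* ℂ) (F : Form O ι) (ε : ℝ) (y : ι → O) : Prop :=
  ∃ q, star q = q ∧ F.B y y = (1 + F.z) * q ∧ 0 < ε * (φ q).re

/-- Two orthogonal vectors of each sign. -/
def Sig (φ : O →+* ℂ) (F : Form O ι) (P : Submodule O (ι → O)) : Prop :=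
  ∀ ε : ℝ, ε = 1 ∨ ε = -1 → ∃ p ∈ P, ∃ p' ∈ P, F.B p p' = 0 ∧ Sg φ F ε p ∧ Sg φ F ε p'

lemma scaleE {F : Form O ι} {k x : ι → O} {c : O} (e : F.IsE k x c) (l : O) :
    F.IsE k (star l • x) (l * star l * c) :=
  ⟨e.kk, by simp [e.kx], by
    rw [B_smul_left, B_smul_right, ← e.hc]; simp only [star_mul, star_star]; ring⟩

/-- The elementary group of the pair, with denominator `l` at `f`. -/
def EL (F : Form O ι) (P : Submodule O (ι → O)) (f f' : ι → O) (l : O) : Subgroup (WG F) :=
  Subgroup.closure {g | (∃ x c, ∃ e : F.IsE f' x c, x ∈ LL F P f f' ∧ Dv (1 - F.z) x ∧ g = mkE e) ∨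
    ∃ x c, ∃ e : F.IsE f x c, x ∈ LL F P f f' ∧ Dv (1 - F.z) x ∧ g = mkE (scaleE e l)}

/-- The elementary group together with the level `π` stabiliser of the pair. -/
def GM (F : Form O ι) (P : Submodule O (ι → O)) (f f' : ι → O) (l : O) : Subgroup (WG F) :=
  EL F P f f' l ⊔ (sup F (LL F P f f') ⊓ lev F (1 - F.z))

/-- Unimodularity modulo `a` against `L`. -/
def Um (F : Form O ι) (L : Submodule O (ι → O)) (a : O) (x : ι → O) : Prop :=
  ∃ y ∈ L, IsCoprime (F.B y x) a

/-- Strong approximation for `L`. -/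
def SA (F : Form O ι) (L : Submodule O (ι → O)) (D : O) : Prop :=
  ∀ (a n : O) (x x' : ι → O), n ≠ 0 → IsCoprime a (star a) → IsCoprime a D →
    IsCoprime a (n * star n) → x ∈ L → x' ∈ L → Dv n (x' - x) → Um F L a x → Um F L a x' →
    ∃ g ∈ sup F L ⊓ lev F n, Dv (a * n) (act g *ᵥ x - x')

/-- An orthogonal basis of `L` up to the denominator `D`. -/
structure OB (F : Form O ι) (L : Submodule O (ι → O)) {k : ℕ} (e : Fin k → ι → O) (q : Fin k → O)
    (D : O) (γ : Fin k → O) : Prop where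
  mem : ∀ i, e i ∈ L
  re : ∀ i, star (q i) = q i
  nrm : ∀ i, F.B (e i) (e i) = (1 + F.z) * q i
  ort : ∀ i j, i ≠ j → F.B (e i) (e j) = 0
  D0 : D ≠ 0
  Dr : star D = D
  gam : ∀ i, γ i * ((1 + F.z) * q i) = D
  exp : ∀ y ∈ L, D • y = ∑ i, (γ i * F.B (e i) y) • e i

/-- A pair in `P` with a root in the complement. -/
structure Fr0 (F : Form O ι) (P : Submodule O (ι → O)) (f f' ρ : ι → O) : Prop where
  hyp : Hyp F f f'
  fP : f ∈ P
  f'P : f' ∈ P
  sat : Sat P
  ρL : ρ ∈ LL F P f f'
  ρρ : F.B ρ ρ = 1 + F.z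

/-- A frame with strong approximation. -/
structure Fr (F : Form O ι) (P : Submodule O (ι → O)) (f f' ρ : ι → O) (D : O) : Prop
    extends Fr0 F P f f' ρ where
  D0 : D ≠ 0
  Dr : star D = D
  sa : SA F (LL F P f f') D

/-- The isotropic vectors that can be moved to `f`. -/
structure Sv (F : Form O ι) (P : Submodule O (ι → O)) (f f' : ι → O) (l : O) (v : ι → O) : Prop where
  mem : v ∈ P
  dv : Dv (1 - F.z) (v - f)
  iso : F.B v v = 0
  ca : (1 - F.z) ^ 2 * l ∣ aco F f' v - 1
  prim : ∃ y ∈ P, l ∣ F.B f' y ∧ F.B y v = 1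

/-- Standard vectors. -/
def VV (F : Form O ι) (f f' ρ : ι → O) (a b μ : O) : ι → O :=
  a • f + ((1 - F.z) * b) • f' + ((1 - F.z) * μ) • ρ

/-- The isotropy equation of a standard vector. -/
def Iso (z a b μ : O) : Prop :=
  star a * b - a * star b = -(z - star z) * (μ * star μ)

/-- Position of the image of `f'` for the group `G₀(l)`. -/
def Vl (F : Form O ι) (f f' : ι → O) (l : O) (v : ι → O) : Prop :=
  l * star l ∣ aco F f' v ∧ Dv (star l) (xco F f f' v)

/-- The integral torus element: `1` on `f`, `l` on the complement, `l * star l` on `f'`. -/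
def Sm (F : Form O ι) (f f' : ι → O) (l : O) : Matrix ι ι O :=
  l • (1 : Matrix ι ι O) + ((1 - l) * star F.z) • (ou f f' * F.A) + (l * star l - l) • (ou f' f * F.A)

/-- `g'` is the conjugate of `g` by the torus element. -/
def Rl (F : Form O ι) (f f' : ι → O) (l : O) (g g' : WG F) : Prop :=
  (l * star l) • g'.W = Sm F f f' l * g.W * (Sm F f f' l)ᴴ

/-- Level `π`, determinant one, supported on `P`. -/
def G1 (F : Form O ι) (P : Submodule O (ι → O)) : Subgroup (WG F) :=
  sup F P ⊓ lev F (1 - F.z) ⊓ detK F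

/-- Strong approximation holds for all nondegenerate lattices that are indefinite at `φ`. -/
def SAok (φ : O →+* ℂ) (F : Form O ι) : Prop :=
  ∀ L : Submodule O (ι → O), Nd F L → (∃ y ∈ L, Sg φ F 1 y) → (∃ y ∈ L, Sg φ F (-1) y) →
    ∃ D, D ≠ 0 ∧ star D = D ∧ SA F L D

/-- A good pair with a root and a third good vector. -/
structure G3 {F : Form O ι} (Γ : Subgroup (WG F)) (P : Submodule O (ι → O)) (h k h3 ρ : ι → O) :
    Prop where
  fr : Fr0 F P h k ρ
  gh : Good Γ h
  gk : Good Γ k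
  g3 : Good Γ h3
  m3 : h3 ∈ P
  i3 : F.B h3 h3 = 0
  c1 : IsCoprime (F.B h3 h) (1 - F.z)
  c2 : IsCoprime (F.B k h3) (1 - F.z)

/-- Data for one step `P → P ⊓ kerv r` of the stabiliser chain. -/
structure Step {F : Form O ι} (Γ : Subgroup (WG F)) (P : Submodule O (ι → O))
    (r h k h3 ρ : ι → O) : Prop extends G3 Γ P h k h3 ρ where
  nd : Nd F P
  rh : IsUnit (r ⬝ᵥ h)

section braid
variable (m : ℕ) (z : O) (hz : z * star z = 1) (d : ℕ)

/-- The level `π` subgroup with admissible determinant lies in the braid image. -/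
def LevOK : Prop := ∀ g : WG (BF m z hz), g ∈ lev (BF m z hz) (1 - z) →
  (∃ k : ℕ, (act g).det = (-z) ^ k) → g ∈ Gam m z hz

/-- The good vector of the points `k + 1, …, k + d + 1` without the point `l`. -/
def gv (k l : ℕ) : Fin m → O := vec m (fv z d k) - vec m (iv O l (k + d))

/-- Vectors supported on the first `j` coordinates. -/
def PT (O : Type) [CommRing O] (m j : ℕ) : Submodule O (Fin m → O) where
  carrier := {u | ∀ i : Fin m, j ≤ i.val → u i = 0}
  add_mem' := by intro a b ha hb i hi; simp [ha i hi, hb i hi]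
  zero_mem' := by intro i _; rfl
  smul_mem' := by intro c x hx i hi; simp [hx i hi]

/-- Vectors on the first `d` coordinates orthogonal to the roots `e j, …, e (d - 1)`. -/
def PLo (j : ℕ) : Submodule O (Fin m → O) :=
  PT O m d ⊓ ⨅ i ∈ Finset.Ico j d, kerv (cf (BF m z hz) (ev O m i))

/-- The coordinate of `e 3` on `PLo 5`. -/
def c3 : Fin m → O := -star z • cf (BF m z hz) (ev O m 4)

/-- The coordinate of `e 2` on `PLo 5`. -/
def c2 : Fin m → O := -star z • (cf (BF m z hz) (ev O m 3) - (1 + z) • c3 m z hz)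

/-- The rank four step. -/
def P4 (s : O) : Submodule O (Fin m → O) := PLo m z hz d 5 ⊓ kerv (c3 m z hz - s • c2 m z hz)

/-- The rank three step. -/
def P3 (s : O) : Submodule O (Fin m → O) := P4 m z hz d s ⊓ kerv (c2 m z hz)

end braid

/-- The parameter of the rank four step. -/
structure Par (φ : O →+* ℂ) (z s : O) : Prop where
  dv : (1 - z) ∣ s
  un : IsUnit (1 - s)
  neg : ∃ q, star q = q ∧ (1 + z) * q = (1 + z) * (1 + s * star s) - (s + z * star s) ∧
    (φ ((1 + z) * star (1 + z) * q)).re < 1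

end Pool.Agent.Lib.MP_61a4e3_al.R
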