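import Pool.Agent.Lib.MP_61a4e3_al.R.T2

/-! Factorisation of elements of the group attached to `l`. -/

set_option linter.unusedSectionVars false
set_option linter.unusedSimpArgs false
set_option linter.unusedVariables false

namespace Pool.Agent.Lib.MP_61a4e3_al.R

open Matrix WG Form

variable {O : Type} [CommRing O] [StarRing O] [IsDomain O] [CharZero O] {ι : Type} [Fintype ι]
  [DecidableEq ι] {F : Form O ι} {Γ : Subgroup (WG F)} {P : Submodule O (ι → O)}
  {f f' ρ : ι → O} {l D : O}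

namespace T92

lemma fix_step' (H : RH F.z) (T : Hyp F f f') (hf : f ∈ P) (hf' : f' ∈ P) (hS : Sat P)
    (hl : IsCoprime l (star l)) {g : WG F}
    (hP : g ∈ sup F P) (hg : g ∈ lev F (1 - F.z)) (h : act g *ᵥ f = f)
    (hV : Vl F f f' l (act g *ᵥ f')) : ∃ e ∈ EL F P f f' l, act e *ᵥ f = f ∧
      act (e * g) *ᵥ f' = f' := by
  have hz := F.hz
  have l0 := ne_zero_of_cop_star hl
  obtain ⟨hx, ev⟩ := pair_decomp T hf hf' (act_mem hP hf')
  have b1 : F.B f (act g *ᵥ f') = 1 := by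
    nth_rewrite 1 [← h]; rw [B_act, T.ff']
  have n : tN F (aco F f' (act g *ᵥ f')) (F.B f (act g *ᵥ f')) (xco F f f' (act g *ᵥ f')) = 0 := by
    rw [← norm_triple T _ _ hx, ← ev, B_act, T.f'f']
  have d1 : Dv (1 - F.z) (xco F f f' (act g *ᵥ f')) := by
    have d := dv_act_sub hg f'
    have e : xco F f f' (act g *ᵥ f') =
        (act g *ᵥ f' - f') - (star F.z * F.B f' (act g *ᵥ f' - f')) • f := by
      rw [xco, b1, aco, B_sub_right, T.f'f']; module
    rw [e]
    exact d.sub (Dv.smul_of_dvd ((d.B_right F f').mul_left _) _)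
  have cp : IsCoprime (star l) (1 - F.z) :=
    (H.cop_pi (a := star l) (by rw [star_star]; exact hl.symm)).of_mul_right_left
  obtain ⟨⟨a0, ha0⟩, d2⟩ := hV
  obtain ⟨u, hu⟩ := Dv.exists (q := star l * (1 - F.z)) (fun i => cp.mul_dvd (d2 i) (d1 i))
  have uL : u ∈ LL F P f f' :=
    sat_LL hS _ u (mul_ne_zero (star_ne_zero.2 l0) H.one_sub) (hu ▸ hx)
  obtain ⟨-, u1, u2⟩ := mem_LL.1 uL
  rw [← smul_smul] at hu
  rw [b1, ha0, hu] at ev n
  generalize hy : (1 - F.z) • u = y at ev n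
  have y1 : F.B f y = 0 := by simp [← hy, u1]
  have y2 : F.B f' y = 0 := by simp [← hy, u2]
  have n' : F.z * a0 + star a0 + F.B y y = 0 := by
    refine mul_left_cancel₀ (mul_ne_zero l0 (star_ne_zero.2 l0)) ?_
    simp only [tN, B_smul_left, B_smul_right, star_mul, star_star, star_one] at n
    linear_combination n
  have e : F.IsE f y (a0 + star F.z * F.B y y) := ⟨T.ff, y1, by
    rw [star_add, star_mul, star_star]
    linear_combination n' + F.B y y * hz - F.B_swap y y⟩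
  refine ⟨mkE (scaleE e l), Subgroup.subset_closure (Or.inr ⟨y, _, e,
    hy ▸ Submodule.smul_mem _ _ uL, hy ▸ Dv.smul_self _ _, rfl⟩), ?_, ?_⟩
  · rw [act_mkE]; simp [T.ff, F.B_eq_zero_swap y1]
  · rw [act_mul_mulVec, ev, act_mkE]
    simp only [B_add_right, B_smul_right, B_smul_left, T.ff, T.ff', y1,
      F.B_eq_zero_swap y1, F.B_eq_zero_swap y2, star_star]
    module

end T92

lemma fix_red (H : RH F.z) (T : Hyp F f f') (hf : f ∈ P) (hf' : f' ∈ P) (hP : Sat P)
    (hl : IsCoprime l (star l)) {g : WG F} (hg : g ∈ sup F P ⊓ lev F (1 - F.z))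
    (h : act g *ᵥ f = f) (h' : Vl F f f' l (act g *ᵥ f')) :
    ∃ u ∈ EL F P f f' l, ∃ n ∈ sup F (LL F P f f') ⊓ lev F (1 - F.z), g = u * n := by
  obtain ⟨g1, g2⟩ := Subgroup.mem_inf.1 hg
  obtain ⟨e, he, h1, h2⟩ := T92.fix_step' H T hf hf' hP hl g1 g2 h h'
  exact ⟨e⁻¹, inv_mem he, e * g, Subgroup.mem_inf.2
    ⟨T92.sup_LL_of_fix (mul_mem (T92.EL_le_sup hf hf' he) g1) (by rw [act_mul_mulVec, h, h1]) h2,
      mul_mem (T92.EL_le_lev H he) g2⟩, by group⟩

theorem a2 (H : RH F.z) (T : Fr F P f f' ρ D) (hl : Nice D l) {g : WG F}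
    (hg : g ∈ sup F P ⊓ lev F (1 - F.z)) (ha : (1 - F.z) ^ 2 * l ∣ aco F f' (act g *ᵥ f) - 1)
    (h' : Vl F f f' l (act g *ᵥ f')) :
    ∃ e ∈ EL F P f f' l, ∃ n ∈ sup F (LL F P f f') ⊓ lev F (1 - F.z), g = e * n :=
  T92.a2 H T hl (Subgroup.mem_inf.1 hg).1 (Subgroup.mem_inf.1 hg).2 ha h'

lemma lev_sq_le_GM (H : RH F.z) (T : Fr F ⊤ f f' ρ D) :
    lev F ((1 - F.z) ^ 2) ≤ GM F ⊤ f f' 1 := by
  intro g hg
  refine mem_GM.2 (T92.a2_one H T (fun _ => trivial)
    (fun i j => (dvd_pow_self _ two_ne_zero).trans (hg i j)) ?_)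
  have := ((dv_act_sub hg f).B_right F f').mul_left (star F.z)
  rwa [B_sub_right, mul_sub, T.hyp.f'f, F.hz'] at this

lemma rank_one (H : RH F.z) {L : Submodule O (ι → O)} (hρ : F.B ρ ρ = 1 + F.z)
    (hL : ∀ x ∈ L, ∃ c : O, x = c • ρ) {g : WG F} (hg : g ∈ sup F L) (hd : g ∈ detK F) : g = 1 := by
  choose c hc using fun j => hL _ (hg (Pi.single j 1))
  have hW : g.W = ou ρ (star c) := by
    ext i j
    have := congrFun (hc j) i
    simp only [mulVec_single_one, col_apply, Pi.smul_apply, smul_eq_mul] at this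
    simp [ou, vecMulVec_apply, this, mul_comm]
  have h0 : F.B (star c) ρ = 0 := by
    have h1 : (act g).det = 1 := hd
    rw [act_apply, hW, sub_eq_add_neg, ← Matrix.neg_mul, ← ou_neg_left, ou, vecMulVec_mul,
      vecMulVec_eq Unit, det_one_add_replicateCol_mul_replicateRow, ← dotProduct_mulVec] at h1
    have h2 : F.B (star c) (-ρ) = 0 := by rw [Form.B]; linear_combination h1
    simpa using h2
  obtain ⟨t, ht⟩ := hL _ (ct_mem hg (F.A *ᵥ ρ))
  rw [hW, ou_ct, ou_mulVec, ← Form.B, hρ] at ht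
  have h3 : star t * (1 + F.z) = 0 := by
    rw [← hρ, ← B_smul_left, ← ht, B_smul_left, h0, mul_zero]
  have h4 : t = 0 := star_eq_zero.1 ((mul_eq_zero.1 h3).resolve_right H.one_add)
  rw [h4, zero_smul] at ht
  have h5 := (smul_eq_zero.1 ht).resolve_left H.one_add
  exact WG.ext (by rw [hW, h5, ou_zero_right, one_W])

lemma to_Vl (H : RH F.z) (T : Hyp F f f') (hf : f ∈ P) (hf' : f' ∈ P) {g : WG F}
    (hg : g ∈ sup F P ⊓ lev F (1 - F.z))
    (hc : IsCoprime (aco F f' (act g *ᵥ f)) (l * star l)) :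
    ∃ u ∈ EL F P f f' 1, act u *ᵥ f = f ∧ Vl F f f' l (act (g * u) *ᵥ f') := by
  obtain ⟨g1, g2⟩ := Subgroup.mem_inf.1 hg
  have hz := F.hz
  obtain ⟨m, s, hs⟩ := hc
  have hx := xco_mem T hf hf' (act_mem (inv_mem g1) hf')
  obtain ⟨-, x1, x2⟩ := mem_LL.1 hx
  have ep := decomp (F := F) (f := f) (f' := f') (act g⁻¹ *ᵥ f')
  have hb : F.B f (act g⁻¹ *ᵥ f') = star (aco F f' (act g *ᵥ f)) := by
    rw [← B_act g, act_act_inv, B_swap, aco, star_mul, star_star, mul_comm]
  have d1 : Dv (1 - F.z) (xco F f f' (act g⁻¹ *ᵥ f')) := by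
    have d := dv_act_sub (inv_mem g2) f'
    have e : xco F f f' (act g⁻¹ *ᵥ f') = (act g⁻¹ *ᵥ f' - f') -
        (star F.z * F.B f' (act g⁻¹ *ᵥ f' - f')) • f - F.B f (act g⁻¹ *ᵥ f' - f') • f' := by
      rw [xco, aco, B_sub_right, B_sub_right, T.f'f', T.ff']; module
    rw [e]
    exact (d.sub (Dv.smul_of_dvd ((d.B_right F f').mul_left _) _)).sub
      (Dv.smul_of_dvd (d.B_right F f) _)
  have n := B_act g⁻¹ f' f'
  rw [T.f'f', ep, B_mk T x1 x2 x1 x2, hb, star_star] at n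
  have gp : act g *ᵥ (act g⁻¹ *ᵥ f') = f' := act_act_inv g f'
  rw [ep, hb] at gp
  generalize aco F f' (act g *ᵥ f) = a at *
  generalize aco F f' (act g⁻¹ *ᵥ f') = α at *
  generalize xco F f f' (act g⁻¹ *ᵥ f') = x at *
  have hs' := congrArg star hs
  simp only [star_add, star_mul, star_star, star_one] at hs'
  have e : F.IsE f ((-star m) • x) (-(star m * m * α * a)) := ⟨T.ff, by simp [x1], by
    simp only [B_smul_left, B_smul_right, star_neg, star_mul, star_star]
    linear_combination (-(star m * m)) * n⟩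
  refine ⟨mkE e, mkE_mem_EL_one e (Submodule.smul_mem _ _ hx) (d1.smul _), ?_, ?_⟩
  · rw [act_mkE]; simp [T.ff, F.B_eq_zero_swap x1]
  · have k : act (mkE e) *ᵥ f' = star m • (α • f + star a • f' + x) +
        (l * star l) • ((-(star m * α * s)) • f + star s • f') := by
      rw [act_mkE, T.ff', B_smul_left, F.B_eq_zero_swap x2]
      match_scalars
      · linear_combination -hs'
      · ring
      · linear_combination (star m * α) * hs
    rw [act_mul_mulVec, k, mulVec_add, mulVec_smul, mulVec_smul, gp]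
    generalize act g *ᵥ ((-(star m * α * s)) • f + star s • f') = y
    refine ⟨⟨aco F f' y, by simp only [aco, B_add_right, B_smul_right, T.f'f']; ring⟩, ?_⟩
    have : xco F f f' (star m • f' + (l * star l) • y) = star l • (l • xco F f f' y) := by
      simp only [xco, aco, B_add_right, B_smul_right, T.f'f', T.ff']; module
    rw [this]; exact Dv.smul_self _ _

end Pool.Agent.Lib.MP_61a4e3_al.R
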