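import Pool.Agent.Lib.MP_61a4e3_al.R.T2

/-! One step of the stabiliser chain. -/

set_option linter.unusedSectionVars false
set_option linter.unusedSimpArgs false
set_option linter.unusedVariables false

namespace Pool.Agent.Lib.MP_61a4e3_al.R

open Matrix WG Form

variable {O : Type} [CommRing O] [StarRing O] [IsDomain O] [CharZero O] {ι : Type} [Fintype ι]
  [DecidableEq ι] {F : Form O ι} {Γ : Subgroup (WG F)} {P : Submodule O (ι → O)}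
  {f f' ρ : ι → O} {l D : O}

lemma adj (H : RH F.z) {h3 : ι → O} (T : G3 Γ P f f' h3 ρ) {g : WG F} (hg : g ∈ G1 F P) :
    ∃ u ∈ Γ ⊓ G1 F P, Sv F P f f' 1 (act (u * g) *ᵥ f) := by
  have Y := T.fr.hyp
  obtain ⟨w, hw⟩ := (dv_act_sub hg.1.2 f).exists
  have hv : act g *ᵥ f = f + (1 - F.z) • w := by rw [← hw]; abel
  obtain ⟨α, β, hκ⟩ := T.c1.mul_left T.c2
  obtain ⟨n, m, hm⟩ := H.int_mod (-(F.z * F.B f' w * α))
  have hn : star (n : O) = n := star_intCast n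
  have e : F.IsE h3 0 (star (1 - F.z) * n) := ⟨T.i3, by simp, by rw [H.lam_valid hn]; simp⟩
  have hu : mkE e ∈ G1 F P := ⟨⟨mkE_mem_sup e T.m3 P.zero_mem,
    mkE_mem_lev H.pi_dvd_star e (Dv.zero _) (H.pi_dvd_star.mul_right _)⟩, det_mkE e⟩
  have hug := mul_mem hu hg
  refine ⟨mkE e, ⟨(T.g3 _ _ e (Dv.zero _)).mem e, hu⟩, act_mem hug.1.1 T.fr.fP,
    dv_act_sub hug.1.2 f, by rw [B_act, Y.ff], ?_,
    F.z • (act (mkE e * g) *ᵥ f'), P.smul_mem _ (act_mem hug.1.1 T.fr.f'P), one_dvd _, ?_⟩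
  · refine ⟨star F.z * (F.B f' w * β - star F.z * m * (F.B h3 f * F.B f' h3) +
      star F.z * n * F.B h3 w * F.B f' h3), ?_⟩
    rw [act_mul_mulVec, act_mkE, hv, aco, H.star_pi]
    simp only [B_add_right, B_sub_right, B_smul_right, B_zero_left, B_zero_right, smul_zero,
      Y.f'f]
    linear_combination (1 - star F.z * (1 - F.z) * F.B f' w * α * (F.B h3 f * F.B f' h3)) * F.hz
      - star F.z * (1 - F.z) * F.B f' w * hκ
      - star F.z ^ 2 * (1 - F.z) * (F.B h3 f * F.B f' h3) * hm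
  · rw [B_smul_left, B_act, Y.f'f, F.hz']

lemma Nd.ll (T : Hyp F f f') (hf : f ∈ P) (hf' : f' ∈ P) (h : Nd F P) : Nd F (LL F P f f') := by
  intro y hy hx
  obtain ⟨yP, y1, y2⟩ := mem_LL.1 hy
  refine h y yP fun x xP => ?_
  have := hx _ (xco_mem T hf hf' xP)
  simpa [xco, y1, y2] using this

lemma Sg.xco {φ : O →+* ℂ} {ε : ℝ} (T : Hyp F f f') {y : ι → O} (h0 : F.B f y = 0)
    (h : Sg φ F ε y) : Sg φ F ε (xco F f f' y) := by
  obtain ⟨q, h1, h2, h3⟩ := h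
  refine ⟨q, h1, ?_, h3⟩
  rw [← h2]
  simp [R.xco, h0, T.ff, F.B_eq_zero_swap h0]

lemma Sig.ll {φ : O →+* ℂ} (hφ : Place φ) (T : Hyp F f f') (hf : f ∈ P) (hf' : f' ∈ P)
    (h : Sig φ F P) {ε : ℝ} (hε : ε = 1 ∨ ε = -1) : ∃ y ∈ LL F P f f', Sg φ F ε y := by
  obtain ⟨p, pP, p', p'P, o, s, s'⟩ := h ε hε
  by_cases h0 : F.B f p = 0
  · exact ⟨_, xco_mem T hf hf' pP, s.xco T h0⟩
  obtain ⟨q, q1, q2, q3⟩ := s
  obtain ⟨q', q1', q2', q3'⟩ := s'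
  refine ⟨_, xco_mem T hf hf' (P.sub_mem (P.smul_mem (F.B f p') pP) (P.smul_mem (F.B f p) p'P)),
    Sg.xco T (by simp [mul_comm]) ⟨F.B f p' * star (F.B f p') * q + F.B f p * star (F.B f p) * q',
      by simp [q1, q1', mul_comm, mul_left_comm], ?_, ?_⟩⟩
  · simp only [B_sub_left, B_sub_right, B_smul_left, B_smul_right, o, F.B_eq_zero_swap o, q2, q2']
    ring
  · have hn : φ (F.B f p) ≠ 0 := fun e => h0 (hφ.inj (by rw [e, map_zero]))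
    have k := Complex.normSq_pos.2 hn
    have k' := Complex.normSq_nonneg (φ (F.B f p'))
    simp only [map_add, map_mul, hφ.st, Complex.star_def, Complex.mul_conj, Complex.add_re,
      Complex.re_ofReal_mul]
    nlinarith [mul_pos k q3', mul_nonneg k' q3.le]

lemma Sig.mono {φ : O →+* ℂ} {Q : Submodule O (ι → O)} (h : Sig φ F P) (hQ : P ≤ Q) :
    Sig φ F Q := fun ε hε => by
  obtain ⟨p, pP, p', p'P, o⟩ := h ε hε
  exact ⟨p, hQ pP, p', hQ p'P, o⟩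

lemma exists_Fr {φ : O →+* ℂ} (hφ : Place φ) (hS : SAok φ F) (T : Fr0 F P f f' ρ) (hn : Nd F P)
    (hs : Sig φ F P) : ∃ D, Fr F P f f' ρ D := by
  obtain ⟨D, h0, h1, h2⟩ := hS _ (hn.ll T.hyp T.fP T.f'P)
    (hs.ll hφ T.hyp T.fP T.f'P (Or.inl rfl)) (hs.ll hφ T.hyp T.fP T.f'P (Or.inr rfl))
  exact ⟨D, T, h0, h1, h2⟩

/-- The step of the chain for a given frame with strong approximation. -/
theorem peel_of_Fr (H : RH F.z) {r h3 : ι → O} (T : G3 Γ P f f' h3 ρ) (S : Fr F P f f' ρ D)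
    (rh : IsUnit (r ⬝ᵥ f)) (h : G1 F (P ⊓ kerv r) ≤ Γ) : G1 F P ≤ Γ := by
  intro g hg
  obtain ⟨u, ⟨uΓ, uG⟩, hS⟩ := adj H T hg
  obtain ⟨e, he, hfix⟩ := trans_T H S ⟨isCoprime_one_left, isCoprime_one_left⟩ hS
  have k := mul_mem (EL_le_G1 H S.fP S.f'P he) (mul_mem uG hg)
  obtain ⟨c, hc⟩ := rh.exists_left_inv
  have h1 : (c • r) ⬝ᵥ f = 1 := by rw [smul_dotProduct, smul_eq_mul, hc]
  obtain ⟨x, d, e', -, hx, hd, hs⟩ := final_step (r := c • r) k.1.2 k.1.1 S.hyp.ff S.fP h1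
    (by rw [act_mul_mulVec, hfix, h1])
  have hle : P ⊓ kerv (c • r) ≤ P ⊓ kerv r := fun y hy => ⟨hy.1, by
    have h2 : (c • r) ⬝ᵥ y = 0 := hy.2
    rw [smul_dotProduct, smul_eq_mul] at h2
    change r ⬝ᵥ y = 0
    linear_combination (r ⬝ᵥ f) * h2 - (r ⬝ᵥ y) * hc⟩
  have m := h (⟨⟨sup_mono hle hs, mul_mem k.1.2 (mkE_mem_lev H.pi_dvd_star e' hx hd)⟩,
    mul_mem k.2 (det_mkE e' : mkE e' ∈ detK F)⟩ : e * (u * g) * mkE e' ∈ G1 F (P ⊓ kerv r))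
  have m1 := (Γ.mul_mem_cancel_right ((T.gh _ _ e' hx).mem e')).1 m
  have m2 := (Γ.mul_mem_cancel_left (EL_le T.gh T.gk he)).1 m1
  exact (Γ.mul_mem_cancel_left uΓ).1 m2

theorem peel_Fr (H : RH F.z) {r h3 : ι → O} (T : G3 Γ P f f' h3 ρ) (rh : IsUnit (r ⬝ᵥ f))
    (hF : Fr F P f f' ρ D) (h : G1 F (P ⊓ kerv r) ≤ Γ) : G1 F P ≤ Γ :=
  peel_of_Fr H T hF rh h

theorem peel (H : RH F.z) {φ : O →+* ℂ} (hφ : Place φ) (hS : SAok φ F)
    {r h3 : ι → O} (T : Step Γ P r f f' h3 ρ) (hs : Sig φ F P) (h : G1 F (P ⊓ kerv r) ≤ Γ) :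
    G1 F P ≤ Γ := by
  obtain ⟨D, S⟩ := exists_Fr hφ hS T.fr T.nd hs
  exact peel_of_Fr H T.toG3 S T.rh h

end Pool.Agent.Lib.MP_61a4e3_al.R
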