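import Pool.Agent.Lib.MP_61a4e3_al.R.Plane1
import Pool.Agent.Lib.MP_61a4e3_al.R.Peel

/-! The rank three lattice. -/

set_option linter.unusedSectionVars false
set_option linter.unusedSimpArgs false
set_option linter.unusedVariables false

namespace Pool.Agent.Lib.MP_61a4e3_al.R

open Matrix WG Form

variable {O : Type} [CommRing O] [StarRing O] [IsDomain O] [CharZero O] {ι : Type} [Fintype ι]
  [DecidableEq ι] {F : Form O ι} {Γ : Subgroup (WG F)} {P : Submodule O (ι → O)}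
  {f f' ρ : ι → O} {l D : O}

lemma b3_mem {g : WG F} : g ∈ G1 F P ↔ g ∈ sup F P ∧ g ∈ lev F (1 - F.z) ∧ g ∈ detK F := by
  simp only [G1, Subgroup.mem_inf, and_assoc]

/-- An element fixing `f` lies in the group. -/
lemma b3_fix (H : RH F.z) {f3 : ι → O} (T' : G3 Γ P f f' f3 ρ)
    (hL : ∀ x ∈ LL F P f f', ∃ c : O, x = c • ρ) {g : WG F} (hg : g ∈ G1 F P)
    (h : act g *ᵥ f = f) : g ∈ Γ := by
  obtain ⟨g1, g2, g3⟩ := b3_mem.1 hg
  obtain ⟨u, hu, n, ⟨n1, n2⟩, e⟩ := fix_red (l := 1) H T'.fr.hyp T'.fr.fP T'.fr.f'P T'.fr.sat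
    isCoprime_one_left ⟨g1, g2⟩ h ⟨by simp, fun i => by simp⟩
  have nd : n ∈ detK F := by
    have := mul_mem (inv_mem (b3_mem.1 (EL_le_G1 H T'.fr.fP T'.fr.f'P hu)).2.2) g3
    rwa [e, inv_mul_cancel_left] at this
  rw [e, rank_one H T'.fr.ρρ hL n1 nd, mul_one]
  exact EL_le T'.gh T'.gk hu

/-- The case of a column that is congruent to a standard one. -/
lemma b3_std (H : RH F.z) (hM : MenOK F.z) (T : Fr F ⊤ f f' ρ D) {f3 : ι → O}
    (T' : G3 Γ P f f' f3 ρ) (hL : ∀ x ∈ LL F P f f', ∃ c : O, x = c • ρ) {g : WG F}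
    (hg : g ∈ G1 F P) {a b μ : O} (e : act g *ᵥ f = a • f + b • f' + ((1 - F.z) * μ) • ρ)
    (a0 : a ≠ 0) (ha : (1 - F.z) ^ 2 ∣ a - 1) (hμ : a ∣ μ - 1) : g ∈ Γ := by
  have Th := T'.fr.hyp
  obtain ⟨ρP, fρ, f'ρ⟩ := mem_LL.1 T'.fr.ρL
  have fx : ∀ c : O, F.B f (c • ρ) = 0 := fun c => by rw [B_smul_right, fρ, mul_zero]
  have f'x : ∀ c : O, F.B f' (c • ρ) = 0 := fun c => by rw [B_smul_right, f'ρ, mul_zero]
  have ea : aco F f' (act g *ᵥ f) = a := by rw [e, aco_mk Th (f'x _)]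
  have ex : xco F f f' (act g *ᵥ f) = ((1 - F.z) * μ) • ρ := by rw [e, xco_mk Th (fx _) (f'x _)]
  obtain ⟨c, hc⟩ := hμ
  obtain ⟨u, hu, b', eu⟩ := move_x (l := 1) Th T'.fr.sat T'.fr.fP T'.fr.f'P
    (act_mem (b3_mem.1 hg).1 T'.fr.fP) (x' := ((1 - F.z) * 1) • ρ)
    (Submodule.smul_mem _ _ T'.fr.ρL) (by rw [ea]; exact mul_ne_zero a0 H.one_sub) (by
      rw [ea, ex, ← sub_smul]
      exact Dv.smul_of_dvd ⟨-c, by linear_combination (-(1 - F.z)) * hc⟩ _)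
  rw [ea, ← act_mul_mulVec] at eu
  have u1 := EL_le_G1 H T'.fr.fP T'.fr.f'P hu
  have ug := mul_mem u1 hg
  obtain ⟨bt, rfl⟩ : (1 - F.z) ∣ b' := by
    have := (dv_act_sub (b3_mem.1 ug).2.1 f).B_right F f
    rwa [B_sub_right, eu, bco_mk Th (fx _), Th.ff, sub_zero] at this
  have ev : act (u * g) *ᵥ f = VV F f f' ρ a bt 1 := eu
  obtain ⟨γ, ⟨γ1, γ2⟩, eγ⟩ := std_to_f H hM T T'.fr (a := a) (b := bt)
    ((VV_iso H T'.fr a bt 1).1 (by rw [← ev, B_act, Th.ff])) ha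
  have γ3 := b3_mem.1 (EL_le_G1 (P := ⊤) H trivial trivial γ1)
  have := b3_fix H T' hL (mul_mem (b3_mem.2 ⟨γ2, γ3.2.1, γ3.2.2⟩) ug)
    (by rw [act_mul_mulVec, ev, eγ])
  exact (mul_mem_cancel_left (EL_le T'.gh T'.gk hu)).1
    ((mul_mem_cancel_left (EL_le T'.gh T'.gk γ1)).1 this)

/-- The case of a column in general position. -/
lemma b3_gen (H : RH F.z) (hM : MenOK F.z) (T : Fr F ⊤ f f' ρ D) {f3 : ι → O}
    (T' : G3 Γ P f f' f3 ρ) (hL : ∀ x ∈ LL F P f f', ∃ c : O, x = c • ρ) {k : WG F}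
    (hk : k ∈ G1 F P) {a b ξ : O} (e : act k *ᵥ f = a • f + b • f' + ((1 - F.z) * ξ) • ρ)
    (a0 : a ≠ 0) (ha : (1 - F.z) ^ 2 ∣ a - 1) (hl : Nice D l) (hξ : a ∣ l * ξ - 1)
    (hal : IsCoprime a l) (l0 : l ≠ 0) (hV : Vl F f f' l (act k *ᵥ f')) : k ∈ Γ := by
  have Th := T'.fr.hyp
  obtain ⟨ρP, fρ, f'ρ⟩ := mem_LL.1 T'.fr.ρL
  have fx : ∀ c : O, F.B f (c • ρ) = 0 := fun c => by rw [B_smul_right, fρ, mul_zero]
  have f'x : ∀ c : O, F.B f' (c • ρ) = 0 := fun c => by rw [B_smul_right, f'ρ, mul_zero]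
  obtain ⟨k1, k2, k3⟩ := b3_mem.1 hk
  obtain ⟨a1, d1, A1, A2⟩ := exists_real_mod H hl.1 hal
  obtain ⟨t2, t1, I2, I1, -, -, R, c, ε, -, E1, E2, d2⟩ := exists_T_pair H Th A1 A2
  have m2 := plane_T H hM T A1 I2
  have m1 := plane_T H hM T A2 I1
  have top : ∀ {l : O} {g}, g ∈ EL F ⊤ f f' l → g ∈ lev F (1 - F.z) ∧ g ∈ detK F := fun h =>
    (b3_mem.1 (EL_le_G1 (P := ⊤) H trivial trivial h)).2
  have fixx : ∀ x, F.B f x = 0 → F.B f' x = 0 → act t2⁻¹ *ᵥ x = x := fun x h h' =>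
    fix_of_orth (inv_mem I2.s) (by
      rintro _ ⟨r, s, rfl⟩
      simp only [B_add_left, B_smul_left, h, h', mul_zero, add_zero])
  have col : ∀ (r s : O) x, F.B f x = 0 → F.B f' x = 0 → act t2⁻¹ *ᵥ (r • f + s • f' + x) =
      (r * ε - s * ((1 - F.z) ^ 2 * (l * star l) * c)) • f +
        (s * a1 - r * ((1 - F.z) * ((1 - F.z) * star (1 - F.z)) * 1)) • f' + x := by
    intro r s x h h'
    rw [mulVec_add, mulVec_add, mulVec_smul, mulVec_smul, E1, E2, fixx x h h']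
    module
  have cl : IsCoprime ((1 - F.z) ^ 2) l := (cop_pi H hl.1).of_mul_right_left.symm.pow_left
  have d3 : (1 - F.z) ^ 2 * l ∣ a - a1 := by
    refine cl.mul_dvd ?_ (by simpa using d1.neg_right)
    have := dvd_sub ha (((sq_dvd_w2 H).trans (dvd_pow_self _ two_ne_zero)).trans A1.cong)
    rwa [sub_sub_sub_cancel_right] at this
  obtain ⟨e2, he2, n, ⟨n1, n2⟩, en⟩ := a2 H T hl (g := t2⁻¹ * k)
    ⟨fun _ => trivial, (lev F (1 - F.z)).mul_mem ((lev F (1 - F.z)).inv_mem (top m2).1) k2⟩ (by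
      rw [act_mul_mulVec, e, col _ _ _ (fx _) (f'x _), aco_mk Th (f'x _)]
      obtain ⟨p, hp⟩ := d3
      obtain ⟨q, hq⟩ := d2
      exact ⟨p * ε + star l * q - b * star l * c, by linear_combination ε * hp + hq⟩) (by
      obtain ⟨-, h, h'⟩ := mem_LL.1 (xco_mem (P := ⊤) Th trivial trivial (v := act k *ᵥ f') trivial)
      rw [act_mul_mulVec, decomp (F := F) (f := f) (f' := f') (act k *ᵥ f'), col _ _ _ h h', Vl,
        aco_mk Th h', xco_mk Th h h']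
      exact ⟨dvd_sub (hV.1.mul_right _) (((dvd_mul_left _ _).mul_right _).mul_left _), hV.2⟩)
  have ek : k = t2 * (e2 * n) := by rw [← en, mul_inv_cancel_left]
  obtain ⟨e1, he1, R2⟩ := Rl.partner Th l0 he2
  have R3 : Rl F f f' l k (t1 * (e1 * n)) := by
    rw [ek]
    exact R.mul Th.ff Th.f'f' Th.ff' l0 (R2.mul Th.ff Th.f'f' Th.ff' l0
      (Rl.of_sup (fun x hx => (mem_LL.1 hx).2) n1))
  have nd : n ∈ detK F := by
    rw [ek] at k3
    exact (mul_mem_cancel_left (top he2).2).1 ((mul_mem_cancel_left (top m2).2).1 k3)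
  have g1 : t1 * (e1 * n) ∈ Γ := by
    refine b3_std H hM T T' hL (b3_mem.2 ⟨R3.mem_sup l0 T'.fr.sat T'.fr.fP T'.fr.f'P k1,
      mul_mem (top m1).1 (mul_mem (top he1).1 n2), mul_mem (top m1).2 (mul_mem (top he1).2 nd)⟩)
      (a := a) (b := l * star l * b) (μ := l * ξ) ?_ a0 ha hξ
    rw [R3.act_left Th.ff Th.f'f' Th.ff' l0, e, Sm_comb Th.ff Th.f'f' Th.ff' _ _ (fx _) (f'x _),
      smul_smul, mul_left_comm l]
  have nΓ := (mul_mem_cancel_left (EL_le T'.gh T'.gk he1)).1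
    ((mul_mem_cancel_left (EL_le T'.gh T'.gk m1)).1 g1)
  rw [ek]
  exact mul_mem (EL_le T'.gh T'.gk m2) (mul_mem (EL_le T'.gh T'.gk he2) nΓ)

theorem base3 (H : RH F.z) (hM : MenOK F.z) (T : Fr F ⊤ f f' ρ D) {f3 : ι → O}
    (T' : G3 Γ P f f' f3 ρ) (hL : ∀ x ∈ LL F P f f', ∃ c : O, x = c • ρ) : G1 F P ≤ Γ := by
  intro g hg
  have Th := T'.fr.hyp
  have fP := T'.fr.fP
  have f'P := T'.fr.f'P
  obtain ⟨u1, hu1, S1⟩ := adj H T' hg
  obtain ⟨u1Γ, u1G⟩ := Subgroup.mem_inf.1 hu1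
  obtain ⟨e1, he1, hc, -⟩ := s0 H T'.fr isCoprime_one_left S1 (D' := 1) one_ne_zero
  have S := S1.move H Th fP f'P (Subgroup.mem_sup_left he1 : e1 ∈ GM F P f f' 1)
  rw [← act_mul_mulVec] at S hc
  have g1 : e1 * (u1 * g) ∈ G1 F P := mul_mem (EL_le_G1 H fP f'P he1) (mul_mem u1G hg)
  suffices h : e1 * (u1 * g) ∈ Γ from
    (mul_mem_cancel_left u1Γ).1 ((mul_mem_cancel_left (EL_le T'.gh T'.gk he1)).1 h)
  generalize e1 * (u1 * g) = k at S hc g1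
  have ha : (1 - F.z) ^ 2 ∣ aco F f' (act k *ᵥ f) - 1 := by simpa using S.ca
  have xL := xco_mem Th fP f'P S.mem
  have xd : Dv (1 - F.z) (xco F f f' (act k *ᵥ f)) := by
    have h1 : (1 - F.z) ∣ F.B f (act k *ᵥ f) := by
      have := S.dv.B_right F f
      rwa [B_sub_right, Th.ff, sub_zero] at this
    have := (S.dv.sub (Dv.smul_of_dvd ((dvd_pow_self _ two_ne_zero).trans ha) f)).sub
      (Dv.smul_of_dvd h1 f')
    convert this using 1
    rw [xco]; module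
  obtain ⟨y, yL, ey⟩ := T'.fr.sat.ll.ex H.one_sub xL xd
  obtain ⟨ξ, rfl⟩ := hL y yL
  rw [smul_smul] at ey
  have hξ : IsCoprime (aco F f' (act k *ᵥ f)) ξ := by
    obtain ⟨y, -, h⟩ := S.um H Th fP f'P hc
    rw [ey, B_smul_right] at h
    exact h.of_mul_left_left.of_mul_left_right.symm
  obtain ⟨l, d1, c1, hl⟩ := exists_nice' H hc hξ T.D0
  obtain ⟨u, hu, uf, hV⟩ := to_Vl H Th fP f'P ⟨(b3_mem.1 g1).1, (b3_mem.1 g1).2.1⟩ c1
  have key : k * u ∈ Γ := by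
    by_cases a0 : aco F f' (act k *ᵥ f) = 0
    · rw [a0, star_zero] at hc
      exact absurd hc not_isCoprime_zero_zero
    by_cases l0 : l = 0
    · have := hl.1
      rw [l0, star_zero] at this
      exact absurd this not_isCoprime_zero_zero
    refine b3_gen H hM T T' hL (mul_mem g1 (EL_le_G1 H fP f'P hu)) (b := F.B f (act k *ᵥ f))
      (ξ := ξ) ?_ a0 ha hl d1 c1.of_mul_right_left l0 hV
    rw [act_mul_mulVec, uf, ← ey]
    exact decomp _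
  exact (mul_mem_cancel_right (EL_le T'.gh T'.gk hu)).1 key

end Pool.Agent.Lib.MP_61a4e3_al.R
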