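import Pool.Agent.Lib.MP_61a4e3_al.R.Mv1
import Pool.Agent.Lib.MP_61a4e3_al.N.Cd

/-! Good vectors of the braid lattice on at least `d + 1` strands. -/

set_option linter.unusedSectionVars false
set_option linter.unusedSimpArgs false
set_option linter.unusedVariables false

namespace Pool.Agent.Lib.MP_61a4e3_al.R

open Matrix WG Form

variable {O : Type} [CommRing O] [StarRing O] [IsDomain O] {m : ℕ} {z : O} {hz : z * star z = 1}
  {d : ℕ}

variable (H : RH z) (hd : 3 ≤ d) (hg : geom z d = 0)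
include H hd hg

theorem good_gv {k l : ℕ} (hk : k + d ≤ m) (h1 : k + 1 ≤ l) (h2 : l ≤ k + d) :
    Good (Gam m z hz) (gv m z d k l) := C.good_gv H hd hg h1 h2 hk

lemma gv_iso {k l : ℕ} (hk : k + d ≤ m) (h1 : k + 1 ≤ l) (h2 : l ≤ k + d) :
    (BF m z hz).B (gv m z d k l) (gv m z d k l) = 0 := C.gv_iso hd hg h1 h2 hk

lemma B_ev_fv0 (hm : d ≤ m) {i : ℕ} (h1 : 1 ≤ i) (h2 : i < d) :
    (BF m z hz).B (ev O m i) (vec m (fv z d 0)) = 0 := by
  rw [C.B_ev_fv hd hg ⟨h1, by omega⟩ (by omega), if_neg (by omega), if_neg (by omega), sub_zero]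

lemma B_ev_gv (hm : d ≤ m) {i l : ℕ} (h1 : 1 ≤ i) (h2 : i < d) (l1 : 1 ≤ l) (l2 : l ≤ d) :
    (BF m z hz).B (ev O m i) (gv m z d 0 l) = if i + 1 = l then 1 else if i = l then -z else 0 := by
  rw [C.B_ev_gv hd hg h1 h2 l1 l2 hm]; split_ifs <;> first | omega | rfl

lemma B_fv0_gv (hm : d ≤ m) {l : ℕ} (l1 : 1 ≤ l) (l2 : l ≤ d) :
    (BF m z hz).B (vec m (fv z d 0)) (gv m z d 0 l) = -z := by
  rw [B_swap, C.B_gv_fv hd hg l1 (by omega) (by omega)]; simp

lemma B_gv_fv0 (hm : d ≤ m) {l : ℕ} (l1 : 1 ≤ l) (l2 : l ≤ d) :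
    (BF m z hz).B (gv m z d 0 l) (vec m (fv z d 0)) = -1 := C.B_gv_fv hd hg l1 (by omega) (by omega)

lemma B_gv_gv (hm : d ≤ m) {l l' : ℕ} (l1 : 1 ≤ l) (h : l < l') (l2 : l' ≤ d) :
    (BF m z hz).B (gv m z d 0 l) (gv m z d 0 l') = -1 := by
  have key : ∀ a, a ≤ d + 1 → l < a → (BF m z hz).B (vec m (iv O a d)) (gv m z d 0 l) = 0 := by
    intro a ha
    induction ha using Nat.decreasingInduction with
    | self =>
      intro _
      have : vec m (iv O (d + 1) d) = 0 := by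
        ext i; simp only [vec, iv, Pi.zero_apply]; rw [if_neg (by omega)]
      rw [this, B_zero_left]
    | of_succ a ha ih =>
      intro h'
      have : vec m (iv O a d) = ev O m a + vec m (iv O (a + 1) d) := by
        ext i; simp only [vec, iv, ev, Pi.add_apply]; split_ifs <;> first | omega | simp
      rw [this, B_add_left, ih (by omega), add_zero]
      rcases eq_or_lt_of_le (show a ≤ d by omega) with rfl | h2
      · rw [gv, B_sub_right, C.B_ev_fv hd hg ⟨by omega, hm⟩ (by omega), if_pos (by omega),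
          if_neg (by omega), B_ev (if_neg (by omega)) (if_neg (by omega)) ⟨by omega, hm⟩]
        simp only [iv]
        split_ifs <;> first | omega | ring
      · rw [C.B_ev_gv hd hg (by omega) h2 l1 (by omega) hm, if_neg (by omega), if_neg (by omega)]
  have e : gv m z d 0 l' = vec m (fv z d 0) - vec m (iv O l' d) := by rw [gv, zero_add]
  rw [e, B_sub_right, C.B_gv_fv hd hg l1 (by omega) (by omega),
    B_eq_zero_swap _ (key l' (by omega) h), sub_zero]

lemma gv_mem_PLo (hm : d ≤ m) {l j : ℕ} (l1 : 1 ≤ l) (h : l < j) (l2 : j ≤ d) :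
    gv m z d 0 l ∈ PLo m z hz d j := C.gv_mem_PLo hd hg l1 h (by omega) hm

lemma fv0_mem_PLo (hm : d ≤ m) {j : ℕ} (h : 1 ≤ j) : vec m (fv z d 0) ∈ PLo m z hz d j :=
  C.fv_mem_PLo hd hg (by omega) h hm

lemma ev_mem_PLo (hm : d ≤ m) {i j : ℕ} (h1 : 1 ≤ i) (h : i + 2 ≤ j) (h2 : j ≤ d) :
    ev O m i ∈ PLo m z hz d j := C.ev_mem_PLo h1 h (by omega) hm

omit H hd hg in
lemma mem_PLo {j : ℕ} {x : Fin m → O} : x ∈ PLo m z hz d j ↔ (∀ i : Fin m, d ≤ i.val → x i = 0) ∧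
    ∀ i, j ≤ i → i < d → (BF m z hz).B (ev O m i) x = 0 := C.mem_PLo

omit H hd hg in
lemma sat_PT (j : ℕ) : Sat (PT O m j) := C.sat_PT j

omit H hd hg in
lemma sat_PLo (j : ℕ) : Sat (PLo m z hz d j) := C.sat_PLo j

end Pool.Agent.Lib.MP_61a4e3_al.R
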