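import Pool.Agent.Lib.MP_61a4e3_al.R.Br1

/-! The upper steps of the chain. -/

set_option linter.unusedSectionVars false
set_option linter.unusedSimpArgs false
set_option linter.unusedVariables false

namespace Pool.Agent.Lib.MP_61a4e3_al.R

open Matrix WG Form

variable {O : Type} [CommRing O] [StarRing O] [IsDomain O] {m : ℕ} {z : O} {hz : z * star z = 1}
  {d : ℕ}

lemma PT_top : PT O m m = ⊤ := C.PT_top

lemma PT_inf {j : ℕ} (h : j + 1 ≤ m) : PT O m (j + 1) ⊓ kerv (ev O m (j + 1)) = PT O m j :=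
  C.PT_succ h

lemma PLo_top : PLo m z hz d d = PT O m d := C.PLo_top

lemma nd_PT {j : ℕ} (hj : j ≤ m) (h : geom z (j + 1) ≠ 0) : Nd (BF m z hz) (PT O m j) :=
  C.nd_PT0 hj h

theorem step_top (H : RH z) (hd : 3 ≤ d) (hg : geom z d = 0) {j : ℕ} (h1 : d ≤ j) (h2 : j + 1 ≤ m)
    (h : geom z (j + 2) ≠ 0) : ∃ f f' h3 ρ,
      Step (Gam m z hz) (PT O m (j + 1)) (ev O m (j + 1)) f f' h3 ρ := by
  obtain ⟨k, hk⟩ : ∃ k, j + 1 = k + d := ⟨j + 1 - d, by omega⟩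
  rw [hk]
  exact ⟨_, _, _, _, C.step_top H hd hg (by omega) (hk ▸ h)⟩

end Pool.Agent.Lib.MP_61a4e3_al.R
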