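import Pool.Agent.Lib.MP_61a4e3_al.R.Br1

/-! The lower steps of the chain. -/

set_option linter.unusedSectionVars false
set_option linter.unusedSimpArgs false
set_option linter.unusedVariables false

namespace Pool.Agent.Lib.MP_61a4e3_al.R

open Matrix WG Form

variable {O : Type} [CommRing O] [StarRing O] [IsDomain O] {m : ℕ} {z : O} {hz : z * star z = 1}
  {d : ℕ}

lemma PLo_inf {j : ℕ} (h : j < d) :
    PLo m z hz d (j + 1) ⊓ kerv (cf (BF m z hz) (ev O m j)) = PLo m z hz d j := C.PLo_succ h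

variable (H : RH z) (hd : 5 ≤ d) (hg : geom z d = 0) (hn : ∀ i, 0 < i → i < d → geom z i ≠ 0)
  (hm : d ≤ m)
include H hd hg hn hm

lemma nd_PLo {j : ℕ} (h1 : 3 ≤ j) (h2 : j ≤ d) : Nd (BF m z hz) (PLo m z hz d j) :=
  C.nd_PLo (by omega) hg hn (by omega) h2 hm

theorem step_low {j : ℕ} (h1 : 5 ≤ j) (h2 : j < d) : ∃ f f' h3 ρ,
    Step (Gam m z hz) (PLo m z hz d (j + 1)) (cf (BF m z hz) (ev O m j)) f f' h3 ρ :=
  ⟨_, _, _, _, C.step_low H (by omega) hg hn hm (by omega) h2⟩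

theorem step_five {s : O} (hs : IsUnit (1 - s)) : ∃ f f' h3 ρ,
    Step (Gam m z hz) (PLo m z hz d 5) (c3 m z hz - s • c2 m z hz) f f' h3 ρ := by
  have S := C.step_low (hz := hz) H (by omega) hg hn hm (l := 4) (by omega) (by omega)
  refine ⟨_, _, _, _, S.toG3, S.nd, ?_⟩
  obtain ⟨a, b, -⟩ := C.cc_gv (hz := hz) (by omega) hg hd hm
  rw [sub_dotProduct, smul_dotProduct, a, b]
  simpa using hs

end Pool.Agent.Lib.MP_61a4e3_al.R
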