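import Pool.Agent.Lib.MP_61a4e3_al.R.Br1

/-! The lattices of rank four and three. -/

set_option linter.unusedSectionVars false
set_option linter.unusedSimpArgs false
set_option linter.unusedVariables false

namespace Pool.Agent.Lib.MP_61a4e3_al.R

open Matrix WG Form

variable {O : Type} [CommRing O] [StarRing O] [IsDomain O] {m : ℕ} {z : O} {hz : z * star z = 1}
  {d : ℕ}

variable (H : RH z) (hd : 5 ≤ d) (hg : geom z d = 0) (hm : d ≤ m) {φ : O →+* ℂ} (hφ : Place φ)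
  {s : O} (hs : Par φ z s)
include H hd hg hm

lemma gv_one : gv m z d 0 1 = z • vec m (fv z d 1) := by
  have d3 : 3 ≤ d := by omega
  ext ⟨i, hi⟩
  simp only [gv, vec, iv, Pi.sub_apply, Pi.smul_apply, smul_eq_mul]
  by_cases c : i + 1 ≤ d
  · rw [fv_in d3 hg (by omega), fv_in d3 hg (by omega), if_pos (by omega), Nat.sub_zero,
      Nat.add_sub_cancel, geom_succ, add_sub_cancel_right]
  · rw [fv_out d3 hg (by omega), fv_out d3 hg (by omega), if_neg (by omega), mul_zero, sub_zero]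

theorem base_data (s : O) : G3 (Gam m z hz) (P3 m z hz d s) (-gv m z d 0 1) (vec m (fv z d 0))
    (gv m z d 0 2) (vec m (fv z d 0) - ev O m 1) := by
  have d3 : 3 ≤ d := by omega
  have S := C.g3_three (hz := hz) H d3 hg hd hm s
  have V := C.five (hz := hz) d3 hg hd hm
  have e := gv_one H hd hg hm
  have p : (BF m z hz).B (gv m z d 0 2) (vec m (fv z d 1)) = -1 :=
    C.B_gv_succ d3 hg (k := 0) (by omega) (by omega)
  obtain ⟨r1, r2, r3⟩ := mem_LL.1 S.fr.ρL
  refine ⟨⟨⟨by simp [e, V.gg], V.ff, by simp [e, V.gf, mul_comm, hz]⟩, ?_, S.fr.fP, S.fr.sat,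
    mem_LL.2 ⟨r1, by simp [e, V.gf, V.g1], r2⟩, S.fr.ρρ⟩, ?_, S.gh, S.g3, S.m3, S.i3,
    C.cop_of_unit ?_, C.cop_of_unit ?_⟩
  · rw [e, ← smul_neg]; exact Submodule.smul_mem _ _ S.fr.f'P
  · rw [e, ← smul_neg]; exact S.gk.smul' S.fr.hyp.f'f' z
  · rw [e, B_neg_right, B_smul_right, p]; simpa using H.unit_z
  · rw [B_fv0_gv H d3 hg hm (by omega) (by omega)]; exact H.unit_z.neg

theorem base_rank (s : O) : ∀ x ∈ LL (BF m z hz) (P3 m z hz d s) (-gv m z d 0 1) (vec m (fv z d 0)),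
    ∃ c : O, x = c • (vec m (fv z d 0) - ev O m 1) := by
  intro x hx
  have V := C.five (hz := hz) (by omega) hg hd hm
  obtain ⟨h1, h2, h3⟩ := mem_LL.1 hx
  obtain ⟨a, b, t, rfl⟩ := C.dec3 (by omega) hg hd hm h1
  rw [gv_one H hd hg hm] at h2
  simp only [B_add_right, B_smul_right, B_neg_right, B_sub_right, B_neg_left, B_smul_left, V.ff,
    V.fg, V.f1, V.gf, V.gg, V.g1] at h2 h3
  have hb : b = 0 := by linear_combination h3
  have ha : a = 0 := by linear_combination h2 - a * hz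
  exact ⟨t, by simp [ha, hb]⟩

include hφ hs

theorem sig_P4 : Sig φ (BF m z hz) (P4 m z hz d s) := C.sig_P4 (by omega) hg hd hm hs

theorem nd_P4 : Nd (BF m z hz) (P4 m z hz d s) := C.nd_P4 (by omega) hg hd hm H.one_add hs

theorem step_four : ∃ f f' h3 ρ,
    Step (Gam m z hz) (P4 m z hz d s) (c2 m z hz) f f' h3 ρ := by
  obtain ⟨h, S⟩ := C.step_four (hz := hz) H (by omega) hg hd hm hs
  exact ⟨_, _, _, _, S⟩

end Pool.Agent.Lib.MP_61a4e3_al.R
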