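import Pool.Agent.Lib.MP_61a4e3_al.R.B3
import Pool.Agent.Lib.MP_61a4e3_al.R.Br2
import Pool.Agent.Lib.MP_61a4e3_al.R.Br3
import Pool.Agent.Lib.MP_61a4e3_al.R.Br4
import Pool.Agent.Lib.MP_61a4e3_al.Level

/-! The braid image contains the level group in the range `d ≤ m ≤ 2 d - 2`. -/

set_option linter.unusedSectionVars false
set_option linter.unusedSimpArgs false
set_option linter.unusedVariables false

namespace Pool.Agent.Lib.MP_61a4e3_al.R

open Matrix WG Form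

variable {O : Type} [CommRing O] [StarRing O] [IsDomain O] [CharZero O] {m : ℕ} {z : O}
  {hz : z * star z = 1} {d : ℕ}

lemma geom_ne_lo (hn : ∀ i, geom z i = 0 → d ∣ i) (i : ℕ) (h0 : 0 < i) (h1 : i < d) :
    geom z i ≠ 0 := fun h => absurd (Nat.le_of_dvd h0 (hn i h)) (by omega)

lemma geom_ne_hi (hn : ∀ i, geom z i = 0 → d ∣ i) (i : ℕ) (h0 : d < i) (h1 : i < 2 * d) :
    geom z i ≠ 0 := fun h => by
  have h2 : d ∣ i - d := Nat.dvd_sub (hn i h) dvd_rfl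
  exact absurd (Nat.le_of_dvd (by omega) h2) (by omega)

/-- The base frame inside the whole lattice. -/
lemma fr0_top (H : RH z) (hd : 5 ≤ d) (hg : geom z d = 0) (hm : d ≤ m) :
    Fr0 (BF m z hz) ⊤ (-gv m z d 0 1) (vec m (fv z d 0)) (vec m (fv z d 0) - ev O m 1) :=
  have T3 := base_data (hz := hz) H hd hg hm 0
  ⟨T3.fr.hyp, Submodule.mem_top, Submodule.mem_top, fun _ _ _ _ => Submodule.mem_top,
    mem_LL.2 ⟨Submodule.mem_top, (mem_LL.1 T3.fr.ρL).2⟩, T3.fr.ρρ⟩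

/-- The chain up to the lattice on the first `j` coordinates. -/
theorem core_up (H : RH z) (hM : MenOK z) (hd : 5 ≤ d) (hg : geom z d = 0)
    (hn : ∀ i, geom z i = 0 → d ∣ i) (hm : d ≤ m) {φ : O →+* ℂ}
    (hφ : Place φ) (hS : SAok φ (BF m z hz)) {s : O} (hs : Par φ z s) {D : O}
    (TD : Fr (BF m z hz) ⊤ (-gv m z d 0 1) (vec m (fv z d 0)) (vec m (fv z d 0) - ev O m 1) D) :
    ∀ j, d ≤ j → j ≤ m → j + 2 ≤ 2 * d →
      P4 m z hz d s ≤ PT O m j ∧ G1 (BF m z hz) (PT O m j) ≤ Gam m z hz := by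
  have hd3 : 3 ≤ d := by omega
  have g0 := geom_ne_lo hn
  have HF : RH (BF m z hz).z := H
  have s4 : Sig φ (BF m z hz) (P4 m z hz d s) := sig_P4 H hd hg hm hφ hs
  have k3 : G1 (BF m z hz) (P3 m z hz d s) ≤ Gam m z hz :=
    base3 HF hM TD (base_data (hz := hz) H hd hg hm s) (base_rank H hd hg hm s)
  have k4 : G1 (BF m z hz) (P4 m z hz d s) ≤ Gam m z hz := by
    obtain ⟨f, f', h3, ρ, T⟩ := step_four (hz := hz) H hd hg hm hφ hs
    exact peel HF hφ hS T s4 k3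
  have low : ∀ j, 5 ≤ j → j ≤ d →
      P4 m z hz d s ≤ PLo m z hz d j ∧ G1 (BF m z hz) (PLo m z hz d j) ≤ Gam m z hz := by
    intro j hj
    induction j, hj using Nat.le_induction with
    | base =>
      intro _
      obtain ⟨f, f', h3, ρ, T⟩ := step_five (hz := hz) H hd hg g0 hm hs.un
      exact ⟨inf_le_left, peel HF hφ hS T (s4.mono inf_le_left) k4⟩
    | succ j hj ih =>
      intro hjd
      obtain ⟨i1, i2⟩ := ih (by omega)
      obtain ⟨f, f', h3, ρ, T⟩ := step_low (hz := hz) H hd hg g0 hm hj (by omega : j < d)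
      rw [← PLo_inf (by omega : j < d)] at i1 i2
      have i3 := i1.trans inf_le_left
      exact ⟨i3, peel HF hφ hS T (s4.mono i3) i2⟩
  intro j hj
  induction j, hj using Nat.le_induction with
  | base =>
    intro _ _
    have := low d hd le_rfl
    rwa [PLo_top] at this
  | succ j hj ih =>
    intro hjm hj2
    obtain ⟨i1, i2⟩ := ih (by omega) (by omega)
    obtain ⟨f, f', h3, ρ, T⟩ :=
      step_top (hz := hz) H hd3 hg hj hjm (geom_ne_hi hn _ (by omega) (by omega))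
    rw [← PT_inf hjm] at i1 i2
    have i3 := i1.trans inf_le_left
    exact ⟨i3, peel HF hφ hS T (s4.mono i3) i2⟩

theorem core1 (H : RH z) (hM : MenOK z) (hd : 5 ≤ d) (hg : geom z d = 0)
    (hn : ∀ i, geom z i = 0 → d ∣ i) (hm : d ≤ m) (hm' : m + 2 ≤ 2 * d) {φ : O →+* ℂ}
    (hφ : Place φ) (hS : SAok φ (BF m z hz)) {s : O} (hs : Par φ z s) :
    G1 (BF m z hz) ⊤ ≤ Gam m z hz := by
  have nT : Nd (BF m z hz) ⊤ := by
    rw [← PT_top]; exact nd_PT le_rfl (geom_ne_hi hn _ (by omega) (by omega))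
  obtain ⟨D, TD⟩ := exists_Fr (P := ⊤) hφ hS (fr0_top H hd hg hm) nT
    ((sig_P4 H hd hg hm hφ hs).mono le_top)
  have := (core_up H hM hd hg hn hm hφ hS hs TD m hm le_rfl hm').2
  rwa [PT_top] at this

theorem levOK_of (H : RH z) (hd : 3 ≤ d) (hg : geom z d = 0) (hm : 0 < m)
    (h : G1 (BF m z hz) ⊤ ≤ Gam m z hz) : LevOK m z hz := by
  intro g hl hdet
  obtain ⟨X, hX⟩ := exists_smul_mat hl
  obtain ⟨u, hh, Y, hY⟩ := sym_mem_LT (hz := hz) H (symm_lev (F := BF m z hz) H hX)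
  have l2 : u⁻¹ * g ∈ lev _ ((1 - z) ^ 2) := by
    intro i j
    rw [inv_mul_W, hX, hY]
    refine dvd_mat_mul (fun i j => ?_) _ i j
    rw [BF_z, sub_add_cancel_left]
    exact (dvd_smul_mat dvd_rfl _ _ _).neg_right
  obtain ⟨k, hk⟩ := hdet
  obtain ⟨l, hl⟩ := det_mem_of_Gam H hd hg (inv_mem hh)
  have hj : 1 ≤ 1 ∧ 1 ≤ m := by omega
  obtain ⟨c, c1, c2⟩ := rt_pow (root_ev (z := z) (hz := hz) hj) (l + k)
  have d1 : (act (u⁻¹ * g)).det = (-z) ^ (l + k) := by rw [map_mul, det_mul, hk, hl, pow_add]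
  have d2 := det_lev_sq (F := BF m z hz) H l2
  rw [d1] at d2
  have l3 : rt (root_ev (z := z) (hz := hz) hj) ^ (l + k) ∈ lev _ ((1 - z) ^ 2) := by
    intro i j
    rw [c1]
    exact dvd_smul_mat (H.sq_dvd_of_cube (by rw [BF_z] at c2 d2; rwa [c2])) _ _ _
  have l4 := mul_mem (inv_mem l3) l2
  have : (rt (root_ev (z := z) (hz := hz) hj) ^ (l + k))⁻¹ * (u⁻¹ * g) ∈ Gam m z hz :=
    h ⟨⟨fun _ => Submodule.mem_top, fun i j => (dvd_pow_self _ two_ne_zero).trans (l4 i j)⟩,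
      det_inv_mul (by rw [d1, map_pow, det_pow, det_rt, BF_z])⟩
  simpa using mul_mem hh (mul_mem (pow_mem (sg_mem hj) (l + k)) this)

end Pool.Agent.Lib.MP_61a4e3_al.R
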