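import Pool.Agent.Lib.MP_61a4e3_al.R.Defs

/-! Strong approximation passes to a lattice with a split radical vector. -/

set_option linter.unusedSectionVars false
set_option linter.unusedVariables false

namespace Pool.Agent.Lib.MP_61a4e3_al.R

open Matrix WG Form

variable {O : Type} [CommRing O] [StarRing O] {ι : Type} [Fintype ι] [DecidableEq ι]
  {F : Form O ι}

lemma act_rad {R : ι → O} (hR : F.A *ᵥ R = 0) (g : WG F) : act g *ᵥ R = R := by
  rw [act_mulVec, hR, mulVec_zero, sub_zero]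

theorem SA.rad {L : Submodule O (ι → O)} {R r : ι → O} {D : O} (hR : F.A *ᵥ R = 0)
    (RL : R ∈ L) (r1 : r ⬝ᵥ R = 1) (h : SA F (L ⊓ kerv r) D) : SA F L D := by
  have hz := F.hz
  have bR : ∀ x, F.B x R = 0 := fun x => by rw [Form.B, hR, dotProduct_zero]
  have Rb : ∀ x, F.B R x = 0 := fun x => F.B_eq_zero_swap (bR x)
  have pr : ∀ x ∈ L, x - (r ⬝ᵥ x) • R ∈ L ⊓ kerv r := fun x hx =>
    ⟨L.sub_mem hx (L.smul_mem _ RL), by
      rw [SetLike.mem_coe, mem_kerv, dotProduct_sub, dotProduct_smul, r1]; simp⟩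
  have um : ∀ a x, Um F L a x → Um F (L ⊓ kerv r) a (x - (r ⬝ᵥ x) • R) := by
    rintro a x ⟨y, hy, hc⟩
    exact ⟨_, pr y hy, by simpa [bR, Rb] using hc⟩
  intro a n x x' n0 ha hD hn hx hx' hd hu hu'
  obtain ⟨t, ht⟩ : n ∣ r ⬝ᵥ x' - r ⬝ᵥ x := by
    rw [← dotProduct_sub]; exact hd.dot r
  obtain ⟨g, ⟨gs, gl⟩, hg⟩ := h a n _ _ n0 ha hD hn (pr x hx) (pr x' hx') (by
    have : x' - (r ⬝ᵥ x') • R - (x - (r ⬝ᵥ x) • R) = (x' - x) - (r ⬝ᵥ x' - r ⬝ᵥ x) • R := by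
      module
    rw [this]; exact hd.sub (Dv.smul_of_dvd ⟨t, ht⟩ R)) (um a x hu) (um a x' hu')
  have gs' : g ∈ sup F L := sup_mono inf_le_left gs
  obtain ⟨y, hy, hc⟩ := hu
  obtain ⟨u, v, huv⟩ := hc.symm.mul_right hn.of_mul_right_right
  set y' := ((n * star n) * star (F.z * v * t)) • (act g *ᵥ y) with hy'
  have e : F.IsE R y' (F.qf y' + 0) := isE_qf (bR R) (Rb _) (by simp)
  refine ⟨mkE e * g, ⟨mul_mem (mkE_mem_sup e RL (L.smul_mem _ (act_mem gs' hy))) gs',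
    mul_mem ?_ gl⟩, ?_⟩
  · intro i j
    simp only [mkE_W, eW, ou, Matrix.add_apply, Matrix.sub_apply, Matrix.smul_apply,
      vecMulVec_apply, smul_eq_mul, Pi.star_apply, hy', Pi.smul_apply, qf_smul, add_zero,
      star_mul, star_star]
    refine dvd_add (dvd_sub ?_ ?_) ?_
    · refine Dvd.dvd.mul_right (Dvd.dvd.mul_right ?_ _) _
      exact (dvd_mul_right _ _).mul_right _
    · refine Dvd.dvd.mul_left (Dvd.dvd.mul_left (Dvd.dvd.mul_left ?_ _) _) _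
      exact Dvd.dvd.mul_left (dvd_mul_right _ _) _
    · refine Dvd.dvd.mul_right (Dvd.dvd.mul_right (Dvd.dvd.mul_right ?_ _) _) _
      exact (dvd_mul_right _ _).mul_right _
  · rw [act_mul_mulVec, act_mkE, Rb, hy', B_smul_left, B_act]
    rw [mulVec_sub, mulVec_smul, act_rad hR] at hg
    have := hg.sub (Dv.smul_of_dvd (q := a * n) (c := a * n * (u * t)) (dvd_mul_right _ _) R)
    convert this using 1
    simp only [star_mul, star_star]
    have e1 : star F.z * (F.z * v * t * (n * star n) * F.B y x) =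
        r ⬝ᵥ x' - r ⬝ᵥ x - a * n * (u * t) := by
      linear_combination (v * t * n * star n * F.B y x) * hz + n * t * huv - ht
    rw [e1]; module

/-- Strong approximation for the complement of a pair in a lattice with a split radical vector. -/
theorem SA.rad_pair {P : Submodule O (ι → O)} {R r h k : ι → O} (hR : F.A *ᵥ R = 0) (RP : R ∈ P)
    (r1 : r ⬝ᵥ R = 1) (T : Hyp F h k) (hP : h ∈ P) (kP : k ∈ P)
    (H0 : ∀ h0 k0, Hyp F h0 k0 → h0 ∈ P ⊓ kerv r → k0 ∈ P ⊓ kerv r →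
      ∃ D, D ≠ 0 ∧ star D = D ∧ SA F (LL F (P ⊓ kerv r) h0 k0) D) :
    ∃ D, D ≠ 0 ∧ star D = D ∧ SA F (LL F P h k) D := by
  have bR : ∀ x, F.B x R = 0 := fun x => by rw [Form.B, hR, dotProduct_zero]
  have Rb : ∀ x, F.B R x = 0 := fun x => F.B_eq_zero_swap (bR x)
  have pr : ∀ x ∈ P, x - (r ⬝ᵥ x) • R ∈ P ⊓ kerv r := fun x hx =>
    ⟨P.sub_mem hx (P.smul_mem _ RP), by
      rw [SetLike.mem_coe, mem_kerv, dotProduct_sub, dotProduct_smul, r1]; simp⟩
  obtain ⟨D, D0, Dr, sa⟩ := H0 _ _ ⟨by simpa [bR, Rb] using T.ff, by simpa [bR, Rb] using T.f'f',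
    by simpa [bR, Rb] using T.ff'⟩ (pr h hP) (pr k kP)
  refine ⟨D, D0, Dr, SA.rad hR (mem_LL.2 ⟨RP, bR _, bR _⟩) r1 ?_⟩
  convert sa using 1
  ext x
  simp only [Submodule.mem_inf, mem_LL, B_sub_left, B_smul_left, Rb, mul_zero, sub_zero]
  tauto

/-- For `d ∣ m + 1` the braid lattice has a split radical vector. -/
lemma braid_rad {m : ℕ} {z : O} {hz : z * star z = 1} (hg : geom z (m + 1) = 0) (hm : 1 ≤ m) :
    (BF m z hz).A *ᵥ vec m (geom z) = 0 ∧ (-z • ev O m m) ⬝ᵥ vec m (geom z) = 1 := by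
  refine ⟨by rw [A_geom, hg, zero_smul], ?_⟩
  rw [smul_dotProduct, ev_dot _ _ (Or.inl ⟨hm, le_rfl⟩), smul_eq_mul]
  rw [geom_succ] at hg
  linear_combination -hg

end Pool.Agent.Lib.MP_61a4e3_al.R
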