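import Pool.Agent.Lib.MP_61a4e3_al.R.Core1
import Pool.Agent.Lib.MP_61a4e3_al.R.Rad

/-! The braid image contains the level group for `m + 1 = 2 d`. -/

set_option linter.unusedSectionVars false
set_option linter.unusedSimpArgs false
set_option linter.unusedVariables false

namespace Pool.Agent.Lib.MP_61a4e3_al.R

open Matrix WG Form

variable {O : Type} [CommRing O] [StarRing O] [IsDomain O] [CharZero O] {m : ℕ} {z : O}
  {hz : z * star z = 1} {d : ℕ}

open C in
/-- The top step of the chain without nondegeneracy. -/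
lemma co2_top (H : RH z) (hd : 3 ≤ d) (hg : geom z d = 0) {k : ℕ} (hk : k + d ≤ m) :
    G3 (Gam m z hz) (PT O m (k + d)) (vec m (fv z d (k + 1)))
      (-star z • vec m (fv z d k)) (gv m z d k (k + 2)) (ev O m (k + 2)) ∧
    IsUnit (ev O m (k + d) ⬝ᵥ vec m (fv z d (k + 1))) := by
  have r : 1 ≤ k + 2 ∧ k + 2 ≤ m := by omega
  have o1 : (BF m z hz).B (vec m (fv z d (k + 1))) (ev O m (k + 2)) = 0 := B_eq_zero_swap _ (by
    rw [B_ev_fv hd hg r (by omega), if_neg (by omega), if_neg (by omega), sub_zero])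
  have o2 : (BF m z hz).B (vec m (fv z d k)) (ev O m (k + 2)) = 0 := B_eq_zero_swap _ (by
    rw [B_ev_fv hd hg r (by omega), if_neg (by omega), if_neg (by omega), sub_zero])
  refine ⟨⟨⟨⟨fv_iso' hd hg (by omega),
    by simp [fv_iso' (hz := hz) hd hg (show k + d ≤ m + 1 by omega)], ?_⟩,
    fv_mem_PT hd hg (by omega), Submodule.smul_mem _ _ (fv_mem_PT hd hg (by omega)),
    C.sat_PT _, mem_LL.2 ⟨ev_mem_PT (by omega), o1, by simp [o2]⟩, root_ev r⟩,
    good_fv' H hd hg (by omega) (by omega),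
    (good_fv' H hd hg (by omega) (by omega)).smul' (fv_iso' hd hg (by omega)) _,
    C.good_gv H hd hg (by omega) (by omega) hk, gv_mem_PT hd hg le_rfl,
    C.gv_iso hd hg (by omega) (by omega) hk, cop_of_unit ?_, cop_of_unit ?_⟩, ?_⟩
  · rw [B_smul_right, B_succ_fv hd hg hk]; linear_combination hz
  · rw [B_gv_succ hd hg (by omega) hk]; exact isUnit_one.neg
  · rw [B_smul_left, B_swap, B_gv_fv hd hg (by omega) (by omega) hk]
    simpa using H.unit_z
  · rw [ev_dot _ _ (Or.inl ⟨by omega, hk⟩), fv_in hd hg (by omega),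
      show k + d - (k + 1) = d - 1 by omega]
    exact IsUnit.of_mul_eq_one (-z) (by linear_combination -geom_pred hd hg)

theorem core2 (H : RH z) (hM : MenOK z) (hd : 5 ≤ d) (hg : geom z d = 0)
    (hn : ∀ i, geom z i = 0 → d ∣ i) (hm : d ≤ m) (hm2 : m + 1 = 2 * d) {φ : O →+* ℂ}
    (hφ : Place φ) (hS : SAok φ (BF m z hz)) {s : O} (hs : Par φ z s) :
    G1 (BF m z hz) ⊤ ≤ Gam m z hz := by
  have hd3 : 3 ≤ d := by omega
  have HF : RH (BF m z hz).z := H
  obtain ⟨k, hk⟩ : ∃ k, m = k + d := ⟨m - d, by omega⟩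
  obtain ⟨j, hj⟩ : ∃ j, m = j + 1 := ⟨m - 1, by omega⟩
  have g2 : geom z (m + 1) = 0 := by rw [hm2, two_mul, C.geom_add hd3 hg, hg]
  obtain ⟨hR, r1⟩ := braid_rad (hz := hz) g2 (by omega)
  have e0 : (⊤ : Submodule O (Fin m → O)) ⊓ kerv (ev O m m) = PT O m j := by
    rw [← PT_inf (O := O) hj.ge, ← hj, PT_top]
  have e1 : (⊤ : Submodule O (Fin m → O)) ⊓ kerv (-z • ev O m m) = PT O m j := by
    rw [← e0]
    ext x
    simp only [Submodule.mem_inf, mem_kerv, smul_dotProduct, smul_eq_mul, mul_eq_zero, neg_eq_zero,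
      H.unit_z.ne_zero, false_or]
  have nd : Nd (BF m z hz) (PT O m j) :=
    nd_PT (by omega) (geom_ne_hi hn _ (by omega) (by omega))
  have sg : Sig φ (BF m z hz) (PT O m j) := (sig_P4 H hd hg hm hφ hs).mono
    (inf_le_left.trans (inf_le_left.trans (C.PT_mono (by omega))))
  have fr : ∀ {f f' ρ}, Fr0 (BF m z hz) ⊤ f f' ρ → ∃ D, Fr (BF m z hz) ⊤ f f' ρ D := by
    intro f f' ρ T
    obtain ⟨D, h0, h1, h2⟩ := SA.rad_pair hR Submodule.mem_top r1 T.hyp T.fP T.f'P
      fun h0 k0 Y a b => by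
        rw [e1] at a b ⊢
        exact hS _ (nd.ll Y a b) (sg.ll hφ Y a b (Or.inl rfl)) (sg.ll hφ Y a b (Or.inr rfl))
    exact ⟨D, T, h0, h1, h2⟩
  obtain ⟨D, TD⟩ := fr (fr0_top (hz := hz) H hd hg hm)
  have up := (core_up H hM hd hg hn hm hφ hS hs TD j (by omega) (by omega) (by omega)).2
  obtain ⟨T, rh⟩ := co2_top (m := m) (hz := hz) H hd3 hg hk.ge
  rw [← hk] at T rh
  rw [PT_top] at T
  obtain ⟨D', TD'⟩ := fr T.fr
  exact peel_Fr HF T rh TD' (e0 ▸ up)

end Pool.Agent.Lib.MP_61a4e3_al.R
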