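import Pool.Agent.Lib.MP_61a4e3_al.R.Defs
import Pool.Agent.Lib.MP_61a4e3_al.Disc

/-! Consequences of the level property, first part. -/

set_option linter.unusedSectionVars false
set_option linter.unusedSimpArgs false
set_option linter.unusedVariables false
set_option maxHeartbeats 800000

namespace Pool.Agent.Lib.MP_61a4e3_al.R

open Matrix WG Form

variable {O : Type} [CommRing O] [StarRing O] [IsDomain O] {m : ℕ} {z : O} {hz : z * star z = 1}
  {d : ℕ}

variable (H : RH z) (hd : 3 ≤ d) (hg : geom z d = 0) (hL : LevOK m z hz) (hm : d ≤ m)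

include H hd hg hL in
theorem abstract_main' (g : Matrix (Fin m) (Fin m) O) :
    (∃ γ ∈ Gam m z hz, act γ = g) ↔ gᴴ * (BF m z hz).A * g = (BF m z hz).A ∧
      (∃ W s, g = 1 - W * (BF m z hz).A ∧ ∀ i j, (1 - z) ∣ W i j - WP O s i j) ∧
      ∃ k : ℕ, g.det = (-z) ^ k := by
  constructor
  · rintro ⟨γ, hγ, rfl⟩
    obtain ⟨s, hs⟩ := Gam_le_PL H hγ
    exact ⟨WG.unitary γ, ⟨γ.W, s, rfl, map_rd_iff.1 hs⟩, det_mem_of_Gam H hd hg hγ⟩
  · rintro ⟨hu, ⟨W, s, hW, hs⟩, k, hk⟩
    obtain ⟨h, hh, hs'⟩ := exists_perm (hz := hz) H s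
    obtain ⟨l, hl⟩ := det_mem_of_Gam H hd hg (inv_mem hh)
    have e : act h⁻¹ * g = 1 - act h⁻¹ * (W - h.W) * (BF m z hz).A := by
      have h0 : act h⁻¹ * act h = 1 := by rw [← map_mul, inv_mul_cancel, map_one]
      rw [← h0, act_apply h, hW]
      simp only [Matrix.mul_sub, Matrix.sub_mul, Matrix.mul_assoc, Matrix.mul_one]
      abel
    have hdet : (act h⁻¹ * g).det = (-z) ^ (l + k) := by rw [det_mul, hk, hl, pow_add]
    obtain ⟨γ, hγ, hact⟩ := exists_lift (hz := hz) H.pi_dvd_star (W := act h⁻¹ * (W - h.W))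
      (dvd_mat_mul (fun i j => by
        have := dvd_sub (hs i j) (map_rd_iff.1 hs' i j)
        rwa [sub_sub_sub_cancel_right] at this) _)
      (by
        rw [← e, conjTranspose_mul, Matrix.mul_assoc, Matrix.mul_assoc, ← Matrix.mul_assoc _ _ g,
          ← Matrix.mul_assoc _ _ g, ← Matrix.mul_assoc _ _ (act h⁻¹), WG.unitary, ← Matrix.mul_assoc,
          hu])
      (by rw [← e, hdet]; exact pow_ne_zero _ (neg_ne_zero.2 H.unit_z.ne_zero))
    rw [← e] at hact
    refine ⟨h * γ, mul_mem hh (hL _ hγ ⟨l + k, by rw [hact, hdet]⟩), ?_⟩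
    rw [map_mul, hact, ← Matrix.mul_assoc, ← map_mul, mul_inv_cancel, map_one, Matrix.one_mul]

include H in
theorem index_fwd (hm : 0 < m) (h : (GO m z hz).relIndex (UO (BF m z hz).A) ≠ 0) :
    geom z (m + 1) ≠ 0 ∨ Finite Oˣ := by
  refine or_iff_not_imp_left.2 fun hn => ?_
  rw [not_not] at hn
  have Af : (BF m z hz).A *ᵥ vec m (geom z) = 0 := by rw [A_geom, hn, zero_smul]
  have ef := ev_one_geom (z := z) hm
  set f := vec m (geom z)
  set e := ev O m 1
  have oo : ou f e * ou f e = ou f e := by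
    rw [ou, vecMulVec_mul_vecMulVec, star_ev, ef, one_smul]
  have mu : ∀ a b : O, (1 + (a - 1) • ou f e) * (1 + (b - 1) • ou f e) =
      1 + (a * b - 1) • ou f e := by
    intro a b
    simp only [Matrix.add_mul, Matrix.mul_add, Matrix.smul_mul, Matrix.mul_smul, oo,
      Matrix.one_mul, Matrix.mul_one]
    module
  have Ao : (BF m z hz).A * ou f e = 0 := by rw [ou, mul_vecMulVec, Af, zero_vecMulVec]
  have oA : ou e f * (BF m z hz).A = 0 := by
    have := congrArg (fun N => z • Nᴴ) Ao
    simpa [A_ct, ou_ct, smul_smul, hz] using this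
  let g : Oˣ → UO (BF m z hz).A := fun u =>
    ⟨⟨1 + (u.val - 1) • ou f e, 1 + ((u⁻¹).val - 1) • ou f e, by simp [mu], by simp [mu]⟩, by
      change (1 + (u.val - 1) • ou f e)ᴴ * _ * (1 + (u.val - 1) • ou f e) = _
      simp [Matrix.add_mul, Matrix.mul_add, ou_ct, oA, Ao]⟩
  have : ((GO m z hz).subgroupOf (UO (BF m z hz).A)).FiniteIndex := ⟨h⟩
  refine Finite.of_injective (fun u => (QuotientGroup.mk (g u) :
    _ ⧸ (GO m z hz).subgroupOf (UO (BF m z hz).A))) fun u v huv => ?_
  obtain ⟨γ, -, hγ⟩ := mem_GO.1 (Subgroup.mem_subgroupOf.1 (QuotientGroup.eq.1 huv))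
  have h1 : act γ = 1 + ((u⁻¹).val * v.val - 1) • ou f e := hγ.trans (mu _ _)
  have h3 := act_mulVec γ f
  rw [Af, mulVec_zero, sub_zero, h1, add_mulVec, one_mulVec, smul_mulVec, ou_mulVec, star_ev, ef,
    one_smul] at h3
  have h4 := congrArg (e ⬝ᵥ ·) h3
  simp only [dotProduct_add, dotProduct_smul, ef, smul_eq_mul, mul_one, add_eq_left,
    sub_eq_zero] at h4
  exact inv_mul_eq_one.1 (Units.ext h4)

include H hd hg hL hm in
theorem exists_level' (h2 : ¬ IsUnit (2 : O)) (h0 : (2 : O) ≠ 0)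
    (hf : {x : O | x * star x = 1}.Finite) (h : geom z (m + 1) ≠ 0 ∨ Finite Oˣ) :
    ∃ q ≠ (0 : O), ∀ g ∈ UO (BF m z hz).A, (∀ i j, q ∣ (1 - g.val) i j) → g ∈ GO m z hz := by
  obtain ⟨S, S1, S2, S3⟩ : ∃ S : Set O, S.Finite ∧ (∀ g ∈ UO (BF m z hz).A, g.val.det ∈ S) ∧
      (geom z (m + 1) = 0 → ∀ u, IsUnit u → u ∈ S) := by
    rcases h with h | h
    · refine ⟨_, hf, fun g hg => mul_left_cancel₀ (det_A_ne (hz := hz) h) ?_, fun e => absurd e h⟩
      have := congrArg det (show g.valᴴ * (BF m z hz).A * g.val = _ from hg)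
      rw [det_mul, det_mul, det_conjTranspose] at this
      linear_combination this
    · exact ⟨_, Set.finite_range (Units.val : Oˣ → O), fun g _ => g.isUnit.map detMonoidHom,
        fun _ u hu => hu⟩
  obtain ⟨q, q0, hq⟩ := exists_sep_finite h2 h0 S1
  obtain ⟨N, N0, hN⟩ := exists_solve (z := z) (hz := hz) (show 0 < m by omega)
  have ne := mul_ne_zero (mul_ne_zero q0 H.one_sub) N0
  refine ⟨_, ne, fun g gU hg' => ?_⟩
  obtain ⟨T, hT⟩ := exists_smul_mat hg'
  have e : g.val = 1 + q • (-((1 - z) * N) • T) := by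
    rw [smul_smul, mul_neg, ← mul_assoc, neg_smul, ← hT]; abel
  obtain ⟨W, hW⟩ := hN T fun hn => by
    obtain ⟨a, ha⟩ := U_geom hn gU
    obtain ⟨b, hb⟩ := U_geom hn (inv_mem gU)
    have ef := ev_one_geom (z := z) (show 0 < m by omega)
    have h1 := congrArg (fun x => ev O m 1 ⬝ᵥ ((g⁻¹).val *ᵥ x)) ha
    simp only [mulVec_mulVec, Units.inv_mul, one_mulVec, mulVec_smul, hb, dotProduct_smul, ef,
      smul_eq_mul, mul_one] at h1
    have h3 := congrArg (· *ᵥ vec m (geom z)) hT
    simp only [sub_mulVec, one_mulVec, ha, smul_mulVec] at h3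
    have h4 := congrArg (ev O m 1 ⬝ᵥ ·) h3
    simp only [dotProduct_sub, dotProduct_smul, ef, smul_eq_mul, mul_one, mul_assoc] at h4
    rw [hq a (S3 hn a (IsUnit.of_mul_eq_one b h1.symm)) ⟨_, h4⟩, one_smul, sub_self] at h3
    exact (smul_eq_zero.1 h3.symm).resolve_left ne
  refine mem_GO.2 ((abstract_main' H hd hg hL _).2 ⟨gU, ⟨(q * (1 - z)) • W, 1, ?_, fun i j => ?_⟩,
    0, (hq _ (S2 g gU) ?_).trans (pow_zero _).symm⟩)
  · rw [Matrix.smul_mul, hW, smul_smul, ← hT, sub_sub_cancel]
  · rw [WP_one, Matrix.zero_apply, sub_zero]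
    exact dvd_smul_mat (dvd_mul_left _ _) _ _ _
  · rw [e, det_one_add_smul, add_assoc, sub_add_cancel_left]
    exact (dvd_add (dvd_mul_left _ _) ((dvd_pow_self q two_ne_zero).mul_left _)).neg_right

include H hd hg hL hm in
theorem index_bwd (h2 : ¬ IsUnit (2 : O)) (h0 : (2 : O) ≠ 0)
    (hf : {x : O | x * star x = 1}.Finite) (h : geom z (m + 1) ≠ 0) :
    (GO m z hz).relIndex (UO (BF m z hz).A) ≠ 0 := by
  obtain ⟨q, q0, hq⟩ := exists_level' (hz := hz) H hd hg hL hm h2 h0 hf (Or.inl h)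
  have := H.fin q q0
  let r := (GeneralLinearGroup.map (n := Fin m) (Ideal.Quotient.mk (Ideal.span {q}))).ker
  have : (r.subgroupOf (UO (BF m z hz).A)).FiniteIndex := inferInstance
  refine (Subgroup.finiteIndex_of_le (H := r.subgroupOf (UO (BF m z hz).A))
    fun g hg' => hq _ g.2 fun i j => ?_).index_ne_zero
  have := congrArg (fun x : GL (Fin m) _ => x.val i j) (Subgroup.mem_subgroupOf.1 hg')
  simp only [GeneralLinearGroup.map_apply, Units.val_one] at this
  rw [← Ideal.mem_span_singleton, Matrix.sub_apply, ← Ideal.Quotient.eq, this]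
  simp only [Matrix.one_apply]
  split_ifs <;> simp

include H hd hg hm in
lemma chi_ne' (T : Tri z) (hn : geom z (m + 1) ≠ 0) (u : O) :
    (∃ g ∈ UO (BF m z hz).A, geom z (m + 1) ∣ ev O m 1 ⬝ᵥ g.val *ᵥ vec m (geom z) - u) ↔
      geom z (m + 1) ∣ u * star u - 1 := by
  have hm0 : 0 < m := by omega
  have hN := geom_succ (z := z) m
  have h3 := B_geom (hz := hz) (m := m) (vec m (geom z))
  rw [ev_dot _ _ (Or.inl ⟨hm0, le_rfl⟩)] at h3
  have h4 := (BF m z hz).B_swap (vec m (geom z)) (vec m (geom z))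
  rw [h3, star_mul, star_star, BF_z] at h4
  set N := geom z (m + 1) with hN'
  set b := geom z m with hb'
  have sN : star N = N * (star N - star b) := by linear_combination h4 - star N * hN
  have stab : ∀ u v : O, N ∣ u - v → N ∣ v * star v - 1 → N ∣ u * star u - 1 := by
    rintro u v ⟨s, hs⟩ ⟨t, ht⟩
    have := congrArg star hs
    rw [star_sub, star_mul] at this
    exact ⟨t + s * star u + v * star s * (star N - star b), by
      linear_combination ht + star u * hs + v * this + v * star s * sN⟩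
  refine ⟨?_, fun hu => ?_⟩
  · rintro ⟨g, gU, h⟩
    exact stab _ _ (by simpa using h.neg_right) (chi_le hm0 hn gU rfl)
  by_cases b0 : b = 0
  · exact ⟨1, one_mem _, by rw [hN, b0]; simp⟩
  have hm1 : d + 1 ≤ m := hm.lt_of_ne fun e => b0 (by rw [hb', ← e, hg])
  set u' := N - z * b * u with hu'
  have d1 : N ∣ u' - u := ⟨1 - u, by rw [hu']; linear_combination u * hN⟩
  obtain ⟨t, ht⟩ := stab _ _ d1 hu
  have sb : star b = b * (z * star N - z * star b) := by linear_combination h4 - star b * hN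
  have d2 : u' - 1 = b * (z * (1 - u)) := by rw [hu']; linear_combination hN
  set β := z * star N - z * star b with hβ
  have ht' := congrArg star ht
  have d2' := congrArg star d2
  have hN2 := congrArg star hN
  simp only [star_mul, star_sub, star_add, star_star, star_one] at ht' d2' hN2
  obtain ⟨s, hs⟩ : ∃ s, u' * star u' - 1 = b * star N * s :=
    ⟨z * (1 - u) * star u' + β * (1 - star u) * star z - star t * star z * β, by
      linear_combination star N * star u' * d2 + star N * d2' +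
        (star N * (1 - star u) * star z - star z * (u' * star u' - 1)) * sb -
        star z * β * b * ht' - (u' * star u' - 1) * hN2⟩
  obtain ⟨a, ha, rfl⟩ := zherm H (r := s) (by
    have := congrArg star hs
    simp only [star_mul, star_sub, star_star, star_one] at this
    exact mul_left_cancel₀ (mul_ne_zero b0 (star_ne_zero.2 hn)) (by
      linear_combination this - hs + star s * h4))
  have ef : ev O m m ⬝ᵥ (-z • vec m (fv z d (0 + 1))) = 0 := by
    rw [dotProduct_smul, ev_dot _ _ (Or.inl ⟨hm0, le_rfl⟩), fv_out hd hg (by omega), smul_zero]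
  have ef' : ev O m m ⬝ᵥ vec m (fv z d 0) = 0 := by
    rw [ev_dot _ _ (Or.inl ⟨hm0, le_rfl⟩), fv_out hd hg (by omega)]
  have ff' := plane_fv (hz := hz) (m := m) H hd hg (j := 0) (by omega)
  have f'f' := fv_iso (hz := hz) (m := m) H hd hg (j := 0) (by omega)
  have ff : (BF m z hz).B (-z • vec m (fv z d (0 + 1))) (-z • vec m (fv z d (0 + 1))) = 0 := by
    simp [fv_iso (hz := hz) H hd hg (show 1 + d ≤ m + 1 by omega)]
  have f'f := (BF m z hz).B_eq_one_swap ff'
  generalize -z • vec m (fv z d (0 + 1)) = f at *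
  generalize vec m (fv z d 0) = f' at *
  have fw : (BF m z hz).B f (vec m (geom z)) = 0 := by rw [B_geom, ef]; simp
  have f'w : (BF m z hz).B f' (vec m (geom z)) = 0 := by rw [B_geom, ef']; simp
  have wf := B_eq_zero_swap _ fw
  have wf' := B_eq_zero_swap _ f'w
  have ew : vec m (geom z) + b • ((z * (1 - u)) • vec m (geom z) + (N * β) • (f - a • f')) =
      u' • vec m (geom z) + (N * star b) • (f - a • f') := by
    rw [sb, show u' = 1 + b * (z * (1 - u)) by linear_combination d2]; module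
  obtain ⟨h, ⟨a1, a2, e1⟩, h', ⟨a3, a4, e2⟩, hh, h'h', hh'⟩ := hyp H T (F := BF m z hz) rfl
    (v := vec m (geom z) - (z * star u') • f') (w := f + (a * z) • f')
    (by simpa [h3, wf', f'w, f'f'] using ⟨hn, b0⟩) (by
      simp only [B_add_left, B_add_right, B_sub_left, B_sub_right, B_smul_left, B_smul_right, h3,
        wf, wf', fw, f'w, ff, f'f', ff', f'f, BF_z, star_mul, star_star, ha, star_sub, star_add,
        mul_zero, star_zero, star_one]
      linear_combination a * (1 + z) * h4 - z * hs +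
        (N * star b * a - z * u' * star u' * (z * star z + 1)) * hz)
  have o1 : (BF m z hz).B (u' • vec m (geom z) + (N * star b) • (f - a • f'))
      (vec m (geom z) - (z * star u') • f') = 0 := by
    simp only [B_add_left, B_add_right, B_sub_left, B_sub_right, B_smul_left, B_smul_right, h3,
      wf, wf', fw, f'w, ff, f'f', ff', f'f, BF_z, star_mul, star_star, ha]
    linear_combination star u' * h4
  have o2 : (BF m z hz).B (u' • vec m (geom z) + (N * star b) • (f - a • f'))
      (f + (a * z) • f') = 0 := by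
    simp only [B_add_left, B_add_right, B_sub_left, B_sub_right, B_smul_left, B_smul_right, h3,
      wf, wf', fw, f'w, ff, f'f', ff', f'f, BF_z, star_mul, star_star, ha]
    ring
  obtain ⟨g, gU, gw⟩ := exists_isom (F := BF m z hz) b0 B_geom (ev_dot _ _ (Or.inl ⟨hm0, le_rfl⟩))
    ef ef' ff f'f' ff' hh h'h' hh'
    (y := (z * (1 - u)) • vec m (geom z) + (N * β) • (f - a • f')) (by
      rw [ew]
      simp only [B_add_left, B_add_right, B_sub_left, B_sub_right, B_smul_left, B_smul_right, h3,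
        wf, wf', fw, f'w, ff, f'f', ff', f'f, BF_z, star_mul, star_star, ha]
      linear_combination N * star b * hs)
    (by rw [ew, e1, B_add_right, B_smul_right, B_smul_right, o1, o2]; ring)
    (by rw [ew, e2, B_add_right, B_smul_right, B_smul_right, o1, o2]; ring)
    (fun x h1 h2 h3 => by rw [ew, e1, e2]; simp [h1, h2, h3])
  have gu : IsUnit g := (isUnit_iff_isUnit_det g).2 (IsUnit.of_mul_eq_one (star g.det) (by
    have := congrArg det gU
    rw [det_mul, det_mul, det_conjTranspose] at this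
    exact mul_left_cancel₀ (det_A_ne (hz := hz) hn) (by linear_combination this)))
  refine ⟨gu.unit, gU, ?_⟩
  rw [IsUnit.unit_spec, gw, ew, dotProduct_add, dotProduct_smul, dotProduct_smul, ev_one_geom hm0]
  convert dvd_add d1 (dvd_mul_right N (star b * (ev O m 1 ⬝ᵥ (f - a • f')))) using 1
  simp only [smul_eq_mul]; ring

end Pool.Agent.Lib.MP_61a4e3_al.R
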