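import Pool.Agent.Lib.MP_61a4e3_al.R.Down1
import Pool.Agent.Lib.MP_61a4e3_al.Cyc2

/-! Consequences of the level property, second part. -/

set_option linter.unusedSectionVars false
set_option linter.unusedSimpArgs false
set_option linter.unusedVariables false
set_option maxHeartbeats 800000

namespace Pool.Agent.Lib.MP_61a4e3_al.R

open Matrix WG Form

variable {O : Type} [CommRing O] [StarRing O] [IsDomain O] {m : ℕ} {z : O} {hz : z * star z = 1}
  {d : ℕ}

section
open Equiv
variable (H : RH z) (hd : 3 ≤ d) (hg : geom z d = 0)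
  {k : Type} [Field k] [StarRing k] [TrivialStar k] {ψ : O →+* k}
  (ker : ∀ x, ψ x = 0 ↔ (1 - z) ∣ x) (hu : ∀ t : k, t ≠ 0 → ∃ u, IsUnit u ∧ ψ u = t)

include H hd hg ker hu in
theorem range_red' (hm : d ≤ m) :
    (cp_BF (m := m) (hz := hz) H ker).red.range = GQ (F := BF m 1 hone) rfl := by
  have T := cp_BF (m := m) (hz := hz) H ker
  have surj : ∀ x : Fin m → k, ∃ y : Fin m → O, ψ ∘ y = x := by
    have : ∀ t : k, ∃ u, ψ u = t := fun t => by
      by_cases h : t = 0
      · exact ⟨0, by simp [h]⟩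
      · exact (hu t h).imp fun _ h => h.2
    choose s hs using this
    exact fun x => ⟨s ∘ x, funext fun i => hs _⟩
  have lam : ∀ c : O, z * c + star c = 0 → ψ c = 0 := by
    intro c hc
    obtain ⟨r, -, rfl⟩ := H.lam_eq hc
    exact (ker _).2 (H.pi_dvd_star.mul_right _)
  refine le_antisymm ?_ ?_
  · rintro _ ⟨g, rfl⟩ x
    obtain ⟨x, rfl⟩ := surj x
    have e : (T.red g).W *ᵥ (ψ ∘ x) = ψ ∘ (g.W *ᵥ x) := by
      ext i; simp [T.red_W, mulVec, dotProduct]
    rw [e, ← T.qf, ← e, ← star_vec (ψ ∘ x), T.red_W, star_vec, ← star_vec (ψ ∘ x)]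
    conv_lhs => enter [2]; rw [star_vec]
    rw [← T.dot, ← sub_eq_zero, ← map_sub]
    refine lam _ ?_
    have h2 := congrArg (fun M => star x ⬝ᵥ M *ᵥ x) (op_tau' g)
    have h3 := (BF m z hz).B_self (g.W *ᵥ x)
    rw [Form.B, star_mulVec, ← dotProduct_mulVec] at h3
    simp only [Form.tau, sub_mulVec, add_mulVec, Matrix.smul_mul, smul_mulVec, dotProduct_sub,
      dotProduct_add, dotProduct_smul, zero_mulVec, dotProduct_zero, ← mulVec_mulVec, h3,
      ← star_dot_mulVec, BF_z, smul_eq_mul] at h2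
    rw [star_sub]
    linear_combination z * h2 - (star (star x ⬝ᵥ g.W *ᵥ x) - z * (BF m z hz).qf (g.W *ᵥ x) -
      star ((BF m z hz).qf (g.W *ᵥ x))) * hz
  · have Phh' := plane_fv (hz := hz) (m := m) H hd hg (j := 0) (by omega)
    have Ph'h' := fv_iso (hz := hz) (m := m) H hd hg (j := 0) (by omega)
    have Phh : (BF m z hz).B (-z • vec m (fv z d (0 + 1))) (-z • vec m (fv z d (0 + 1))) = 0 := by
      simp [fv_iso (hz := hz) H hd hg (show 1 + d ≤ m + 1 by omega)]
    have Ph'h := (BF m z hz).B_eq_one_swap Phh'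
    set f := -z • vec m (fv z d (0 + 1)) with hf
    set f' := vec m (fv z d 0) with hf'
    have z1 : ψ z = 1 := T.z
    refine HP.gen (f := ψ ∘ f) (f' := ψ ∘ f') (p := ⟨d - 1, by omega⟩) (p' := ⟨0, by omega⟩) rfl
      ⟨?_, ?_, ?_, fun u h => ?_, fun u h => ?_⟩ (fun t ht => ?_) ?_ ?_ ?_ ?_
    · rw [← T.qf]; exact lam _ (by rw [← Phh, B_self]; rfl)
    · rw [← T.qf]; exact lam _ (by rw [← Ph'h', B_self]; rfl)
    · rw [← T.B, Phh', map_one]
    · obtain ⟨u, rfl⟩ := surj u
      rw [← T.B] at h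
      have := T.HE (isE_qf (y := u - (BF m z hz).B f u • f') Phh (by simp [Phh']) (c := 0)
        (by simp))
      rwa [add_zero, T.qf, show ψ ∘ (u - (BF m z hz).B f u • f') = ψ ∘ u by
        ext i; simp [h]] at this
    · obtain ⟨u, rfl⟩ := surj u
      rw [← T.B] at h
      have := T.HE (isE_qf (y := u - (star z * (BF m z hz).B f' u) • f) Ph'h' (by
        simp only [B_sub_right, B_smul_right, Ph'h, BF_z]
        linear_combination (-(BF m z hz).B f' u) * hz) (c := 0) (by simp))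
      rwa [add_zero, T.qf, show ψ ∘ (u - (star z * (BF m z hz).B f' u) • f) = ψ ∘ u by
        ext i; simp [h]] at this
    · obtain ⟨u, hu', rfl⟩ := hu t ht
      obtain ⟨c, hc⟩ := hu'.exists_left_inv
      have hc' : star c * star u = 1 := by rw [← star_mul, mul_comm, hc, star_one]
      refine ⟨_, ⟨rf (r := f + u • f') (c := c) ?_, rfl⟩, ?_⟩
      · simp only [B_add_left, B_add_right, B_smul_left, B_smul_right, Phh, Ph'h', Phh', Ph'h,
          BF_z]
        linear_combination (-star c) * hc - z * c * hc'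
      · have : ψ c = (ψ u)⁻¹ := eq_inv_of_mul_eq_one_left (by rw [← map_mul, hc, map_one])
        ext i j
        simp [T.red_W, rf, ou, vecMulVec_apply, T.st, this]
    · simp only [hf, Function.comp, vec, Pi.smul_apply, smul_eq_mul]
      rw [fv_in hd hg (by omega), show d - 1 + 1 - (0 + 1) = d - 1 by omega, neg_mul,
        geom_pred hd hg]; simp
    · simp only [hf, Function.comp, vec, Pi.smul_apply, smul_eq_mul]
      rw [fv_out hd hg (by omega)]; simp
    · simp only [hf', Function.comp, vec]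
      rw [fv_out hd hg (by omega)]; simp
    · simp only [hf', Function.comp, vec]
      rw [fv_in hd hg (by omega)]; simp

include H hd hg ker hu in
theorem index_PL' (hm : d ≤ m) : (PL H m hz).index * (m + 1).factorial =
    Nat.card {W : Matrix (Fin m) (Fin m) k // ∀ x, x ⬝ᵥ W *ᵥ x = (BF m 1 hone).qf (W *ᵥ x)} := by
  have T := cp_BF (m := m) (hz := hz) H ker
  have iff : ∀ (W : Matrix (Fin m) (Fin m) O) s, W.map ψ = WP k s ↔ W.map (rd z) = WP _ s := by
    intro W s
    rw [map_rd_iff, ← WP_map ψ, ← Matrix.ext_iff]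
    simp only [map_apply, ← ker, map_sub, sub_eq_zero]
  have e : ((PL H m hz).map T.red).comap T.red = PL H m hz := by
    refine le_antisymm ?_ (Subgroup.le_comap_map _ _)
    rintro g ⟨h, ⟨s, hs⟩, e⟩
    exact ⟨s, (iff _ _).1 ((congrArg WG.W e).symm.trans ((iff _ _).2 hs))⟩
  have c : Nat.card ((PL H m hz).map T.red) = (m + 1).factorial := by
    choose h hh hs using exists_perm (hz := hz) (m := m) H
    rw [← Fintype.card_fin (m + 1), ← Fintype.card_perm, ← Nat.card_eq_fintype_card]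
    refine (Nat.card_eq_of_bijective
      (fun s => ⟨T.red (h s), h s, Gam_le_PL H (hh s), rfl⟩) ⟨fun s t e => ?_, ?_⟩).symm
    · have := congrArg (fun x => x.1.W) e
      simp only [T.red_W, (iff _ _).2 (hs _)] at this
      exact WP_inj this
    · rintro ⟨_, g, ⟨s, hs'⟩, rfl⟩
      exact ⟨s, Subtype.ext (WG.ext (((iff _ _).2 (hs s)).trans ((iff _ _).2 hs').symm))⟩
  rw [← e, Subgroup.index_comap, ← c, ← card_GQ rfl, ← range_red' (hz := hz) H hd hg ker hu hm, mul_comm,
    ← Subgroup.card_mul_index (((PL H m hz).map T.red).subgroupOf T.red.range),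
    Nat.card_congr (Subgroup.subgroupOfEquivOfLe (Subgroup.map_le_range _ _)).toEquiv]
  rfl

end

section
variable (H : RH z) (hd : 3 ≤ d) (hg : geom z d = 0) (hL : LevOK m z hz)
include H hd hg hL

lemma gam_iff' {g : WG (BF m z hz)} :
    g ∈ Gam m z hz ↔ g ∈ PL H m hz ∧ ∃ k : ℕ, (act g).det = (-z) ^ k := by
  refine ⟨fun h => ⟨Gam_le_PL H h, det_mem_of_Gam H hd hg h⟩, ?_⟩
  rintro ⟨⟨s, hs⟩, k, hk⟩
  obtain ⟨h, hh, hs'⟩ := exists_perm (hz := hz) H s
  obtain ⟨l, hl⟩ := det_mem_of_Gam H hd hg (inv_mem hh)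
  have := hL (h⁻¹ * g) (by
    intro i j
    rw [inv_mul_W]
    exact dvd_mat_mul (fun i j => by
      have := dvd_sub (map_rd_iff.1 hs i j) (map_rd_iff.1 hs' i j)
      rwa [sub_sub_sub_cancel_right] at this) _ i j)
    ⟨l + k, by rw [map_mul, det_mul, hk, hl, pow_add]⟩
  simpa using (Gam m z hz).mul_mem hh this

variable (hN : ∀ x : O, x * star x = 1 → ∃ k : ℕ, x = (-z) ^ k ∨ x = -(-z) ^ k)
include hN

lemma Gam_eq_A' (h : ∃ k : ℕ, (-z) ^ k = -1) : Gam m z hz = PL H m hz := by
  obtain ⟨l, hl⟩ := h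
  ext g
  rw [gam_iff' H hd hg hL, and_iff_left]
  obtain ⟨k, h | h⟩ := hN _ (det_norm g)
  · exact ⟨k, h⟩
  · exact ⟨l + k, by rw [h, pow_add, hl, neg_one_mul]⟩

lemma Gam_eq_B' (h1 : IsUnit (1 - z)) (h2 : Prime (1 + z)) : Gam m z hz = PL H m hz := by
  ext g
  rw [gam_iff' H hd hg hL, and_iff_left]
  obtain ⟨k, h | h⟩ := hN _ (det_norm g)
  · exact ⟨k, h⟩
  · refine absurd (isUnit_of_dvd_unit ?_ h1) h2.not_isUnit
    have a := det_theta H h2 g
    have b := sub_dvd_pow_sub_pow 1 (-z) k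
    rw [h] at a
    rw [sub_neg_eq_add] at b
    convert dvd_sub (dvd_sub b a) dvd_rfl using 1
    ring

lemma index_Gam_C' (hm : d ≤ m) (h1 : IsUnit (1 - z)) (h2 : IsUnit (1 + z)) (h : ∀ k : ℕ, (-z) ^ k ≠ -1) :
    (Gam m z hz).index = 2 := by
  obtain ⟨c, hc⟩ := h2.exists_left_inv
  have hc' : star c * (1 + star z) = 1 := by
    simpa [mul_comm] using congrArg star hc
  have r := root_ev (z := z) (hz := hz) (m := m) (j := 1) ⟨le_rfl, by omega⟩
  have e : (BF m z hz).z * (2 * c) + star (2 * c) =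
      2 * c * star (2 * c) * (BF m z hz).B (ev O m 1) (ev O m 1) := by
    rw [r, BF_z, star_mul, star_ofNat]
    linear_combination (-2 * star c) * hc - 2 * z * c * hc' + 2 * c * star c * hz
  have da : (act (rf e)).det = -1 := by rw [det_rf, r, BF_z]; linear_combination -2 * hc
  have u : ∀ k : ℕ, ∃ l : ℕ, (-z) ^ k * (-z) ^ l = 1 := fun k => ⟨k * (2 * d - 1), by
    rw [← pow_add, show k + k * (2 * d - 1) = 2 * (d * k) by
      obtain ⟨e, rfl⟩ : ∃ e, d = e + 1 := ⟨d - 1, by omega⟩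
      rw [show 2 * (e + 1) - 1 = 2 * e + 1 by omega]; ring,
      pow_mul, neg_sq, ← pow_mul, mul_comm 2, mul_assoc, pow_mul, z_pow hd hg, one_pow]⟩
  refine Subgroup.index_eq_two_iff.2 ⟨rf e, fun b => ?_⟩
  simp only [gam_iff' H hd hg hL, PL_top H h1, Subgroup.mem_top, true_and, map_mul, det_mul, da]
  have nb : ¬ ((∃ k : ℕ, (act b).det * -1 = (-z) ^ k) ∧ ∃ k : ℕ, (act b).det = (-z) ^ k) := by
    rintro ⟨⟨k, hk⟩, l, hl⟩
    obtain ⟨j, hj⟩ := u l
    exact h (k + j) (by rw [pow_add, ← hk, hl]; linear_combination -hj)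
  obtain ⟨k, hk | hk⟩ := hN _ (det_norm b)
  · exact Or.inr ⟨⟨k, hk⟩, fun h => nb ⟨h, k, hk⟩⟩
  · have : ∃ k : ℕ, (act b).det * -1 = (-z) ^ k := ⟨k, by rw [hk]; ring⟩
    exact Or.inl ⟨this, fun h => nb ⟨this, h⟩⟩

end

variable (H : RH z) (hd : 3 ≤ d) (hp : IsPrimitiveRoot z d) (hL : LevOK m z H.hz) (hm : d ≤ m)
include H hd hp hL hm

theorem index_Gam' (hnu : ∀ p : ℕ, p.Prime → ¬ IsUnit (p : O))
    (h0 : (2 : O) ≠ 0) (hN : ∀ x : O, x * star x = 1 → ∃ k : ℕ, x = z ^ k ∨ x = -z ^ k) :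
    (Gam m z H.hz).index * (if IsPrimePow d then (m + 1).factorial else 1) =
      if IsPrimePow d then orthCard d.minFac m
      else if d % 4 = 2 ∧ ¬ IsPrimePow (d / 2) then 2 else 1 := by
  have hg : geom z d = 0 := hp.geom_sum_eq_zero (by omega)
  have hN' : ∀ x : O, x * star x = 1 → ∃ k : ℕ, x = (-z) ^ k ∨ x = -(-z) ^ k := by
    intro x hx
    obtain ⟨k, hk⟩ := hN x hx
    refine ⟨k, ?_⟩
    rcases Nat.even_or_odd k with h | h
    · rwa [h.neg_pow]
    · rwa [h.neg_pow, neg_neg, or_comm]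
  by_cases h : IsPrimePow d
  · rw [if_pos h, if_pos h, Gam_eq_A' H hd hg hL hN'
      (neg_pow_A hp (by omega) fun h' => not_pp hd h' h)]
    have pp := Nat.minFac_prime h.ne_one
    have := Fact.mk pp
    have : Nontrivial (O ⧸ Ideal.span {1 - z}) := Ideal.Quotient.nontrivial_iff.2
      (Ideal.span_singleton_ne_top (pi_not_unit hp hnu h))
    have : CharP (O ⧸ Ideal.span {1 - z}) d.minFac := (CharP.charP_iff_prime_eq_zero pp).2 (by
      rw [← map_natCast (rd z), ← map_zero (rd z), rd_eq, sub_zero, ← eval_pp h]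
      exact pi_dvd_eval hp (by omega))
    let e := RingEquiv.ofBijective (ZMod.castHom (dvd_refl d.minFac) (O ⧸ Ideal.span {1 - z}))
      ⟨ZMod.castHom_injective _, fun x => by
        obtain ⟨x, rfl⟩ := Ideal.Quotient.mk_surjective x
        obtain ⟨n, hn⟩ := H.int_mod x
        exact ⟨n, by rw [map_intCast, ← map_intCast (rd z), eq_comm, rd_eq]; exact hn⟩⟩
    let _ : StarRing (ZMod d.minFac) := starRingOfComm
    have : TrivialStar (ZMod d.minFac) := ⟨fun _ => rfl⟩
    rw [index_PL' (ψ := e.symm.toRingHom.comp (rd z)) H hd hg (fun x => by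
      simp [Ideal.Quotient.eq_zero_iff_mem, Ideal.mem_span_singleton]) (fun t ht => ?_) (by omega),
      orthCard]
    · congr 3
      ext W
      refine forall_congr' fun x => ?_
      rw [Form.qf, star_vec]
      generalize W *ᵥ x = y
      simp only [dotProduct, mulVec, Finset.mul_sum, BF, of_apply, mul_left_comm]
    · refine ⟨geom z t.val, hp.geom_sum_isUnit (by omega) ?_, by simp [geom, rd_z]⟩
      have := (ZMod.val_coe_unit_coprime (Units.mk0 t ht)).pow_right (d.factorization d.minFac)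
      rwa [h.minFac_pow_factorization_eq] at this
  have hu := pi_unit hp (by omega) h
  rw [if_neg h, if_neg h, mul_one]
  by_cases h4 : d % 4 = 2
  · by_cases h' : IsPrimePow (d / 2)
    · rw [if_neg (by tauto), Gam_eq_B' H hd hg hL hN' hu ((theta_pu H hd hp h4).resolve_left
        (by simpa using pi_not_unit (neg_prim hp h4) hnu h')), PL_top H hu, Subgroup.index_top]
    · rw [if_pos ⟨h4, h'⟩]
      refine index_Gam_C' H hd hg hL hN' hm hu
        (by simpa using pi_unit (neg_prim hp h4) (by omega) h') fun k hk => h0 ?_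
      have := congrArg (· ^ (d / 2)) hk
      rw [← pow_mul, mul_comm k, pow_mul, (neg_prim hp h4).pow_eq_one, one_pow,
        Odd.neg_one_pow (Nat.odd_iff.2 (show d / 2 % 2 = 1 by omega))] at this
      linear_combination this
  · rw [if_neg (by tauto), Gam_eq_A' H hd hg hL hN' (neg_pow_A hp (by omega) h4), PL_top H hu,
      Subgroup.index_top]

theorem relIndex_GO' :
    (GO m z H.hz).relIndex (UO (BF m z H.hz).A) = (Gam m z H.hz).index *
      (act (F := BF m z H.hz)).toHomUnits.range.relIndex (UO (BF m z H.hz).A) := by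
  have hg : geom z d = 0 := hp.geom_sum_eq_zero (by omega)
  have k : (act (F := BF m z H.hz)).toHomUnits.ker ≤ Gam m z H.hz := by
    intro g hg'
    have e : act g = 1 := congrArg Units.val hg'
    refine hL g ?_ ⟨0, by simp [e]⟩
    obtain ⟨R, hR⟩ := row1 (z := z) (hz := H.hz) (show 0 < m by omega)
    have c : ∀ i j, g.W i j = g.W ⟨0, by omega⟩ j * geom z (i.val + 1) := by
      intro i j
      have := congrFun (hR (g.W *ᵥ Pi.single j 1)) i
      rw [mulVec_mulVec _ _ g.W, A_mul_W_of_act e, zero_mulVec, mulVec_zero,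
        ev_eq_single (⟨0, by omega⟩ : Fin m)] at this
      simpa [vec, sub_eq_zero] using this.symm
    have t : ∀ i j, g.W i j = -(star z * star (g.W j i)) := by
      intro i j
      have h1 : g.W * (BF m z H.hz).A = 0 := by rw [act_apply] at e; exact sub_eq_self.1 e
      have := g.prop
      rw [Form.op, h1, Matrix.zero_mul, sub_zero] at this
      exact congrFun (congrFun (eq_neg_of_add_eq_zero_left this) i) j
    obtain ⟨r, hr, h⟩ := H.lam_eq (c := g.W ⟨0, by omega⟩ ⟨0, by omega⟩) (by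
      linear_combination z * t ⟨0, by omega⟩ ⟨0, by omega⟩ -
        star (g.W ⟨0, by omega⟩ ⟨0, by omega⟩) * H.hz)
    intro i j
    rw [c, t, c j, h, star_mul, star_mul, star_star]
    exact ⟨-(star z * star (geom z (j.val + 1)) * star r * geom z (i.val + 1)), by ring⟩
  rw [← Subgroup.relIndex_mul_relIndex (GO m z H.hz) (act (F := BF m z H.hz)).toHomUnits.range _
    (Subgroup.map_le_range _ _) (by rintro _ ⟨g, rfl⟩; exact WG.unitary g), GO,
    MonoidHom.range_eq_map, Subgroup.relIndex_map_map, sup_eq_left.2 k, top_sup_eq,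
    Subgroup.relIndex_top_right]

end Pool.Agent.Lib.MP_61a4e3_al.R
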