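import Pool.Agent.Lib.MP_61a4e3_al.R.Defs
import Pool.Agent.Lib.MP_61a4e3_al.N.Model
import Pool.Agent.Lib.MP_61a4e3_al.Transfer

/-! The extra arithmetic input for the cyclotomic integers. -/

set_option linter.unusedSectionVars false
set_option linter.unusedSimpArgs false
set_option linter.unusedVariables false

namespace Pool.Agent.Lib.MP_61a4e3_al.R

section
open Real

lemma par_norm (θ : ℝ) :
    ((1 + Complex.exp (θ * Complex.I)) * star (1 + Complex.exp (θ * Complex.I))).re =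
      2 + 2 * cos θ := by
  rw [Complex.star_def, Complex.mul_conj, Complex.ofReal_re, Complex.normSq_apply]
  simp only [Complex.add_re, Complex.one_re, Complex.exp_ofReal_mul_I_re, Complex.add_im,
    Complex.one_im, Complex.exp_ofReal_mul_I_im]
  nlinarith [sin_sq_add_cos_sq θ]

lemma par_pow (d k : ℕ) : zeta d ^ k = Complex.exp (((2 * π * k / d : ℝ) : ℂ) * Complex.I) := by
  rw [zeta, ← Complex.exp_nat_mul]; congr 1; push_cast; ring

lemma par_k {d : ℕ} (hd : 5 ≤ d) (h6 : d ≠ 6) (h10 : d ≠ 10) :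
    ∃ k : ℕ, k.Coprime d ∧ d < 3 * k ∧ 2 * k ≤ d := by
  obtain ⟨j, rfl | rfl⟩ := Nat.even_or_odd' d
  · obtain ⟨i, rfl | rfl⟩ := Nat.even_or_odd' j
    · obtain ⟨n, rfl⟩ : ∃ n, i = n + 1 := ⟨i - 1, by omega⟩
      refine ⟨2 * n + 1, ?_, by omega, by omega⟩
      rw [show 2 * (2 * (n + 1)) = 2 + (2 * n + 1) * 2 by ring, Nat.coprime_add_mul_left_right,
        Nat.coprime_two_right]
      exact ⟨n, rfl⟩
    · obtain ⟨n, rfl⟩ : ∃ n, i = n + 1 := ⟨i - 1, by omega⟩
      refine ⟨2 * n + 1, ?_, by omega, by omega⟩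
      rw [show 2 * (2 * (n + 1) + 1) = 2 ^ 2 + (2 * n + 1) * 2 by ring,
        Nat.coprime_add_mul_left_right, Nat.coprime_pow_right_iff two_pos, Nat.coprime_two_right]
      exact ⟨n, rfl⟩
  · refine ⟨j, ?_, by omega, by omega⟩
    rw [show 2 * j + 1 = 1 + j * 2 by ring, Nat.coprime_add_mul_left_right]
    exact Nat.coprime_one_right _

lemma par_cos {d k : ℕ} (h1 : d < 3 * k) (h2 : 2 * k ≤ d) : 2 + 2 * cos (2 * π * k / d) < 1 := by
  have d0 : (0 : ℝ) < d := by exact_mod_cast (show 0 < d by omega)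
  have a1 : (d : ℝ) < 3 * k := by exact_mod_cast h1
  have a2 : 2 * (k : ℝ) ≤ d := by exact_mod_cast h2
  have := cos_lt_cos_of_nonneg_of_le_pi (x := π - π / 3) (y := 2 * π * k / d)
    (by linarith [pi_pos]) (by rw [div_le_iff₀ d0]; nlinarith [pi_pos])
    (by rw [lt_div_iff₀ d0]; nlinarith [pi_pos])
  rw [cos_pi_sub, cos_pi_div_three] at this
  linarith

theorem exists_par {d : ℕ} (hd : 5 ≤ d) (h6 : d ≠ 6) : ∃ k : ℕ, k.Coprime d ∧
    ∀ {O : Type} [CommRing O] [StarRing O] {z : O} {ψ : O →+* ℂ}, Function.Injective ψ →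
      (∀ x, ψ (star x) = star (ψ x)) → z * star z = 1 → ψ z = zeta d ^ k → ∃ s, Par ψ z s := by
  by_cases h10 : d = 10
  · subst h10
    refine ⟨3, by norm_num, fun {O} _ _ {z ψ} inj hs hz e => ⟨1 - z ^ 3, ⟨1 + z + z ^ 2, by ring⟩,
      by simpa using (IsUnit.of_mul_eq_one _ hz).pow 3, (1 - z ^ 3) * star (1 - z ^ 3),
      by rw [star_mul, star_star], ?_, ?_⟩⟩
    · have h5 : z ^ 5 = -1 := inj (by
        rw [map_pow, e, ← pow_mul, par_pow, map_neg, map_one,
          show (2 * π * (3 * 5 : ℕ) / (10 : ℕ) : ℝ) = π + 2 * π by push_cast; ring]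
        push_cast
        rw [add_mul, Complex.exp_add, Complex.exp_pi_mul_I, Complex.exp_two_pi_mul_I, mul_one])
      rw [star_sub, star_one, star_pow]
      linear_combination (-(star z) ^ 2) * h5 + ((z ^ 3 * (z * star z + 1)) - star z ^ 2) * hz
    · have e3 : -(ψ z ^ 3) = Complex.exp (((π - π / 5 : ℝ) : ℂ) * Complex.I) := by
        rw [e, ← pow_mul, par_pow,
          show (2 * π * (3 * 3 : ℕ) / (10 : ℕ) : ℝ) = π + (π - π / 5) by push_cast; ring,
          Complex.ofReal_add, add_mul, Complex.exp_add, Complex.exp_pi_mul_I]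
        ring
      have n1 := par_norm (2 * π * (3 : ℕ) / (10 : ℕ))
      have n2 := par_norm (π - π / 5)
      rw [← par_pow, ← e] at n1
      rw [← e3, ← sub_eq_add_neg, cos_pi_sub, cos_pi_div_five] at n2
      have c3 : cos (2 * π * (3 : ℕ) / (10 : ℕ)) = 4 * cos (π / 5) ^ 3 - 3 * cos (π / 5) := by
        rw [← cos_three_mul]; congr 1; push_cast; ring
      rw [c3, cos_pi_div_five] at n1
      simp only [map_mul, hs, map_add, map_sub, map_one, map_pow]
      rw [Complex.star_def, Complex.mul_conj] at n1 n2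
      rw [Complex.star_def, Complex.mul_conj, Complex.mul_conj, ← Complex.ofReal_mul]
      rw [Complex.ofReal_re] at n1 n2 ⊢
      rw [n1, n2]
      have s5 : √5 ^ 2 = 5 := sq_sqrt (by norm_num)
      have l5 : 2 < √5 := lt_sqrt_of_sq_lt (by norm_num)
      have : 4 * ((1 + √5) / 4) ^ 3 - 3 * ((1 + √5) / 4) = (1 - √5) / 4 := by
        linear_combination ((3 + √5) / 16) * s5
      rw [this]
      nlinarith
  · obtain ⟨k, hk, h1, h2⟩ := par_k hd h6 h10
    refine ⟨k, hk, fun {O} _ _ {z ψ} inj hs hz e => ⟨0, dvd_zero _, by simp, 1, star_one _,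
      by simp, ?_⟩⟩
    rw [mul_one, map_mul, hs, map_add, map_one, e, par_pow, par_norm]
    exact par_cos h1 h2

end

open Matrix WG Form

variable {O : Type} [CommRing O] [StarRing O] [IsDomain O] {z : O}

theorem model_par {d : ℕ} (hd : 5 ≤ d) (h6 : d ≠ 6) {φ : O →+* ℂ} (H : RH z)
    (inj : Function.Injective φ) (hs : ∀ x, φ (star x) = star (φ x)) (hφ : φ z = zeta d)
    (hr : ∀ y, y ∈ Algebra.adjoin ℤ {zeta d} ↔ ∃ x, φ x = y) (hf : {x : O | x * star x = 1}.Finite)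
    (hu : Infinite Oˣ) : RK O ∧ ∃ (ψ : O →+* ℂ) (s : O), Place ψ ∧ Par ψ z s := by
  obtain ⟨h1, h2, h3⟩ := model_extra (by omega) (zeta_prim (d := d) (by omega)) inj hs hφ hr hf hu
  obtain ⟨k, hk, hp⟩ := exists_par hd h6
  obtain ⟨ψ, i1, s1, z1, p1⟩ := h3 k hk
  obtain ⟨s, hs'⟩ := hp i1 s1 H.hz z1
  exact ⟨⟨h1, h2⟩, ψ, s, ⟨i1, s1, p1⟩, hs'⟩

end Pool.Agent.Lib.MP_61a4e3_al.R
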