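import Pool.Agent.Lib.MP_61a4e3_al.R.Core2
import Pool.Agent.Lib.MP_61a4e3_al.R.Down2
import Pool.Agent.Lib.MP_61a4e3_al.N.SaOk
import Pool.Agent.Lib.MP_61a4e3_al.R.Model

/-! Transfer to complex matrices in the range `d < n ≤ 2 d`. -/

set_option linter.unusedSectionVars false
set_option linter.unusedSimpArgs false
set_option linter.unusedVariables false

namespace Pool.Agent.Lib.MP_61a4e3_al.R

open Matrix WG Form

theorem exists_model1 {d m : ℕ} (hd : 5 ≤ d) (h6 : d ≠ 6) (hm : d ≤ m) (hm2 : m + 1 ≤ 2 * d) :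
    ∃ (O : Type) (_ : CommRing O) (_ : StarRing O) (_ : IsDomain O) (z : O) (φ : O →+* ℂ)
      (H : RH z), LevOK m z H.hz ∧ Function.Injective φ ∧ (∀ x, φ (star x) = star (φ x)) ∧
      φ z = zeta d ∧ (∀ y, y ∈ Algebra.adjoin ℤ {zeta d} ↔ ∃ x, φ x = y) ∧
      {x : O | x * star x = 1}.Finite ∧ ¬ IsUnit (2 : O) ∧
      (∀ p : ℕ, p.Prime → ¬ IsUnit (p : O)) ∧
      ∀ x : O, x * star x = 1 → ∃ k : ℕ, x = z ^ k ∨ x = -z ^ k := by
  have h3 : 3 ≤ d := by omega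
  obtain ⟨O, _, _, _, z, φ, H, hM, inj, hs, hφ, hr, hf, h2, hu, hnu, hN⟩ :=
    exists_model h3 (zeta_prim h3)
  obtain ⟨K, ψ, s, hψ, hs'⟩ := model_par hd h6 H inj hs hφ hr hf
    (not_finite_iff_infinite.1 fun h => by have := hu.1 h; omega)
  have := K.cz
  have hg := (geom_iff inj hφ h3 d).2 dvd_rfl
  have hi : ∀ i, geom z i = 0 → d ∣ i := fun i hi => (geom_iff inj hφ h3 i).1 hi
  have hc : G1 (BF m z H.hz) ⊤ ≤ Gam m z H.hz := by
    rcases hm2.eq_or_lt with h | h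
    · exact core2 H hM hd hg hi hm h hψ (sa_ok H K hψ) hs'
    · exact core1 H hM hd hg hi hm h hψ (sa_ok H K hψ) hs'
  exact ⟨O, _, _, inferInstance, z, φ, H, levOK_of H h3 hg (by omega) hc, inj, hs, hφ, hr, hf,
    h2, hnu, hN⟩

lemma down3_nd {d m : ℕ} (hm : d ≤ m) (hm' : m + 2 ≤ 2 * d) : ¬ d ∣ m + 1 := by
  rintro ⟨k, hk⟩
  rcases k with _ | _ | k
  · omega
  · omega
  · rw [Nat.mul_succ, Nat.mul_succ] at hk; omega

theorem index_ne {d m : ℕ} (hd : 5 ≤ d) (h6 : d ≠ 6) (hm : d ≤ m) (hm' : m + 2 ≤ 2 * d) :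
    (burauImage m d).relIndex (unitaryInt m d) ≠ 0 := by
  have h3 : 3 ≤ d := by omega
  obtain ⟨O, _, _, _, z, φ, H, hL, inj, hs, hφ, hr, hf, h2, -⟩ :=
    exists_model1 hd h6 hm (Nat.le_of_succ_le hm')
  rw [image_eq H hφ, unitary_eq H inj hs hφ hr, Subgroup.relIndex_map_map_of_injective _ _
    (glmap_inj inj)]
  exact index_bwd H h3 ((geom_iff inj hφ h3 d).2 dvd_rfl) hL hm h2
    (fun h => by simpa [map_ofNat] using congrArg φ h) hf
    fun h => down3_nd hm hm' ((geom_iff inj hφ h3 _).1 h)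

theorem index_zero {d m : ℕ} (hd : 5 ≤ d) (h6 : d ≠ 6) (hm : d ∣ m + 1) :
    (burauImage m d).relIndex (unitaryInt m d) = 0 := by
  have h3 : 3 ≤ d := by omega
  obtain ⟨O, _, _, _, z, φ, H, -, inj, hs, hφ, hr, -, -, hu, -⟩ := exists_model h3 (zeta_prim h3)
  rw [image_eq H hφ, unitary_eq H inj hs hφ hr, Subgroup.relIndex_map_map_of_injective _ _
    (glmap_inj inj)]
  by_contra h
  have := Nat.le_of_dvd m.succ_pos hm
  rcases index_fwd H (by omega) h with h | h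
  · exact h ((geom_iff inj hφ h3 _).2 hm)
  · have := hu.1 h
    omega

theorem index_val {d m : ℕ} (hd : 5 ≤ d) (h6 : d ≠ 6) (hm : d ≤ m) (hm' : m + 2 ≤ 2 * d) :
    (burauImage m d).relIndex (unitaryInt m d) * (if IsPrimePow d then (m + 1).factorial else 1) =
      normOne d (m + 1) * (if IsPrimePow d then orthCard d.minFac m
        else if d % 4 = 2 ∧ ¬ IsPrimePow (d / 2) then 2 else 1) := by
  have h3 : 3 ≤ d := by omega
  obtain ⟨O, _, _, _, z, φ, H, hL, inj, hs, hφ, hr, hf, h2, hnu, hN⟩ :=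
    exists_model1 hd h6 hm (Nat.le_of_succ_le hm')
  have hp : IsPrimitiveRoot z d := (hφ ▸ zeta_prim h3).of_map_of_injective inj
  have hg := (geom_iff inj hφ h3 d).2 dvd_rfl
  have hG : φ (geom z (m + 1)) = ∑ i ∈ Finset.range (m + 1), zeta d ^ i := by simp [geom, hφ]
  let κ : O → Set ℂ := fun a => {y | ∃ t ∈ Algebra.adjoin ℤ {zeta d},
    y = φ a + (∑ i ∈ Finset.range (m + 1), zeta d ^ i) * t}
  have hκ : ∀ a b, κ a = κ b ↔ geom z (m + 1) ∣ a - b := by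
    intro a b
    constructor
    · intro h
      obtain ⟨t, ht, e⟩ := (Set.ext_iff.1 h (φ a)).1 ⟨0, zero_mem _, by simp⟩
      obtain ⟨t, rfl⟩ := (hr t).1 ht
      exact ⟨t, inj (by rw [map_sub, map_mul, hG, e]; ring)⟩
    · rintro ⟨c, hc⟩
      have e := congrArg φ hc
      rw [map_sub, map_mul, hG] at e
      have hc' := (hr _).2 ⟨c, rfl⟩
      ext y
      exact ⟨fun ⟨t, ht, h⟩ => ⟨t + φ c, add_mem ht hc', by linear_combination h + e⟩,
        fun ⟨t, ht, h⟩ => ⟨t - φ c, sub_mem ht hc', by linear_combination h - e⟩⟩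
  have hc : normOne d (m + 1) = (κ '' {u | geom z (m + 1) ∣ u * star u - 1}).ncard := by
    rw [normOne]
    congr 1
    ext S
    constructor
    · rintro ⟨x, hx, ⟨t, ht, e⟩, rfl⟩
      obtain ⟨x, rfl⟩ := (hr x).1 hx
      obtain ⟨t, rfl⟩ := (hr t).1 ht
      exact ⟨x, ⟨t, inj (by rw [map_sub, map_mul, map_mul, hG, hs, map_one, e])⟩, rfl⟩
    · rintro ⟨x, ⟨t, e⟩, rfl⟩
      exact ⟨φ x, (hr _).2 ⟨x, rfl⟩, ⟨φ t, (hr _).2 ⟨t, rfl⟩, by
        rw [← hG, ← map_mul, ← e, map_sub, map_mul, hs, map_one]⟩, rfl⟩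
  have hn : geom z (m + 1) ≠ 0 := fun h => down3_nd hm hm' ((geom_iff inj hφ h3 _).1 h)
  rw [image_eq H hφ, unitary_eq H inj hs hφ hr, Subgroup.relIndex_map_map_of_injective _ _
    (glmap_inj inj), relIndex_GO' H h3 hp hL hm, mul_right_comm, index_Gam' H h3 hp hL hm hnu
    (fun h => by simpa [map_ofNat] using congrArg φ h) hN, index_chi (by omega) κ hκ, mul_comm, hc]
  simp only [chi_ne' (hz := H.hz) H h3 hg hm (tri H h3 hp) hn]

theorem membership {d m : ℕ} (hd : 5 ≤ d) (h6 : d ≠ 6) (hm : d ≤ m) (hm2 : m + 1 ≤ 2 * d)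
    (g : GL (Fin m) ℂ) :
    g ∈ burauImage m d ↔ g ∈ unitaryInt m d ∧ (∃ k : ℕ, g.val.det = (-zeta d) ^ k) ∧
      ∃ (s : Equiv.Perm (Fin (m + 1))) (X : Matrix (Fin m) (Fin m) ℂ),
        (∀ i j, X i j ∈ Algebra.adjoin ℤ {zeta d}) ∧
        (1 + (zeta d)⁻¹) • (1 - g.val) = (permVar s + (1 - zeta d) • X) * herm (zeta d) m := by
  have h3 : 3 ≤ d := by omega
  obtain ⟨O, _, _, _, z, φ, H, hL, inj, hs, hφ, hr, -⟩ := exists_model1 hd h6 hm hm2
  have main := abstract_main' (hz := H.hz) H h3 ((geom_iff inj hφ h3 d).2 dvd_rfl) hL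
  have key : ∀ (G Y : Matrix (Fin m) (Fin m) O) s,
      (1 + (zeta d)⁻¹) • (1 - G.map φ) = (permVar s + (1 - zeta d) • Y.map φ) * herm (zeta d) m ↔
        G = 1 - (WP O s + (1 - z) • Y) * (BF m z H.hz).A := by
    intro G Y s
    have e1 : permVar s + (1 - zeta d) • Y.map φ = (WP O s + (1 - z) • Y).map φ := by
      rw [← WP_complex (φ := φ)]; ext i j; simp [hφ]
    have e2 : 1 - G.map φ = (1 - G).map φ := by
      rw [Matrix.map_sub _ (map_sub φ), Matrix.map_one _ (map_zero φ) (map_one φ)]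
    rw [herm_eq H inj hφ, e1, e2, Matrix.mul_smul, ← Matrix.map_mul]
    constructor
    · intro h
      rw [← map_inj inj (smul_right_injective _ (scal_ne H inj hφ) h), sub_sub_cancel]
    · intro h; rw [h, sub_sub_cancel]
  have hdet : ∀ (G : Matrix (Fin m) (Fin m) O) (k : ℕ),
      (G.map φ).det = (-zeta d) ^ k ↔ G.det = (-z) ^ k := by
    intro G k
    rw [← inj.eq_iff, RingHom.map_det, map_pow, map_neg, hφ]; rfl
  rw [image_eq H hφ, unitary_eq H inj hs hφ hr]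
  constructor
  · rintro ⟨G, hG, rfl⟩
    obtain ⟨h1, ⟨W, s, h2, h3⟩, k, h4⟩ := (main G.val).1 (mem_GO.1 hG)
    obtain ⟨Y, hY⟩ := exists_smul_mat (M := W - WP O s) h3
    refine ⟨⟨G, h1, rfl⟩, ⟨k, (hdet _ _).2 h4⟩, s, Y.map φ, fun i j => (hr _).2 ⟨_, rfl⟩,
      (key G.val Y s).2 ?_⟩
    rw [← hY, add_sub_cancel, ← h2]
  · rintro ⟨⟨G, hG, rfl⟩, ⟨k, hk⟩, s, X, hX, h⟩
    obtain ⟨Y, rfl⟩ := exists_map hr hX
    refine ⟨G, mem_GO.2 ((main G.val).2 ⟨hG, ⟨_, s, (key G.val Y s).1 h, fun i j => ?_⟩, k,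
      (hdet _ _).1 hk⟩), rfl⟩
    simp

end Pool.Agent.Lib.MP_61a4e3_al.R
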