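import Pool.Agent.Lib.MP_61a4e3_al.R.Defs
import Pool.Agent.Lib.MP_61a4e3_al.Men1

/-! Choice of admissible denominators. -/

set_option linter.unusedSectionVars false
set_option linter.unusedSimpArgs false
set_option linter.unusedVariables false

namespace Pool.Agent.Lib.MP_61a4e3_al.R

open Matrix WG Form

variable {O : Type} [CommRing O] [StarRing O] [IsDomain O] [CharZero O] {z : O}

lemma nice_cop_star {a b : O} (h : IsCoprime a b) : IsCoprime (star a) (star b) := by
  obtain ⟨u, v, huv⟩ := h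
  exact ⟨star u, star v, by simpa [mul_comm] using congrArg star huv⟩

lemma nice_z_ne (H : RH z) : z - star z ≠ 0 := fun h =>
  mul_ne_zero H.one_sub H.one_add (by linear_combination (-z) * h - H.hz)

lemma exists_nice (H : RH z) {a t D : O} (ha : star a = a) (a0 : a ≠ 0)
    (hat : IsCoprime a t) (hD : D ≠ 0) : ∃ l, a ∣ l - t ∧ Nice D l := by
  obtain ⟨t0, t1, h0, h1, ht⟩ := H.dec t
  obtain ⟨c, y1, hy1, y0, hy⟩ : ∃ c y1 : O, star y1 = y1 ∧ y1 ≠ 0 ∧ t + a * c = t0 + y1 * z := by
    by_cases h : t1 = 0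
    · exact ⟨z, a, ha, a0, by rw [ht, h]; ring⟩
    · exact ⟨0, t1, h1, h, by rw [ht]; ring⟩
  have b0 : y1 * (z - star z) * (2 * D) ≠ 0 :=
    mul_ne_zero (mul_ne_zero y0 (nice_z_ne H)) (mul_ne_zero two_ne_zero hD)
  obtain ⟨r, hr, hav⟩ := H.exists_real_avoid b0 (t + a * c) a
  have hc : IsCoprime (t + a * c + a * r) (y1 * (z - star z) * (2 * D)) := by
    refine isCoprime_of_forall_prime fun P hP hl hb => hav P hP hb (fun haP => ?_) hl
    refine IsCoprime.not_mem hat hP haP ?_
    have := P.sub_mem hl (P.mul_mem_right (c + r) haP)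
    rwa [show t + a * c + a * r - a * (c + r) = t by ring] at this
  refine ⟨t + a * c + a * r, ⟨c + r, by ring⟩, ?_, hc.of_mul_right_right⟩
  have e : star (t + a * c + a * r) = -(y1 * (z - star z)) + (t + a * c + a * r) * 1 := by
    rw [hy]
    simp only [star_add, star_mul, h0, hy1, ha, hr]
    ring
  rw [e]
  exact hc.of_mul_right_left.neg_right.add_mul_left_right 1

lemma exists_nice' (H : RH z) {a ξ D : O} (ha : IsCoprime a (star a))
    (hat : IsCoprime a ξ) (hD : D ≠ 0) :
    ∃ l, a ∣ l * ξ - 1 ∧ IsCoprime a (l * star l) ∧ Nice D l := by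
  have a0 : a ≠ 0 := by
    rintro rfl
    rw [star_zero] at ha
    exact not_isUnit_zero (isCoprime_zero_left.1 ha)
  obtain ⟨u, v, huv⟩ := hat
  obtain ⟨w, w1, w2⟩ := crt ha v 1
  have c1 : IsCoprime a w := cop_of_dvd_sub ⟨u, ξ, by linear_combination huv⟩ w1
  have c2 : IsCoprime (star a) w := cop_of_dvd_sub isCoprime_one_right w2
  obtain ⟨l, hl, hn⟩ := exists_nice H (a := a * star a) (t := w) (by simp [mul_comm])
    (mul_ne_zero a0 (by simpa using a0)) (c1.mul_left c2) hD
  have d1 : a ∣ l - w := (dvd_mul_right _ _).trans hl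
  have d2 : star a ∣ l - w := (dvd_mul_left _ _).trans hl
  refine ⟨l, ?_, (cop_of_dvd_sub c1 d1).mul_right ?_, hn⟩
  · have := ((d1.add w1).mul_right ξ).sub (dvd_mul_left a u)
    rwa [show (l - w + (w - v)) * ξ - u * a = l * ξ - 1 by linear_combination -huv] at this
  · simpa using nice_cop_star (cop_of_dvd_sub c2 d2)

lemma exists_real_mod (H : RH z) {a l : O} (hl : IsCoprime l (star l)) (hal : IsCoprime a l) :
    ∃ a0, l ∣ a0 - a ∧ Adm z a0 1 ∧ Adm z a0 (1 * (l * star l)) := by
  have c1 : IsCoprime l (1 - z) := by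
    refine isCoprime_of_forall_prime fun P hP h1 h2 => IsCoprime.not_mem hl hP h1 ?_
    obtain ⟨c, hc⟩ := H.pi_dvd_star_sub l
    have := P.add_mem h1 (P.mul_mem_right c h2)
    rwa [← hc, add_sub_cancel] at this
  have c2 : IsCoprime l (((1 - z) * star (1 - z)) ^ 2) :=
    (c1.mul_right (c1.of_isCoprime_of_dvd_right H.star_dvd_pi)).pow_right
  obtain ⟨w, hw⟩ : ∃ w, w = ((1 - z) * star (1 - z)) ^ 2 := ⟨_, rfl⟩
  have wr : star w = w := by rw [hw, star_pow, star_mul, star_star]
  rw [← hw] at c2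
  obtain ⟨c, e, hce⟩ := c2
  obtain ⟨u, v, huv⟩ := hl
  obtain ⟨y, hy⟩ : ∃ y, y = e * (a - 1) * v := ⟨_, rfl⟩
  have re : star (1 + w * (y * star l + star y * l)) = 1 + w * (y * star l + star y * l) := by
    simp only [star_add, star_mul, star_one, star_star, wr]
    ring
  have dv : l ∣ 1 + w * (y * star l + star y * l) - a :=
    ⟨w * star y - (a - 1) * (c + e * w * u), by
      rw [hy]; linear_combination (a - 1) * hce + (a - 1) * e * w * huv⟩
  have cg : ((1 - z) * star (1 - z)) ^ 2 ∣ 1 + w * (y * star l + star y * l) - 1 :=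
    ⟨y * star l + star y * l, by rw [← hw]; ring⟩
  have c3 := (cop_of_dvd_sub hal.symm dv).symm
  have c4 := nice_cop_star c3
  rw [re] at c4
  exact ⟨_, dv, ⟨re, star_one O, cg, isCoprime_one_right⟩,
    ⟨re, by simp [mul_comm], cg, by rw [one_mul]; exact c3.mul_right c4⟩⟩

end Pool.Agent.Lib.MP_61a4e3_al.R
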