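import Pool.Agent.Lib.MP_61a4e3_al.R.Defs

/-! The similitude that is `l` on the complement of a hyperbolic pair, `1` on `f` and the norm of
`l` on `f'`, and the partial conjugation it induces on the group of variation matrices. -/

namespace Pool.Agent.Lib.MP_61a4e3_al.R

open Matrix WG Form

variable {O : Type} [CommRing O] [StarRing O] {ι : Type} [Fintype ι] [DecidableEq ι]

variable {F : Form O ι} {f f' : ι → O} {l : O}

lemma Sm_mulVec (y : ι → O) : Sm F f f' l *ᵥ y =
    l • y + ((1 - l) * star F.z * F.B f' y) • f + ((l * star l - l) * F.B f y) • f' := by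
  simp only [Sm, add_mulVec, smul_mulVec, one_mulVec, ou_A_mulVec, smul_smul]

lemma Sm_perp {y : ι → O} (h : F.B f y = 0) (h' : F.B f' y = 0) : Sm F f f' l *ᵥ y = l • y := by
  simp [Sm_mulVec, h, h']

lemma Sm_left (ff : F.B f f = 0) (ff' : F.B f f' = 1) : Sm F f f' l *ᵥ f = f := by
  rw [Sm_mulVec, ff, F.B_eq_one_swap ff', mul_assoc, F.hz']
  module

lemma Sm_right (f'f' : F.B f' f' = 0) (ff' : F.B f f' = 1) :
    Sm F f f' l *ᵥ f' = (l * star l) • f' := by
  rw [Sm_mulVec, f'f', ff']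
  module

lemma Sm_comb (ff : F.B f f = 0) (f'f' : F.B f' f' = 0) (ff' : F.B f f' = 1) (a b : O)
    {x : ι → O} (h : F.B f x = 0) (h' : F.B f' x = 0) :
    Sm F f f' l *ᵥ (a • f + b • f' + x) = a • f + (l * star l * b) • f' + l • x := by
  rw [mulVec_add, mulVec_add, mulVec_smul, mulVec_smul, Sm_left ff ff', Sm_right f'f' ff',
    Sm_perp h h', smul_smul, mul_comm b]

lemma B_left_Sm (ff : F.B f f = 0) (ff' : F.B f f' = 1) (y : ι → O) :
    F.B f (Sm F f f' l *ᵥ y) = l * star l * F.B f y := by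
  simp only [Sm_mulVec, B_add_right, B_smul_right, ff, ff']; ring

lemma B_right_Sm (f'f' : F.B f' f' = 0) (ff' : F.B f f' = 1) (y : ι → O) :
    F.B f' (Sm F f f' l *ᵥ y) = F.B f' y := by
  simp only [Sm_mulVec, B_add_right, B_smul_right, f'f', F.B_eq_one_swap ff']
  linear_combination ((1 - l) * F.B f' y) * F.hz

lemma B_perp_Sm {x : ι → O} (h : F.B f x = 0) (h' : F.B f' x = 0) (y : ι → O) :
    F.B x (Sm F f f' l *ᵥ y) = l * F.B x y := by
  simp [Sm_mulVec, F.B_eq_zero_swap h, F.B_eq_zero_swap h']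

lemma Sm_sim (ff : F.B f f = 0) (f'f' : F.B f' f' = 0) (ff' : F.B f f' = 1) :
    (Sm F f f' l)ᴴ * F.A * Sm F f f' l = (l * star l) • F.A := by
  have f'f := F.B_eq_one_swap ff'
  have hz := F.hz
  have k : ∀ (x k y m : ι → O) (M : Matrix ι ι O),
      ou x k * (F.A * (ou y m * M)) = F.B k y • (ou x m * M) := fun x k y m M => by
    rw [← Matrix.mul_assoc, ← Matrix.mul_assoc, ou_A_ou, Matrix.smul_mul]
  simp only [Sm, conjTranspose_add, conjTranspose_smul, conjTranspose_mul, conjTranspose_one, ou_ct,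
    F.A_ct, Matrix.add_mul, Matrix.mul_add, Matrix.smul_mul, Matrix.mul_smul, Matrix.one_mul,
    Matrix.mul_one, Matrix.mul_assoc, k, ff, f'f', ff', f'f, star_mul, star_sub, star_one, star_star,
    smul_add, smul_smul]
  match_scalars <;> grind

lemma B_Sm (ff : F.B f f = 0) (f'f' : F.B f' f' = 0) (ff' : F.B f f' = 1) (x y : ι → O) :
    F.B (Sm F f f' l *ᵥ x) (Sm F f f' l *ᵥ y) = l * star l * F.B x y := by
  rw [Form.B, Form.B, star_mulVec, ← dotProduct_mulVec, mulVec_mulVec, mulVec_mulVec,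
    Sm_sim ff f'f' ff', smul_mulVec, dotProduct_smul, smul_eq_mul]

lemma Rl.one : Rl F f f' l 1 1 := by simp [Rl]

lemma Rl.inv {g g' : WG F} (h : Rl F f f' l g g') : Rl F f f' l g⁻¹ g'⁻¹ := by
  have := congrArg (fun M => star F.z • Mᴴ) h
  simp only [conjTranspose_smul, conjTranspose_mul, conjTranspose_conjTranspose, star_mul,
    star_star] at this
  rw [Rl, inv_W, inv_W, Form.tau, Form.tau, smul_comm, this, Matrix.mul_smul, Matrix.smul_mul,
    Matrix.mul_assoc]

lemma Rl.of_sup {P : Submodule O (ι → O)} (hP : ∀ x ∈ P, F.B f x = 0 ∧ F.B f' x = 0) {m : WG F}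
    (hm : m ∈ sup F P) : Rl F f f' l m m := by
  have h1 : Sm F f f' l * m.W = l • m.W := by
    apply Matrix.ext_of_mulVec_single; intro i
    rw [← mulVec_mulVec, Sm_perp (hP _ (hm _)).1 (hP _ (hm _)).2, smul_mulVec]
  have h2 : Sm F f f' l * m.Wᴴ = l • m.Wᴴ := by
    apply Matrix.ext_of_mulVec_single; intro i
    rw [← mulVec_mulVec, Sm_perp (hP _ (ct_mem hm _)).1 (hP _ (ct_mem hm _)).2, smul_mulVec]
  have h3 : m.W * (Sm F f f' l)ᴴ = star l • m.W := by
    have := congrArg conjTranspose h2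
    simpa only [conjTranspose_mul, conjTranspose_conjTranspose, conjTranspose_smul] using this
  rw [Rl, h1, Matrix.smul_mul, h3, smul_smul]

lemma isE_right {y : ι → O} {c : O} (e : F.IsE f' y c) (l : O) :
    F.IsE f' (l • y) (l * star l * c) := by
  refine ⟨e.kk, by simp [e.kx], ?_⟩
  simp only [star_mul, star_star, B_smul_left, B_smul_right, ← e.hc]; ring

lemma Rl.right (ff' : F.B f f' = 1) {y : ι → O} {c : O} (e : F.IsE f' y c) (hy : F.B f y = 0)
    (e' : F.IsE f' (l • y) (l * star l * c)) : Rl F f f' l (mkE e) (mkE e') := by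
  rw [Rl, mkE_W, mkE_W, conj_eW, Sm_right e.kk ff', Sm_perp hy e.kx]
  simp only [eW, ou_smul_left, ou_smul_right, star_mul, star_star]
  module

lemma Rl.left (ff' : F.B f f' = 1) {y : ι → O} {c : O} (e : F.IsE f y c) (hy : F.B f' y = 0)
    (e' : F.IsE f (star l • y) (l * star l * c)) : Rl F f f' l (mkE e') (mkE e) := by
  rw [Rl, mkE_W, mkE_W, conj_eW, Sm_left e.kk ff', mulVec_smul, Sm_perp e.kx hy]
  simp only [eW, ou_smul_left, ou_smul_right, star_star]
  module

lemma Rl.plane (ff : F.B f f = 0) (f'f' : F.B f' f' = 0) (ff' : F.B f f' = 1) {a b c e : O}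
    (ha : star a = a) (he : star e = e) (hb : F.z * star b + b = 0)
    (hc : F.z * (l * star l * c) + star (l * star l * c) = 0)
    (hd : a * e - b * (l * star l * c) = 1)
    (hb' : F.z * star (l * star l * b) + l * star l * b = 0) (hc' : F.z * c + star c = 0)
    (hd' : a * e - l * star l * b * c = 1) :
    Rl F f f' l (mkT ff f'f' ff' ha he hb hc hd) (mkT ff f'f' ff' ha he hb' hc' hd') := by
  simp only [Rl, mkT, Matrix.add_mul, Matrix.sub_mul, Matrix.mul_add, Matrix.mul_sub,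
    Matrix.smul_mul, Matrix.mul_smul, mul_ou_mul, Sm_left ff ff', Sm_right f'f' ff', ou_smul_left,
    ou_smul_right, star_mul, star_star]
  module

variable [IsDomain O]

lemma norm_ne (hl : l ≠ 0) : l * star l ≠ 0 := mul_ne_zero hl (star_ne_zero.2 hl)

omit [StarRing O] [Fintype ι] [DecidableEq ι] in
lemma smul_mat_cancel {c : O} (hc : c ≠ 0) {M N : Matrix ι ι O} (h : c • M = c • N) : M = N := by
  ext i j
  exact mul_left_cancel₀ hc (by simpa using congrFun (congrFun h i) j)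

lemma Rl.uniq (hl : l ≠ 0) {g g' g'' : WG F} (h : Rl F f f' l g g') (h' : Rl F f f' l g g'') :
    g' = g'' := WG.ext (smul_mat_cancel (norm_ne hl) (Eq.trans h (Eq.symm h')))

section pair

variable (ff : F.B f f = 0) (f'f' : F.B f' f' = 0) (ff' : F.B f f' = 1) (hl : l ≠ 0)
include ff f'f' ff' hl

lemma Rl.W_A {g g' : WG F} (h : Rl F f f' l g g') :
    g'.W * F.A * Sm F f f' l = Sm F f f' l * g.W * F.A := by
  apply smul_mat_cancel (norm_ne hl)
  rw [← Matrix.smul_mul, ← Matrix.smul_mul, h, Matrix.mul_assoc, Matrix.mul_assoc,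
    ← Matrix.mul_assoc _ F.A, Sm_sim ff f'f' ff', Matrix.mul_smul]

lemma Rl.act {g g' : WG F} (h : Rl F f f' l g g') :
    act g' * Sm F f f' l = Sm F f f' l * act g := by
  rw [act_apply, act_apply, Matrix.sub_mul, Matrix.mul_sub, Matrix.one_mul, Matrix.mul_one,
    h.W_A ff f'f' ff' hl, Matrix.mul_assoc]

lemma Rl.act_mulVec {g g' : WG F} (h : Rl F f f' l g g') (y : ι → O) :
    WG.act g' *ᵥ (Sm F f f' l *ᵥ y) = Sm F f f' l *ᵥ (WG.act g *ᵥ y) := by
  rw [mulVec_mulVec, mulVec_mulVec, h.act ff f'f' ff' hl]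

lemma Rl.act_left {g g' : WG F} (h : Rl F f f' l g g') :
    WG.act g' *ᵥ f = Sm F f f' l *ᵥ (WG.act g *ᵥ f) := by
  rw [← h.act_mulVec ff f'f' ff' hl, Sm_left ff ff']

lemma Rl.mul {g g' k k' : WG F} (h : Rl F f f' l g g') (h' : Rl F f f' l k k') :
    Rl F f f' l (g * k) (g' * k') := by
  rw [Rl, mul_W', mul_W', smul_add, h, ← Matrix.mul_smul, h', ← Matrix.mul_assoc,
    ← Matrix.mul_assoc, h.act ff f'f' ff' hl]
  simp only [Matrix.mul_add, Matrix.add_mul, Matrix.mul_assoc]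

/-- Partners exist on the group generated by elements with partners. -/
lemma Rl.closure {A : Set (WG F)} {G : Subgroup (WG F)}
    (hA : ∀ a ∈ A, ∃ a' ∈ G, Rl F f f' l a a') {g : WG F} (hg : g ∈ Subgroup.closure A) :
    ∃ g' ∈ G, Rl F f f' l g g' := by
  induction hg using Subgroup.closure_induction with
  | mem a ha => exact hA a ha
  | one => exact ⟨1, G.one_mem, Rl.one⟩
  | mul x y _ _ hx hy =>
    obtain ⟨x', h1, h2⟩ := hx
    obtain ⟨y', h3, h4⟩ := hy
    exact ⟨x' * y', G.mul_mem h1 h3, h2.mul ff f'f' ff' hl h4⟩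
  | inv x _ hx =>
    obtain ⟨x', h1, h2⟩ := hx
    exact ⟨x'⁻¹, G.inv_mem h1, h2.inv⟩

end pair

/-- The similitude is injective on vectors. -/
lemma Sm_inj (ff : F.B f f = 0) (f'f' : F.B f' f' = 0) (ff' : F.B f f' = 1) (hl : l ≠ 0)
    {y : ι → O} (h : Sm F f f' l *ᵥ y = 0) : y = 0 := by
  have h1 := B_left_Sm (l := l) ff ff' y
  have h2 := B_right_Sm (l := l) f'f' ff' y
  rw [h, B_zero_right] at h1 h2
  have h3 := (mul_eq_zero.1 h1.symm).resolve_left (norm_ne hl)
  rw [Sm_perp h3 h2.symm] at h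
  exact (smul_eq_zero.1 h).resolve_left hl

lemma Rl.uniq_left (ff : F.B f f = 0) (f'f' : F.B f' f' = 0) (ff' : F.B f f' = 1) (hl : l ≠ 0)
    {g k g' : WG F} (h : Rl F f f' l g g') (h' : Rl F f f' l k g') : g = k := by
  have c : ∀ M : Matrix ι ι O, Sm F f f' l * M = 0 → M = 0 := fun M hM => by
    apply Matrix.ext_of_mulVec_single; intro i
    rw [zero_mulVec]
    exact Sm_inj ff f'f' ff' hl (by rw [mulVec_mulVec, hM, zero_mulVec])
  have e : Sm F f f' l * ((g.W - k.W) * (Sm F f f' l)ᴴ) = 0 := by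
    rw [← Matrix.mul_assoc, Matrix.mul_sub, Matrix.sub_mul, ← h, ← h', sub_self]
  have e2 := congrArg conjTranspose (c _ e)
  rw [conjTranspose_mul, conjTranspose_conjTranspose, conjTranspose_zero] at e2
  have e3 := congrArg conjTranspose (c _ e2)
  rw [conjTranspose_conjTranspose, conjTranspose_zero, sub_eq_zero] at e3
  exact WG.ext e3

end Pool.Agent.Lib.MP_61a4e3_al.R
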