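import Pool.Agent.Lib.MP_61a4e3_al.R.Mv1
import Pool.Agent.Lib.MP_61a4e3_al.R.Sim

/-! Conjugation by the torus element. -/

set_option linter.unusedSectionVars false
set_option linter.unusedSimpArgs false
set_option linter.unusedVariables false

namespace Pool.Agent.Lib.MP_61a4e3_al.R

open Matrix WG Form

variable {O : Type} [CommRing O] [StarRing O] [IsDomain O] {ι : Type} [Fintype ι] [DecidableEq ι]
  {F : Form O ι} {Γ : Subgroup (WG F)} {P : Submodule O (ι → O)} {f f' ρ : ι → O} {l D : O}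

lemma Rl.mem_sup (hl : l ≠ 0) (hP : Sat P) (hf : f ∈ P) (hf' : f' ∈ P) {g g' : WG F}
    (a : Rl F f f' l g g') (hg : g ∈ sup F P) : g' ∈ sup F P := by
  intro y
  refine hP _ _ (norm_ne hl) ?_
  rw [← smul_mulVec, a, ← mulVec_mulVec, ← mulVec_mulVec, Sm_mulVec]
  exact P.add_mem (P.add_mem (P.smul_mem _ (hg _)) (P.smul_mem _ hf)) (P.smul_mem _ hf')

lemma Rl.partner (T : Hyp F f f') (hl : l ≠ 0) {e : WG F} (he : e ∈ EL F P f f' l) :
    ∃ e' ∈ EL F P f f' 1, Rl F f f' l e e' := by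
  refine Rl.closure T.ff T.f'f' T.ff' hl ?_ he
  rintro _ (⟨x, c, e, hx, hd, rfl⟩ | ⟨x, c, e, hx, hd, rfl⟩)
  · exact ⟨mkE (isE_right e l), Subgroup.subset_closure
      (Or.inl ⟨_, _, isE_right e l, Submodule.smul_mem _ _ hx, hd.smul l, rfl⟩),
      Rl.right T.ff' e (mem_LL.1 hx).2.1 _⟩
  · exact ⟨mkE e, Subgroup.subset_closure
      (Or.inr ⟨x, c, e, hx, hd, mkE_congr _ _ (by simp)⟩), Rl.left T.ff' e (mem_LL.1 hx).2.2 _⟩

/-- A pair of plane elements related by the torus element. -/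
lemma exists_T_pair (H : RH F.z) (T : Hyp F f f') {a x : O} (h : Adm F.z a x)
    (h' : Adm F.z a (x * (l * star l))) : ∃ g2 g1, IsT F f f' g2 a x ∧
      IsT F f f' g1 a (x * (l * star l)) ∧ g2 ∈ detK F ∧ g1 ∈ detK F ∧ Rl F f f' l g2 g1 ∧
      ∃ c e, act g2 *ᵥ f' = ((1 - F.z) ^ 2 * (l * star l) * c) • f + e • f' ∧
        act g2⁻¹ *ᵥ f = e • f - ((1 - F.z) * ((1 - F.z) * star (1 - F.z)) * x) • f' ∧
        act g2⁻¹ *ᵥ f' = -((1 - F.z) ^ 2 * (l * star l) * c) • f + a • f' ∧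
        (1 - F.z) ^ 2 * (l * star l) ∣ a * e - 1 := by
  obtain ⟨c, e, hc, he, hd⟩ := exists_T' H T.ff T.f'f' T.ff' h'
  obtain ⟨w, hw⟩ : ∃ w, w = (1 - F.z) * star (1 - F.z) := ⟨_, rfl⟩
  obtain ⟨N, hN⟩ : ∃ N, N = l * star l := ⟨_, rfl⟩
  have hwr : star w = w := by simp [hw, mul_comm]
  have hNr : star N = N := by simp [hN, mul_comm]
  have hqw : (1 - F.z) ^ 2 ∣ w := hw ▸ sq_dvd_w2 H
  have hsp := H.star_pi
  have f'f := T.f'f
  have hz := F.hz
  have hb := real_pi H (r := w * x) (by simp [hwr, h.rb, mul_comm])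
  have hc' := H.lam_valid (r := w * c) (by simp [hwr, hc, mul_comm])
  have hb' : F.z * star (l * star l * ((1 - F.z) * (w * x))) + l * star l * ((1 - F.z) * (w * x))
      = 0 := by
    rw [← hN, star_mul N, hNr]; linear_combination N * hb
  have hc2 : F.z * (l * star l * (star (1 - F.z) * (w * c))) +
      star (l * star l * (star (1 - F.z) * (w * c))) = 0 := by
    rw [← hN, star_mul N, hNr]; linear_combination N * hc'
  have hd2 : a * e - (1 - F.z) * (w * x) * (l * star l * (star (1 - F.z) * (w * c))) = 1 := by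
    rw [hw]; linear_combination hd
  have hd1 : a * e - l * star l * ((1 - F.z) * (w * x)) * (star (1 - F.z) * (w * c)) = 1 := by
    linear_combination hd2
  have qa : (1 - F.z) ^ 2 ∣ 1 - a := by
    have := h.cong
    rw [← dvd_neg, neg_sub, ← hw] at this
    exact dvd_trans (dvd_trans hqw (dvd_pow_self _ two_ne_zero)) this
  have qe : (1 - F.z) ^ 2 ∣ 1 - e := by
    have : 1 - e = -(1 - a) * e - w * (w ^ 2 * (x * (l * star l)) * c) := by
      rw [hw]; linear_combination -hd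
    rw [this]; exact dvd_sub (qa.neg_right.mul_right _) (hqw.mul_right _)
  have s2 := mkT_mem_sup T.ff T.f'f' T.ff' h.ra he hb hc2 hd2
  have s1 := mkT_mem_sup T.ff T.f'f' T.ff' h.ra he hb' hc' hd1
  have a2 : act (mkT T.ff T.f'f' T.ff' h.ra he hb hc2 hd2) *ᵥ f =
      a • f + ((1 - F.z) * (w * x)) • f' := by
    rw [act_mkT, T.ff, f'f]; match_scalars <;> (clear * - hz; grind)
  have b2 : act (mkT T.ff T.f'f' T.ff' h.ra he hb hc2 hd2) *ᵥ f' =
      (l * star l * (star (1 - F.z) * (w * c))) • f + e • f' := by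
    rw [act_mkT, T.ff', T.f'f']; match_scalars <;> ring
  have a1 : act (mkT T.ff T.f'f' T.ff' h.ra he hb' hc' hd1) *ᵥ f =
      a • f + (l * star l * ((1 - F.z) * (w * x))) • f' := by
    rw [act_mkT, T.ff, f'f]; match_scalars <;> (clear * - hz; grind)
  have b1 : act (mkT T.ff T.f'f' T.ff' h.ra he hb' hc' hd1) *ᵥ f' =
      (star (1 - F.z) * (w * c)) • f + e • f' := by
    rw [act_mkT, T.ff', T.f'f']; match_scalars <;> ring
  have ec : (1 - F.z) ^ 2 * (l * star l) * (-star F.z * star (1 - F.z) * c) =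
      l * star l * (star (1 - F.z) * (w * c)) := by
    rw [hw]; linear_combination (-(l * star l * star (1 - F.z) * (1 - F.z) * c)) * hsp
  refine ⟨mkT T.ff T.f'f' T.ff' h.ra he hb hc2 hd2, mkT T.ff T.f'f' T.ff' h.ra he hb' hc' hd1,
    ⟨mkT_mem_lev _ _ _ _ _ _ _ _ qa ((hqw.mul_right _).mul_left _)
      (((hqw.mul_right _).mul_left _).mul_left _) qe, s2, by rw [a2, ← hw, mul_assoc]⟩,
    ⟨mkT_mem_lev _ _ _ _ _ _ _ _ qa (((hqw.mul_right _).mul_left _).mul_left _)
      ((hqw.mul_right _).mul_left _) qe, s1, by rw [a1, hw]; congr 2; ring⟩, ?_, ?_,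
    Rl.plane T.ff T.f'f' T.ff' h.ra he hb hc2 hd2 hb' hc' hd1,
    -star F.z * star (1 - F.z) * c, e, by rw [b2, ec], ?_, ?_, ?_⟩
  · exact (det_plane T.ff T.f'f' T.ff' s2 a2 b2).trans (by linear_combination hd2)
  · exact (det_plane T.ff T.f'f' T.ff' s1 a1 b1).trans (by linear_combination hd1)
  · rw [← hw, ← act_inv_act (mkT T.ff T.f'f' T.ff' h.ra he hb hc2 hd2) (e • f - _), mulVec_sub,
      mulVec_smul, mulVec_smul, a2, b2]
    congr 1
    match_scalars
    · linear_combination -hd2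
    · ring
  · rw [ec, ← act_inv_act (mkT T.ff T.f'f' T.ff' h.ra he hb hc2 hd2) (_ • f + a • f'), mulVec_add,
      mulVec_smul, mulVec_smul, a2, b2]
    congr 1
    match_scalars
    · linear_combination -hd2
    · ring
  · exact ⟨(1 - F.z) * (w * x) * (-star F.z * star (1 - F.z) * c), by
      linear_combination hd2 - (1 - F.z) * (w * x) * ec⟩

end Pool.Agent.Lib.MP_61a4e3_al.R
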