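import Pool.Agent.Lib.MP_61a4e3_al.R.A2
import Pool.Agent.Lib.MP_61a4e3_al.R.Rl
import Pool.Agent.Lib.MP_61a4e3_al.R.Nice

/-! The symbol of the hyperbolic plane is trivial. -/

set_option linter.unusedSectionVars false
set_option linter.unusedSimpArgs false
set_option linter.unusedVariables false

namespace Pool.Agent.Lib.MP_61a4e3_al.R

open Matrix WG Form

section men_cl
variable {G : Type} [Group G] (E K : Subgroup G) [(E.subgroupOf K).Normal]

open Classical in
/-- The class of an element of `K` modulo `E`. -/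
noncomputable def menCl (g : G) : K ⧸ E.subgroupOf K :=
  if h : g ∈ K then QuotientGroup.mk ⟨g, h⟩ else 1

variable {E K}

lemma menCl_mul {g h : G} (hg : g ∈ K) (hh : h ∈ K) :
    menCl E K (g * h) = menCl E K g * menCl E K h := by
  simp only [menCl, dif_pos hg, dif_pos hh, dif_pos (mul_mem hg hh)]
  rfl

lemma menCl_eq_one {g : G} (hg : g ∈ K) : menCl E K g = 1 ↔ g ∈ E := by
  simp only [menCl, dif_pos hg]
  rw [QuotientGroup.eq_one_iff, Subgroup.mem_subgroupOf]

lemma menCl_left {e g : G} (hEK : E ≤ K) (he : e ∈ E) (hg : g ∈ K) :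
    menCl E K (e * g) = menCl E K g := by
  rw [menCl_mul (hEK he) hg, (menCl_eq_one (hEK he)).2 he, one_mul]

lemma menCl_right {e g : G} (hEK : E ≤ K) (he : e ∈ E) (hg : g ∈ K) :
    menCl E K (g * e) = menCl E K g := by
  rw [menCl_mul hg (hEK he), (menCl_eq_one (hEK he)).2 he, mul_one]

end men_cl

variable {O : Type} [CommRing O] [StarRing O] [IsDomain O] [CharZero O] {ι : Type} [Fintype ι]
  [DecidableEq ι] {F : Form O ι} {Γ : Subgroup (WG F)} {P : Submodule O (ι → O)}
  {f f' ρ : ι → O} {l D : O}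

theorem plane_T (H : RH F.z) (hM : MenOK F.z) (T : Fr F ⊤ f f' ρ D) {g : WG F}
    {a b : O} (hab : Adm F.z a b) (hg : IsT F f f' g a b) : g ∈ EL F ⊤ f f' 1 := by
  classical
  obtain ⟨w, hw⟩ : ∃ w, w = (1 - F.z) * star (1 - F.z) := ⟨_, rfl⟩
  have hpi := H.pi_eq
  have hwr : star w = w := by simp [hw, mul_comm]
  have hqw : ((1 - F.z) ^ 2) ∣ w := hw ▸ sq_dvd_w2 H
  have hqs : ((1 - F.z) ^ 2) ∣ star ((1 - F.z) ^ 2) := H.sq_dvd_star
  have hz := F.hz
  have Y := T.hyp
  have ff := Y.ff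
  have f'f' := Y.f'f'
  have ff' := Y.ff'
  have f'f := Y.f'f
  obtain ⟨gf, gf'⟩ := good_EL H Y
  set E := EL F ⊤ f f' 1 with hE
  set K := GM F ⊤ f f' 1 with hK
  have : (E.subgroupOf K).Normal := normal_EL
  have EK : E ≤ K := le_sup_left
  have NK : sup F (LL F ⊤ f f') ⊓ lev F (1 - F.z) ≤ K := le_sup_right
  have lK : lev F ((1 - F.z) ^ 2) ≤ K := lev_sq_le_GM H T
  let M : O → O → K ⧸ E.subgroupOf K := fun a b =>
    if h : ∃ g, IsT F f f' g a b then menCl E K h.choose else 1
  have spec : ∀ {g a b}, IsT F f f' g a b → M a b = menCl E K g := by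
    intro g a b hg
    have h : ∃ g, IsT F f f' g a b := ⟨g, hg⟩
    simp only [M, dif_pos h]
    have h0 := h.choose_spec
    have : g⁻¹ * h.choose ∈ E := mem_of_fix ff f'f' ff' gf gf' (mul_mem (inv_mem hg.s) h0.s)
      (by rw [act_mul_mulVec, h0.e, ← hg.e, act_inv_act])
    rw [← menCl_right EK this (lK hg.l), mul_inv_cancel_left]
  have ex : ∀ {a b}, Adm F.z a b → ∃ g, IsT F f f' g a b := by
    intro a b hab
    obtain ⟨c, e, hc, he, hd⟩ := exists_T' H ff f'f' ff' hab
    obtain ⟨g, hg, -⟩ := exists_T H ff f'f' ff' hab hc he hd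
    exact ⟨g, hg⟩
  have hcomm : ∀ a b c d, M a b * M c d = M c d * M a b := by
    intro a b c d
    by_cases k1 : ∃ g, IsT F f f' g a b
    · by_cases k2 : ∃ g, IsT F f f' g c d
      · obtain ⟨g, hg⟩ := k1
        obtain ⟨g', hg'⟩ := k2
        obtain ⟨e, he, n, hn, rfl⟩ := mem_GM.1 (lK hg'.l)
        obtain ⟨n1, n2⟩ := fix_of_LL hn.1
        have hc := conj_eq_of_fix (g := n) hg.s (by
          rintro _ ⟨x, y, rfl⟩
          rw [mulVec_add, mulVec_smul, mulVec_smul, n1, n2])
        rw [mul_inv_eq_iff_eq_mul] at hc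
        rw [spec hg, spec hg', menCl_left EK he (NK hn), ← menCl_mul (lK hg.l) (NK hn),
          ← menCl_mul (NK hn) (lK hg.l), hc]
      · simp [M, dif_neg k2]
    · simp [M, dif_neg k1]
  have p1 : ∀ a b r, Adm F.z a b → star r = r → M a (b + r * a) = M a b := by
    intro a b r hab hr
    obtain ⟨g, hg⟩ := ex hab
    have e : F.IsE f' 0 (star (1 - F.z) * (w * r)) :=
      ⟨f'f', by simp, by rw [H.lam_valid (by simp [hwr, hr, mul_comm])]; simp⟩
    have : IsT F f f' (mkE e * g) a (b + r * a) := by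
      refine ⟨mul_mem (mkE_mem_lev hqs _ (Dv.zero _) ((hqw.mul_right _).mul_left _)) hg.l,
        mul_mem (mkE_mem_sup _ (right_mem_sp2 _ _) (Submodule.zero_mem _)) hg.s, ?_⟩
      rw [act_mul_mulVec, hg.e, act_mkE]
      simp only [B_add_right, B_smul_right, B_zero_left, f'f, f'f', ← hw]
      match_scalars <;> (clear * - hz hpi hw; grind)
    rw [spec this, spec hg, menCl_left EK ((gf' _ _ e (Dv.zero _)).mem e) (lK hg.l)]
  have p2 : ∀ a b r, Adm F.z a b → star r = r → M (a + r * w ^ 2 * b) b = M a b := by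
    intro a b r hab hr
    obtain ⟨g, hg⟩ := ex hab
    have e : F.IsE f 0 (star (1 - F.z) * (-r)) :=
      ⟨ff, by simp, by rw [H.lam_valid (by simp [hr])]; simp⟩
    have se : mkE e ∈ sup F (sp2 f f') := mkE_mem_sup _ (left_mem_sp2 _ _) (Submodule.zero_mem _)
    have : IsT F f f' (mkE e * g * (mkE e)⁻¹) (a + r * w ^ 2 * b) b := by
      refine ⟨conj_mem_lev hg.l _, mul_mem (mul_mem se hg.s) (inv_mem se), ?_⟩
      have : act (mkE e)⁻¹ *ᵥ f = f := by rw [mkE_inv, act_mkE]; simp [ff]
      rw [act_mul_mulVec, act_mul_mulVec, this, hg.e, act_mkE]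
      simp only [B_add_right, B_smul_right, B_zero_left, ff, ff', ← hw]
      match_scalars <;> (clear * - hz hpi hw; grind)
    have ee : mkE e ∈ E := (gf _ _ e (Dv.zero _)).mem e
    rw [spec this, spec hg, menCl_right EK (inv_mem ee) (mul_mem (EK ee) (lK hg.l)),
      menCl_left EK ee (lK hg.l)]
  have p3 : ∀ b, star b = b → M 1 b = 1 := by
    intro b hb
    have : IsT F f f' (1 : WG F) 1 0 := ⟨one_mem _, one_mem _, by simp⟩
    have k := p1 1 0 b ⟨by simp, by simp, by simp, isCoprime_one_left⟩ hb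
    rw [zero_add, mul_one] at k
    rw [k, spec this, menCl_eq_one (one_mem _)]; exact one_mem _
  have p0 : ∀ y, Adm F.z 0 y → M 0 y = 1 := by
    intro y hy
    obtain ⟨u, v, huv⟩ := hy.cop_w 2
    rw [← hw] at huv
    obtain ⟨u', v', -, hv, h⟩ := H.real_comb hy.ra (by simp [hwr, hy.rb, mul_comm]) (star_one O) huv
    rw [← p2 0 y v' hy hv, ← p3 y hy.rb]
    congr 1
    linear_combination h
  have p4 : ∀ a x t, Adm F.z a x → IsCoprime a t →
      M a (x * (t * star t)) = M a (t * star t) * M a x := by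
    intro a x t hx hat
    have ha := hx.ra
    have cs : ∀ {t}, IsCoprime a t → IsCoprime a (t * star t) := by
      intro t hat
      refine hat.mul_right ?_
      obtain ⟨u, v, huv⟩ := hat
      exact ⟨star u, star v, by simpa [ha, mul_comm] using congrArg star huv⟩
    have ad : ∀ {y t}, Adm F.z a y → IsCoprime a t → Adm F.z a (y * (t * star t)) :=
      fun hy ht => ⟨ha, by simp [hy.rb, mul_comm], hx.cong, hy.cop.mul_right (cs ht)⟩
    have h1a : Adm F.z a 1 := ⟨ha, by simp, hx.cong, isCoprime_one_right⟩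
    by_cases a0 : a = 0
    · have k1 := ad hx hat
      have k2 := ad h1a hat
      rw [one_mul] at k2
      subst a0
      rw [p0 _ k1, p0 _ k2, p0 _ hx, mul_one]
    obtain ⟨l, ⟨s, hs⟩, hl⟩ := exists_nice H ha a0 hat T.D0
    have l0 : l ≠ 0 := by
      rintro rfl
      exact not_isCoprime_zero_zero (by simpa using hl.1)
    have hal : IsCoprime a l := by
      obtain ⟨u, v, huv⟩ := hat
      exact ⟨u - v * s, v, by linear_combination huv + v * hs⟩
    have red : ∀ y, Adm F.z a y → M a (y * (l * star l)) = M a (y * (t * star t)) := by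
      intro y hy
      have hs' : star l - star t = a * star s := by
        simpa [ha, mul_comm] using congrArg star hs
      obtain ⟨r, hr, e⟩ := H.real_dvd (m := a) (y := l * star l - t * star t) ha
        (by simp [mul_comm]) ⟨s * star l + t * star s, by
          linear_combination star l * hs + t * hs'⟩
      rw [← p1 a (y * (t * star t)) (y * r) (ad hy hat) (by simp [hy.rb, hr, mul_comm])]
      congr 1
      linear_combination y * e
    have m1 : M a 1 = 1 := by
      obtain ⟨u, hu⟩ := hx.cong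
      rw [← hw] at hu
      obtain ⟨u', hu', hu''⟩ := H.real_dvd (m := w ^ 2) (y := a - 1) (by simp [hwr])
        (by simp [ha]) ⟨u, hu⟩
      have := p2 1 1 u' ⟨by simp, by simp, by simp, isCoprime_one_right⟩ hu'
      rw [p3 1 (by simp)] at this
      rw [← this]; congr 1; linear_combination hu''
    obtain ⟨g2, g1, t2, t1, -, -, R, c, e, q1, -, -, -⟩ := exists_T_pair H Y hx (ad hx hal)
    obtain ⟨k2, k1, s2, s1, -, -, R', c', e', -, q2, q3, u, hu⟩ :=
      exists_T_pair H Y h1a (ad h1a hal)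
    have lv : lev F ((1 - F.z) ^ 2) ≤ lev F (1 - F.z) := fun g hg i j =>
      (dvd_pow_self _ two_ne_zero).trans (hg i j)
    have v1 : act (k2⁻¹ * g2) *ᵥ f =
        (a * e' - (1 - F.z) * w * x * ((1 - F.z) ^ 2 * (l * star l) * c')) • f
          + ((1 - F.z) * w * a * (x - 1)) • f' + 0 := by
      rw [act_mul_mulVec, t2.e, mulVec_add, mulVec_smul, mulVec_smul, q2, q3, ← hw]
      module
    have v2 : act (k2⁻¹ * g2) *ᵥ f' =
        (l * star l * ((1 - F.z) ^ 2 * (c * e' - e * c'))) • f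
          + (e * a - (1 - F.z) ^ 2 * (l * star l) * c * ((1 - F.z) * w)) • f' + 0 := by
      rw [act_mul_mulVec, q1, mulVec_add, mulVec_smul, mulVec_smul, q2, q3, ← hw]
      module
    obtain ⟨e0, he0, n, hn, hh⟩ := a2 H T hl (g := k2⁻¹ * g2)
      ⟨fun _ => Submodule.mem_top, lv (mul_mem (inv_mem s2.l) t2.l)⟩
      (by
        rw [v1, aco_mk Y (B_zero_right F f')]
        exact ⟨star l * (u - (1 - F.z) * w * x * c'), by linear_combination hu⟩)
      (by
        rw [v2, Vl, aco_mk Y (B_zero_right F f'), xco_mk Y (B_zero_right F f) (B_zero_right F f')]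
        exact ⟨dvd_mul_right _ _, Dv.zero _⟩)
    obtain ⟨e1, he1, Re⟩ := Rl.partner Y l0 he0
    have Rn : Rl F f f' l n n := Rl.of_sup (fun x hx => (mem_LL.1 hx).2) hn.1
    have hh' : k1⁻¹ * g1 = e1 * n :=
      Rl.uniq l0 (Rl.mul ff f'f' ff' l0 R'.inv R) (hh ▸ Rl.mul ff f'f' ff' l0 Re Rn)
    rw [inv_mul_eq_iff_eq_mul] at hh hh'
    have z2 : M a x = menCl E K n := by
      rw [spec t2, hh, menCl_mul (lK s2.l) (mul_mem (EK (EL_le_one he0)) (NK hn)), ← spec s2, m1,
        one_mul, menCl_left EK (EL_le_one he0) (NK hn)]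
    have z1 : M a (x * (l * star l)) = M a (1 * (l * star l)) * menCl E K n := by
      rw [spec t1, hh', menCl_mul (lK s1.l) (mul_mem (EK he1) (NK hn)), ← spec s1,
        menCl_left EK he1 (NK hn)]
    rw [← red x hx, z1, red 1 h1a, one_mul, z2]
  have := hM.group _ M hcomm p1 (hw ▸ p2) p3 p4 a b hab
  rwa [spec hg, menCl_eq_one (lK hg.l)] at this

end Pool.Agent.Lib.MP_61a4e3_al.R
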