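import Pool.Agent.Lib.MP_61a4e3_al.R.Defs

/-! The elementary group of a pair: basic facts. -/

set_option linter.unusedSectionVars false
set_option linter.unusedSimpArgs false
set_option linter.unusedVariables false

namespace Pool.Agent.Lib.MP_61a4e3_al.R

open Matrix WG Form

variable {O : Type} [CommRing O] [StarRing O] [IsDomain O] {ι : Type} [Fintype ι] [DecidableEq ι]
  {F : Form O ι} {Γ : Subgroup (WG F)} {P : Submodule O (ι → O)} {f f' ρ : ι → O} {l D : O}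

lemma decomp (v : ι → O) : v = aco F f' v • f + F.B f v • f' + xco F f f' v := by
  rw [xco]; abel

lemma xco_mem (T : Hyp F f f') (hf : f ∈ P) (hf' : f' ∈ P) {v : ι → O} (hv : v ∈ P) :
    xco F f f' v ∈ LL F P f f' := by
  refine mem_LL.2 ⟨P.sub_mem (P.sub_mem hv (P.smul_mem _ hf)) (P.smul_mem _ hf'), ?_, ?_⟩
  · simp [xco, T.ff, T.ff']
  · simp only [xco, aco, B_sub_right, B_smul_right, T.f'f, T.f'f']
    linear_combination (-F.B f' v) * F.hz

lemma aco_mk (T : Hyp F f f') {x : ι → O} (h : F.B f' x = 0) (a b : O) :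
    aco F f' (a • f + b • f' + x) = a := by
  simp only [aco, B_add_right, B_smul_right, T.f'f, T.f'f', h]
  linear_combination a * F.hz

lemma bco_mk (T : Hyp F f f') {x : ι → O} (h : F.B f x = 0) (a b : O) :
    F.B f (a • f + b • f' + x) = b := by
  simp [T.ff, T.ff', h]

lemma xco_mk (T : Hyp F f f') {x : ι → O} (h : F.B f x = 0) (h' : F.B f' x = 0) (a b : O) :
    xco F f f' (a • f + b • f' + x) = x := by
  rw [xco, aco_mk T h', bco_mk T h]; abel

lemma B_mk (T : Hyp F f f') {x y : ι → O} (h : F.B f x = 0) (h' : F.B f' x = 0) (k : F.B f y = 0)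
    (k' : F.B f' y = 0) (a b c e : O) :
    F.B (a • f + b • f' + x) (c • f + e • f' + y) = star a * e + F.z * (star b * c) + F.B x y := by
  simp only [B_add_left, B_add_right, B_smul_left, B_smul_right, T.ff, T.ff', T.f'f, T.f'f', k, k',
    F.B_eq_zero_swap h, F.B_eq_zero_swap h']
  ring

lemma Sat.inf_kerv (h : Sat P) (r : ι → O) : Sat (P ⊓ kerv r) := by
  intro c y hc hy
  refine ⟨h c y hc hy.1, ?_⟩
  have := mem_kerv.1 hy.2
  rw [dotProduct_smul, smul_eq_mul] at this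
  exact mem_kerv.2 ((mul_eq_zero.1 this).resolve_left hc)

lemma Sat.ll (h : Sat P) : Sat (LL F P f f') := by
  intro c y hc hy
  obtain ⟨h1, h2, h3⟩ := mem_LL.1 hy
  rw [B_smul_right] at h2 h3
  exact mem_LL.2 ⟨h c y hc h1, (mul_eq_zero.1 h2).resolve_left hc,
    (mul_eq_zero.1 h3).resolve_left hc⟩

lemma Sat.ex (h : Sat P) {q : O} (hq : q ≠ 0) {x : ι → O} (hx : x ∈ P) (hd : Dv q x) :
    ∃ y ∈ P, x = q • y := by
  obtain ⟨y, rfl⟩ := hd.exists
  exact ⟨y, h q y hq hx, rfl⟩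

lemma pi_dvd_c (H : RH F.z) {k x : ι → O} {c : O} (e : F.IsE k x c) (hx : Dv (1 - F.z) x) :
    (1 - F.z) ∣ c := by
  obtain ⟨y, rfl⟩ := hx.exists
  obtain ⟨r, -, hr⟩ := H.lam_eq (c := c - F.qf ((1 - F.z) • y)) (by
    have := e.hc
    rw [B_self] at this
    rw [star_sub]; linear_combination this)
  have : c = star (1 - F.z) * r + (1 - F.z) * (star (1 - F.z) * F.qf y) := by
    rw [qf_smul] at hr; linear_combination hr
  rw [this]
  exact dvd_add (H.pi_dvd_star.mul_right _) (dvd_mul_right _ _)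

lemma cop_pi (H : RH F.z) {a : O} (h : IsCoprime a (star a)) :
    IsCoprime a ((1 - F.z) * (1 + F.z)) := by
  obtain ⟨a0, b, h0, hb, e⟩ := H.dec a
  have : star a = (1 - F.z) * (1 + F.z) * (b * star F.z) + a * 1 := by
    rw [e, star_add, star_mul, h0, hb]; linear_combination (b * F.z) * F.hz
  rw [this] at h
  exact (IsCoprime.of_add_mul_left_right h).of_mul_right_left

lemma mkE_mem_EL' {x : ι → O} {c : O} (e : F.IsE f' x c) (hx : x ∈ LL F P f f')
    (hd : Dv (1 - F.z) x) : mkE e ∈ EL F P f f' l :=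
  Subgroup.subset_closure (Or.inl ⟨x, c, e, hx, hd, rfl⟩)

lemma mkE_mem_EL {x : ι → O} {c : O} (e : F.IsE f x c) (hx : x ∈ LL F P f f')
    (hd : Dv (1 - F.z) x) : mkE (scaleE e l) ∈ EL F P f f' l :=
  Subgroup.subset_closure (Or.inr ⟨x, c, e, hx, hd, rfl⟩)

lemma mkE_mem_EL_one {x : ι → O} {c : O} (e : F.IsE f x c) (hx : x ∈ LL F P f f')
    (hd : Dv (1 - F.z) x) : mkE e ∈ EL F P f f' 1 :=
  mkE_congr (scaleE e 1) e (by simp) ▸ mkE_mem_EL e hx hd

lemma EL_le_G1 (H : RH F.z) (hf : f ∈ P) (hf' : f' ∈ P) : EL F P f f' l ≤ G1 F P := by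
  rw [EL, Subgroup.closure_le]
  rintro _ (⟨x, c, e, hx, hd, rfl⟩ | ⟨x, c, e, hx, hd, rfl⟩)
  · exact ⟨⟨mkE_mem_sup e hf' hx.1, mkE_mem_lev H.pi_dvd_star e hd (pi_dvd_c H e hd)⟩, det_mkE e⟩
  · exact ⟨⟨mkE_mem_sup _ hf (P.smul_mem _ hx.1), mkE_mem_lev H.pi_dvd_star _ (hd.smul _)
      ((pi_dvd_c H e hd).mul_left _)⟩, det_mkE _⟩

lemma EL_le (hf : Good Γ f) (hf' : Good Γ f') : EL F P f f' l ≤ Γ := by
  rw [EL, Subgroup.closure_le]
  rintro _ (⟨x, c, e, hx, hd, rfl⟩ | ⟨x, c, e, hx, hd, rfl⟩)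
  · exact (hf' x c e hd).mem e
  · exact (hf _ _ (scaleE e l) (hd.smul _)).mem _

lemma EL_le_one : EL F P f f' l ≤ EL F P f f' 1 := by
  conv_lhs => rw [EL]
  rw [Subgroup.closure_le]
  rintro _ (⟨x, c, e, hx, hd, rfl⟩ | ⟨x, c, e, hx, hd, rfl⟩)
  · exact mkE_mem_EL' e hx hd
  · exact mkE_mem_EL_one (scaleE e l) (Submodule.smul_mem _ _ hx) (hd.smul _)

lemma EL_mono {Q : Submodule O (ι → O)} (h : P ≤ Q) : EL F P f f' l ≤ EL F Q f f' l := by
  conv_lhs => rw [EL]
  rw [Subgroup.closure_le]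
  rintro _ (⟨x, c, e, hx, hd, rfl⟩ | ⟨x, c, e, hx, hd, rfl⟩)
  · exact mkE_mem_EL' e ⟨h hx.1, hx.2⟩ hd
  · exact mkE_mem_EL e ⟨h hx.1, hx.2⟩ hd

lemma isE_shift {k x : ι → O} {a c : O} (e : F.IsE k (x + a • k) c) :
    ∃ e' : F.IsE k x (c + a - star F.z * star a),
      F.eW k x (c + a - star F.z * star a) = F.eW k (x + a • k) c := by
  have kx : F.B k x = 0 := by simpa [e.kk] using e.kx
  refine ⟨⟨e.kk, kx, ?_⟩, ?_⟩
  · have := e.hc
    simp only [B_add_left, B_add_right, B_smul_left, B_smul_right, e.kk, kx,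
      F.B_eq_zero_swap kx] at this
    simp only [star_sub, star_add, star_mul, star_star]
    linear_combination this - star a * F.hz
  · simp only [eW, ou_add_left, ou_add_right, ou_smul_left, ou_smul_right]
    module

lemma good_EL (H : RH F.z) (T : Hyp F f f') :
    Good (EL F ⊤ f f' 1) f ∧ Good (EL F ⊤ f f' 1) f' := by
  constructor
  · intro x c e hd
    have hx : x = xco F f f' x + aco F f' x • f := by simp [xco, e.kx]
    have hd' : Dv (1 - F.z) (xco F f f' x) := by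
      have := hd.sub (Dv.smul_of_dvd ((hd.B_right F f').mul_left (star F.z)) f)
      simpa [xco, aco, e.kx] using this
    obtain ⟨e', hw⟩ := isE_shift (hx ▸ e : F.IsE f (xco F f f' x + aco F f' x • f) c)
    rw [← hx] at hw
    exact ⟨e, mkE_congr e' e hw ▸
      mkE_mem_EL_one e' (xco_mem T Submodule.mem_top Submodule.mem_top Submodule.mem_top) hd'⟩
  · intro x c e hd
    have hx : x = xco F f f' x + F.B f x • f' := by simp [xco, aco, e.kx]
    have hd' : Dv (1 - F.z) (xco F f f' x) := by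
      have := hd.sub (Dv.smul_of_dvd (hd.B_right F f) f')
      simpa [xco, aco, e.kx] using this
    obtain ⟨e', hw⟩ := isE_shift (hx ▸ e : F.IsE f' (xco F f f' x + F.B f x • f') c)
    rw [← hx] at hw
    exact ⟨e, mkE_congr e' e hw ▸
      mkE_mem_EL' e' (xco_mem T Submodule.mem_top Submodule.mem_top Submodule.mem_top) hd'⟩

lemma fix_of_LL {g : WG F} (hg : g ∈ sup F (LL F P f f')) : act g *ᵥ f = f ∧ act g *ᵥ f' = f' :=
  ⟨fix_of_orth hg fun x hx => F.B_eq_zero_swap (mem_LL.1 hx).2.1,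
    fix_of_orth hg fun x hx => F.B_eq_zero_swap (mem_LL.1 hx).2.2⟩

lemma B_W_of_fix {g : WG F} {k : ι → O} (h : act g *ᵥ k = k) (y : ι → O) :
    F.B k (g.W *ᵥ y) = 0 := by
  have h1 : act g⁻¹ *ᵥ k = k := by nth_rewrite 1 [← h]; rw [act_inv_act]
  rw [act_mulVec, sub_eq_self, inv_W, Form.tau] at h1
  have h2 := Form.star_dot_mulVec (F.A * g.W) k y
  rw [conjTranspose_mul, F.A_ct, Matrix.mul_smul, ← Matrix.smul_mul, ← mulVec_mulVec k, h1,
    dotProduct_zero, star_eq_zero, ← mulVec_mulVec] at h2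
  exact h2

lemma sup_LL_of_fix {g : WG F} (hg : g ∈ sup F P) (h : act g *ᵥ f = f) (h' : act g *ᵥ f' = f') :
    g ∈ sup F (LL F P f f') := fun y =>
  mem_LL.2 ⟨hg y, B_W_of_fix h y, B_W_of_fix h' y⟩

lemma conj_mem_EL {g e : WG F} (hg : g ∈ sup F (LL F P f f')) (he : e ∈ EL F P f f' l) :
    g * e * g⁻¹ ∈ EL F P f f' l := by
  obtain ⟨g1, g2⟩ := fix_of_LL hg
  induction he using Subgroup.closure_induction with
  | mem n hn =>
    rcases hn with ⟨x, c, e, hx, hd, rfl⟩ | ⟨x, c, e, hx, hd, rfl⟩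
    · have e' : F.IsE f' (act g *ᵥ x) c := by simpa [g2] using e.conj g
      rw [conj_mkE, mkE_congr (e.conj g) e' (by rw [g2])]
      exact mkE_mem_EL' e' (act_mem hg hx) (hd.mulVec _)
    · have e' : F.IsE f (act g *ᵥ x) c := by simpa [g1] using e.conj g
      rw [conj_mkE, mkE_congr ((scaleE e l).conj g) (scaleE e' l) (by rw [g1, mulVec_smul])]
      exact mkE_mem_EL e' (act_mem hg hx) (hd.mulVec _)
  | one => simp
  | mul a b _ _ ha hb =>
    have : g * (a * b) * g⁻¹ = g * a * g⁻¹ * (g * b * g⁻¹) := by group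
    rw [this]; exact mul_mem ha hb
  | inv a _ ha =>
    have : g * a⁻¹ * g⁻¹ = (g * a * g⁻¹)⁻¹ := by group
    rw [this]; exact inv_mem ha

lemma mem_GM {g : WG F} : g ∈ GM F P f f' l ↔
    ∃ e ∈ EL F P f f' l, ∃ n ∈ sup F (LL F P f f') ⊓ lev F (1 - F.z), g = e * n := by
  constructor
  · intro hg
    let S : Subgroup (WG F) :=
      { carrier := {g | ∃ e ∈ EL F P f f' l, ∃ n ∈ sup F (LL F P f f') ⊓ lev F (1 - F.z),
          g = e * n}
        one_mem' := ⟨1, one_mem _, 1, one_mem _, by simp⟩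
        mul_mem' := by
          rintro _ _ ⟨e, he, n, hn, rfl⟩ ⟨e', he', n', hn', rfl⟩
          exact ⟨_, mul_mem he (conj_mem_EL hn.1 he'), _, mul_mem hn hn', by group⟩
        inv_mem' := by
          rintro _ ⟨e, he, n, hn, rfl⟩
          exact ⟨_, conj_mem_EL (inv_mem hn.1) (inv_mem he), _, inv_mem hn, by group⟩ }
    have : GM F P f f' l ≤ S := sup_le (fun e he => ⟨e, he, 1, one_mem _, by simp⟩)
      fun n hn => ⟨1, one_mem _, n, hn, by simp⟩
    exact this hg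
  · rintro ⟨e, he, n, hn, rfl⟩
    exact mul_mem (Subgroup.mem_sup_left he) (Subgroup.mem_sup_right hn)

lemma mem_GM' {g : WG F} : g ∈ GM F P f f' l ↔
    ∃ n ∈ sup F (LL F P f f') ⊓ lev F (1 - F.z), ∃ e ∈ EL F P f f' l, g = n * e := by
  constructor
  · intro hg
    obtain ⟨e, he, n, hn, rfl⟩ := mem_GM.1 hg
    exact ⟨n, hn, _, conj_mem_EL (inv_mem hn.1) he, by group⟩
  · rintro ⟨n, hn, e, he, rfl⟩
    exact mul_mem (Subgroup.mem_sup_right hn) (Subgroup.mem_sup_left he)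

lemma normal_EL : ((EL F P f f' l).subgroupOf (GM F P f f' l)).Normal :=
  ⟨fun n hn g => by
    rw [Subgroup.mem_subgroupOf] at hn ⊢
    obtain ⟨e, he, m, hm, hg⟩ := mem_GM.1 g.2
    have : ((g * n * g⁻¹ : GM F P f f' l) : WG F) = e * (m * n * m⁻¹) * e⁻¹ := by
      simp only [Subgroup.coe_mul, Subgroup.coe_inv, hg]; group
    rw [this]
    exact mul_mem (mul_mem he (conj_mem_EL hm.1 hn)) (inv_mem he)⟩

end Pool.Agent.Lib.MP_61a4e3_al.R
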