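import Pool.Agent.Lib.MP_61a4e3_al.R.Mv1
import Pool.Agent.Lib.MP_61a4e3_al.N.Same

/-! Invariants of the moves, and vectors with the same first or second coordinate. -/

set_option linter.unusedSectionVars false
set_option linter.unusedSimpArgs false
set_option linter.unusedVariables false

namespace Pool.Agent.Lib.MP_61a4e3_al.R

open Matrix WG Form

variable {O : Type} [CommRing O] [StarRing O] [IsDomain O] {ι : Type} [Fintype ι] [DecidableEq ι]
  {F : Form O ι} {Γ : Subgroup (WG F)} {P : Submodule O (ι → O)} {f f' ρ : ι → O} {l D : O}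

/-- Induction over the elementary group. -/
lemma EL_ind {p : WG F → Prop} (h1 : p 1) (hm : ∀ g h, p g → p h → p (g * h))
    (hU' : ∀ x c (e : F.IsE f' x c), x ∈ LL F P f f' → Dv (1 - F.z) x → p (mkE e))
    (hU : ∀ x c (e : F.IsE f x c), x ∈ LL F P f f' → Dv (1 - F.z) x → p (mkE (scaleE e l)))
    {g : WG F} (hg : g ∈ EL F P f f' l) : p g := by
  induction hg using Subgroup.closure_induction'' with
  | mem g hg =>
    rcases hg with ⟨x, c, e, hx, hd, rfl⟩ | ⟨x, c, e, hx, hd, rfl⟩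
    exacts [hU' x c e hx hd, hU x c e hx hd]
  | inv_mem g hg =>
    rcases hg with ⟨x, c, e, hx, hd, rfl⟩ | ⟨x, c, e, hx, hd, rfl⟩
    · rw [mkE_inv]; exact hU' _ _ e.inv (Submodule.neg_mem _ hx) hd.neg
    · rw [mkE_inv, mkE_congr (scaleE e l).inv (scaleE e.inv l) (by
        congr 1
        · rw [smul_neg]
        · simp only [star_mul, star_star]; ring)]
      exact hU _ _ e.inv (Submodule.neg_mem _ hx) hd.neg
  | one => exact h1
  | mul g h _ _ pg ph => exact hm g h pg ph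

lemma xco_perp (T : Hyp F f f') (v : ι → O) :
    F.B f (xco F f f' v) = 0 ∧ F.B f' (xco F f f' v) = 0 :=
  (mem_LL.1 (xco_mem (P := ⊤) T Submodule.mem_top Submodule.mem_top Submodule.mem_top)).2

lemma B_fix {g : WG F} {k : ι → O} (h : act g *ᵥ k = k) (v : ι → O) :
    F.B k (act g *ᵥ v) = F.B k v := by
  conv_lhs => rw [← h]
  rw [B_act]

lemma Sv.of_fix {v : ι → O} (S : Sv F P f f' l v) {g : WG F} (hs : g ∈ sup F P)
    (hl : g ∈ lev F (1 - F.z)) (h : act g *ᵥ f' = f') : Sv F P f f' l (act g *ᵥ v) := by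
  obtain ⟨y, hy, h1, h2⟩ := S.prim
  refine ⟨act_mem hs S.mem, ?_, by rw [B_act, S.iso], ?_,
    act g *ᵥ y, act_mem hs hy, by rwa [B_fix h], by rw [B_act, h2]⟩
  · have := (dv_act_sub hl v).add S.dv
    rwa [sub_add_sub_cancel] at this
  · rw [aco, B_fix h]; exact S.ca

lemma Sv.move (H : RH F.z) (T : Hyp F f f') (hf : f ∈ P) (hf' : f' ∈ P) {v : ι → O}
    (S : Sv F P f f' l v) {g : WG F} (hg : g ∈ GM F P f f' l) : Sv F P f f' l (act g *ᵥ v) := by
  obtain ⟨e, he, n, ⟨hn, hn'⟩, rfl⟩ := mem_GM.1 hg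
  rw [act_mul_mulVec]
  have S' := S.of_fix (sup_mono inf_le_left hn) hn' (fix_of_LL hn).2
  generalize act n *ᵥ v = w at S'
  refine EL_ind (p := fun g => ∀ w, Sv F P f f' l w → Sv F P f f' l (act g *ᵥ w))
    (fun w h => by simpa using h) (fun g h pg ph w S => ?_) (fun x c e hx hd w S => ?_)
    (fun x c e hx hd w S => ?_) he w S'
  · rw [act_mul_mulVec]; exact pg _ (ph _ S)
  · have m := EL_le_G1 H hf hf' (mkE_mem_EL' (l := l) e hx hd)
    refine S.of_fix m.1.1 m.1.2 ?_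
    rw [act_mkE, e.kk, F.B_eq_zero_swap e.kx]; simp
  · have m := EL_le_G1 H hf hf' (mkE_mem_EL (l := l) e hx hd)
    obtain ⟨-, fx, f'x⟩ := mem_LL.1 hx
    have key : ∀ u, F.B f' (act (mkE (scaleE e l)) *ᵥ u) =
        F.B f' u + F.z * l * (star F.z * F.B x u - star l * c * F.B f u) := by
      intro u
      rw [act_mkE]
      simp only [B_add_right, B_sub_right, B_smul_right, B_smul_left, star_star, f'x, T.f'f]
      ring
    obtain ⟨y, hy, h1, h2⟩ := S.prim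
    refine ⟨act_mem m.1.1 S.mem, ?_, by rw [B_act, S.iso], ?_, act (mkE (scaleE e l)) *ᵥ y,
      act_mem m.1.1 hy, ?_, by rw [B_act, h2]⟩
    · have := (dv_act_sub m.1.2 w).add S.dv
      rwa [sub_add_sub_cancel] at this
    · obtain ⟨u1, e1⟩ := dvd_B H hd S.dv
      obtain ⟨u2, e2⟩ := S.dv.B_right F f
      obtain ⟨u3, e3⟩ := pi_dvd_c H e hd
      obtain ⟨u4, e4⟩ := S.ca
      rw [B_sub_right, F.B_eq_zero_swap fx, sub_zero] at e1
      rw [B_sub_right, T.ff, sub_zero] at e2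
      rw [aco] at e4 ⊢
      rw [key, e1, e2, e3]
      exact ⟨u4 + star F.z * F.z * (star F.z * u1 - star l * u3 * u2), by linear_combination e4⟩
    · rw [key]; exact h1.add (((dvd_mul_left l F.z)).mul_right _)

lemma Vl.move (T : Hyp F f f') {v : ι → O} (h : Vl F f f' l v) {g : WG F}
    (hg : g ∈ EL F P f f' l) : Vl F f f' l (act g *ᵥ v) := by
  refine EL_ind (p := fun g => ∀ w, Vl F f f' l w → Vl F f f' l (act g *ᵥ w))
    (fun w h => by simpa using h) (fun g h pg ph w S => ?_) (fun x c e hx hd w S => ?_)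
    (fun x c e hx hd w S => ?_) hg v h
  · rw [act_mul_mulVec]; exact pg _ (ph _ S)
  · obtain ⟨-, fx, f'x⟩ := mem_LL.1 hx
    obtain ⟨p1, p2⟩ := xco_perp T w
    rw [decomp (F := F) (f := f) (f' := f') w, act_U' T.ff' e p2 fx, Vl,
      aco_mk T (by simp [p2, f'x]), xco_mk T (by simp [p1, fx]) (by simp [p2, f'x])]
    exact ⟨S.1, S.2.sub (Dv.smul_of_dvd ((dvd_of_mul_left_dvd S.1).mul_left _) _)⟩
  · obtain ⟨-, fx, f'x⟩ := mem_LL.1 hx
    obtain ⟨p1, p2⟩ := xco_perp T w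
    rw [decomp (F := F) (f := f) (f' := f') w, act_U T.ff' (scaleE e l) p1 (by simp [f'x]), Vl,
      aco_mk T (by simp [p2, f'x]), xco_mk T (by simp [p1, fx]) (by simp [p2, f'x])]
    refine ⟨(S.1.add ?_).sub (((dvd_mul_right _ c)).mul_right _),
      S.2.sub ((Dv.smul_self _ x).smul _)⟩
    rw [B_smul_left, star_star]
    exact (mul_dvd_mul_left l (S.2.B_right F x)).mul_left _

/-- One move at `f'` sets the component in the complement. -/
lemma move_x (T : Hyp F f f') (hP : Sat P) {v x' : ι → O} (hf : f ∈ P) (hf' : f' ∈ P) (hv : v ∈ P)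
    (hx' : x' ∈ LL F P f f') (h0 : aco F f' v * (1 - F.z) ≠ 0)
    (hx : Dv (aco F f' v * (1 - F.z)) (x' - xco F f f' v)) :
    ∃ e ∈ EL F P f f' l, ∃ b : O, act e *ᵥ v = aco F f' v • f + b • f' + x' := by
  have hz := F.hz
  have xm := xco_mem T hf hf' hv
  obtain ⟨y, hy, e1⟩ := (hP.ll (F := F) (f := f) (f' := f')).ex h0 (Submodule.sub_mem _ hx' xm) hx
  obtain ⟨-, fy, f'y⟩ := mem_LL.1 hy
  obtain ⟨-, p1, p2⟩ := mem_LL.1 xm
  have e : F.IsE f' ((-star F.z) • (1 - F.z) • y) (F.qf _ + 0) :=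
    isE_qf T.f'f' (by simp [f'y]) (by simp)
  have k := act_U' T.ff' e p2 (by simp [fy]) (aco F f' v) (F.B f v)
  have k' : xco F f f' v - (F.z * aco F f' v) • (-star F.z) • (1 - F.z) • y = x' := by
    rw [← sub_add_cancel x' (xco F f f' v), e1, smul_smul, smul_smul, show F.z * aco F f' v *
      -star F.z * (1 - F.z) = -(aco F f' v * (1 - F.z)) by
        linear_combination (-(aco F f' v * (1 - F.z))) * hz]
    module
  rw [← decomp v, k'] at k
  exact ⟨mkE e, mkE_mem_EL' e (Submodule.smul_mem _ _ (Submodule.smul_mem _ _ hy))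
    ((Dv.smul_self _ y).smul _), _, k⟩

lemma same_a (H : RH F.z) (T : Hyp F f f') (hf : f ∈ P) (hf' : f' ∈ P) (hP : Sat P) {v v' : ι → O}
    (hv : v ∈ P) (hv' : v' ∈ P) (n : F.B v v = F.B v' v') (ha : aco F f' v' = aco F f' v)
    (hc : IsCoprime (aco F f' v) (star (aco F f' v)))
    (hx : Dv (aco F f' v * (1 - F.z)) (xco F f f' v' - xco F f f' v)) :
    ∃ e ∈ EL F P f f' l, act e *ᵥ v = v' := by
  have a0 : aco F f' v ≠ 0 := fun h => by
    rw [h, star_zero] at hc; exact not_isCoprime_zero_zero hc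
  have xm := xco_mem T hf hf' hv
  obtain ⟨y, hy, e1⟩ := (hP.ll (F := F) (f := f) (f' := f')).ex (mul_ne_zero a0 H.one_sub)
    (Submodule.sub_mem _ (xco_mem T hf hf' hv') xm) hx
  obtain ⟨-, fy, f'y⟩ := mem_LL.1 hy
  obtain ⟨-, p1, p2⟩ := mem_LL.1 xm
  have d := decomp (F := F) (f := f) (f' := f') v
  have d' : v' = aco F f' v • f + F.B f v' • f' + (xco F f f' v + aco F f' v • (1 - F.z) • y) := by
    rw [smul_smul, ← e1, add_sub_cancel, ← ha]; exact decomp v'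
  obtain ⟨c, e, he⟩ := MP_61a4e3_al.same_a T.ff T.f'f' T.ff' (y0 := (1 - F.z) • y) p1 p2
    (by simp [fy]) (by simp [f'y]) (b := F.B f v) (b' := F.B f v') hc (by rw [← d, ← d', n])
  rw [← d, ← d'] at he
  exact ⟨mkE e, mkE_mem_EL' e (Submodule.smul_mem _ _ (Submodule.smul_mem _ _ hy))
    ((Dv.smul_self _ y).smul _), he⟩

lemma same_b (H : RH F.z) (T : Hyp F f f') (hf : f ∈ P) (hf' : f' ∈ P) (hP : Sat P)
    (hl : IsCoprime l (star l)) {v v' : ι → O} {b : O} (hv : v ∈ P) (hv' : v' ∈ P)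
    (n : F.B v v = F.B v' v') (hb : F.B f v = (1 - F.z) * b) (hb' : F.B f v' = (1 - F.z) * b)
    (hc : IsCoprime b (star b)) (hcl : IsCoprime b l)
    (hx : Dv ((1 - F.z) ^ 2 * star l * b) (xco F f f' v' - xco F f f' v))
    (ha : (1 - F.z) * l ∣ aco F f' v' - aco F f' v) :
    ∃ e ∈ EL F P f f' l, act e *ᵥ v = v' := by
  have b0 : b ≠ 0 := fun h => by
    rw [h, star_zero] at hc; exact not_isCoprime_zero_zero hc
  have l0 : star l ≠ 0 := fun h => by
    rw [h, star_eq_zero.1 h] at hl; exact not_isCoprime_zero_zero hl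
  have xm := xco_mem T hf hf' hv
  obtain ⟨y, hy, e1⟩ := (hP.ll (F := F) (f := f) (f' := f')).ex
    (mul_ne_zero (mul_ne_zero (pow_ne_zero 2 H.one_sub) l0) b0)
    (Submodule.sub_mem _ (xco_mem T hf hf' hv') xm) hx
  obtain ⟨-, fy, f'y⟩ := mem_LL.1 hy
  obtain ⟨-, p1, p2⟩ := mem_LL.1 xm
  have d := decomp (F := F) (f := f) (f' := f') v
  rw [hb] at d
  have d' : v' = aco F f' v' • f + ((1 - F.z) * b) • f' +
      (xco F f f' v - ((1 - F.z) * b * star l * (1 - F.z)) • (-y)) := by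
    rw [smul_neg, sub_neg_eq_add, show (1 - F.z) * b * star l * (1 - F.z) =
      (1 - F.z) ^ 2 * star l * b by ring, ← e1, add_sub_cancel, ← hb']
    exact decomp v'
  obtain ⟨c, e0, e, he⟩ := MP_61a4e3_al.same_b H T.ff T.f'f' T.ff' (y0 := -y) p1 p2
    (by simp [fy]) (by simp [f'y]) hc (cop_pi H hc).of_mul_right_left hcl hl ha
    (by rw [← d, ← d', n])
  rw [← d, ← d'] at he
  exact ⟨mkE e, mkE_mem_EL e0 (Submodule.smul_mem _ _ (Submodule.neg_mem _ hy))
    (Dv.smul_self _ _), he⟩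

lemma VV_mem (T : Fr0 F P f f' ρ) (a b μ : O) : VV F f f' ρ a b μ ∈ P :=
  P.add_mem (P.add_mem (P.smul_mem _ T.fP) (P.smul_mem _ T.f'P)) (P.smul_mem _ (mem_LL.1 T.ρL).1)

lemma Fr0.p1 (T : Fr0 F P f f' ρ) (c : O) : F.B f (c • ρ) = 0 := by simp [(mem_LL.1 T.ρL).2.1]

lemma Fr0.p2 (T : Fr0 F P f f' ρ) (c : O) : F.B f' (c • ρ) = 0 := by simp [(mem_LL.1 T.ρL).2.2]

lemma VV_aco (T : Fr0 F P f f' ρ) (a b μ : O) : aco F f' (VV F f f' ρ a b μ) = a :=
  aco_mk T.hyp (T.p2 _) _ _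

lemma VV_bco (T : Fr0 F P f f' ρ) (a b μ : O) : F.B f (VV F f f' ρ a b μ) = (1 - F.z) * b :=
  bco_mk T.hyp (T.p1 _) _ _

lemma VV_xco (T : Fr0 F P f f' ρ) (a b μ : O) :
    xco F f f' (VV F f f' ρ a b μ) = ((1 - F.z) * μ) • ρ := xco_mk T.hyp (T.p1 _) (T.p2 _) _ _

lemma VV_iso (H : RH F.z) (T : Fr0 F P f f' ρ) (a b μ : O) :
    F.B (VV F f f' ρ a b μ) (VV F f f' ρ a b μ) = 0 ↔ Iso F.z a b μ := by
  have hz := F.hz
  have e : F.B (VV F f f' ρ a b μ) (VV F f f' ρ a b μ) = (1 - F.z) *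
      (star a * b - a * star b - -(F.z - star F.z) * (μ * star μ)) := by
    rw [VV, norm_hyp T.hyp.ff T.hyp.f'f' T.hyp.ff' (T.p1 _) (T.p2 _), B_smul_left, B_smul_right,
      T.ρρ]
    simp only [star_mul, star_sub, star_one]
    linear_combination (-(a * star b) - (1 - F.z) * (μ * star μ)) * hz
  rw [e, mul_eq_zero, or_iff_right H.one_sub, sub_eq_zero, Iso]

lemma cen_a (H : RH F.z) (T : Fr0 F P f f' ρ) (a b μ : O) {s : O} (hs : star s = s) :
    ∃ e ∈ EL F P f f' l, act e *ᵥ VV F f f' ρ a b μ =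
      VV F f f' ρ (a + (1 - F.z) * star (1 - F.z) * (l * star l) * s * b) b μ := by
  have e : F.IsE f 0 (star (1 - F.z) * -s) :=
    ⟨T.hyp.ff, by simp, by rw [H.lam_valid (by rw [star_neg, hs])]; simp⟩
  refine ⟨_, mkE_mem_EL e (Submodule.zero_mem _) (Dv.zero _), ?_⟩
  rw [VV, act_U T.hyp.ff' _ (T.p1 _) (by simp), VV]
  simp only [smul_zero, B_zero_left, sub_zero]
  congr 3
  ring

lemma cen_b (H : RH F.z) (T : Fr0 F P f f' ρ) (a b μ : O) {s : O} (hs : star s = s) :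
    ∃ e ∈ EL F P f f' l, act e *ᵥ VV F f f' ρ a b μ = VV F f f' ρ a (b + s * a) μ := by
  have hz := F.hz
  have e : F.IsE f' 0 (star (1 - F.z) * s) :=
    ⟨T.hyp.f'f', by simp, by rw [H.lam_valid hs]; simp⟩
  refine ⟨_, mkE_mem_EL' e (Submodule.zero_mem _) (Dv.zero _), ?_⟩
  rw [VV, act_U' T.hyp.ff' _ (T.p2 _) (by simp), VV]
  simp only [smul_zero, B_zero_left, sub_zero, star_sub, star_one]
  congr 3
  linear_combination (s * a) * hz

end Pool.Agent.Lib.MP_61a4e3_al.R
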