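import Pool.Agent.Lib.MP_61a4e3_al.R.Men

/-! Elements of the special unitary group of the plane. -/

set_option linter.unusedSectionVars false
set_option linter.unusedSimpArgs false
set_option linter.unusedVariables false

namespace Pool.Agent.Lib.MP_61a4e3_al.R

open Matrix WG Form

variable {O : Type} [CommRing O] [StarRing O] [IsDomain O] [CharZero O] {ι : Type} [Fintype ι]
  [DecidableEq ι] {F : Form O ι} {Γ : Subgroup (WG F)} {P : Submodule O (ι → O)}
  {f f' ρ : ι → O} {l D : O}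

theorem plane1 (H : RH F.z) (hM : MenOK F.z) (T : Fr F ⊤ f f' ρ D) {g : WG F}
    (hg : g ∈ sup F (sp2 f f')) (hd : g ∈ detK F)
    (ha : (1 - F.z) ∣ aco F f' (act g *ᵥ f) - 1) : g ∈ EL F ⊤ f f' 1 := by
  have Y := T.hyp
  obtain ⟨hf, hf'⟩ := good_EL H Y
  have ha0 := ha
  clear ha
  have hz := F.hz
  have hpi := H.pi_eq
  obtain ⟨a, b, k1⟩ := act_mem hg (left_mem_sp2 f f')
  obtain ⟨c, e, k2⟩ := act_mem hg (right_mem_sp2 f f')
  have hdet : a * e - b * c = 1 := by rw [← det_plane Y.ff Y.f'f' Y.ff' hg k1 k2]; exact hd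
  have u1 := B_act g f f
  have u2 := B_act g f f'
  simp only [k1, k2, B_add_left, B_add_right, B_smul_left, B_smul_right, Y.ff, Y.ff', Y.f'f,
    Y.f'f'] at u1 u2
  have ha : star a = a := by
    linear_combination (-star a) * hdet + a * u2 - c * u1
  have hb : F.z * star b + star (star b) = 0 := by
    rw [star_star]; linear_combination (-F.z * star b) * hdet - b * u2 + e * u1
  obtain ⟨β, hβ, hbβ⟩ := H.lam_eq hb
  have hb' : b = (1 - F.z) * β := by
    have := congrArg star hbβ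
    rwa [star_star, star_mul, star_star, hβ, mul_comm] at this
  have ha1 : (1 - F.z) ∣ a - 1 := by
    have := aco_mk Y (x := 0) (by simp) a b
    rwa [k1, ← add_zero (a • f + b • f'), this] at ha0
  obtain ⟨w, hw⟩ : ∃ w, w = (1 - F.z) * star (1 - F.z) := ⟨_, rfl⟩
  have hwr : star w = w := by simp [hw, mul_comm]
  obtain ⟨s, hs, has⟩ := H.real_dvd hwr (by simp [ha]) (hw ▸ H.ram (a - 1) (by simp [ha]) ha1)
  have eL : ∀ r, star r = r → F.IsE f' 0 (star (1 - F.z) * r) := fun r hr =>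
    ⟨Y.f'f', by simp, by rw [H.lam_valid hr]; simp⟩
  have eU : ∀ r, star r = r → F.IsE f 0 (star (1 - F.z) * r) := fun r hr =>
    ⟨Y.ff, by simp, by rw [H.lam_valid hr]; simp⟩
  have r1 : star (1 - β) = 1 - β := by simp [hβ]
  have r3 : star (-(β + (1 - β) * a)) = -(β + (1 - β) * a) := by simp [hβ, ha, mul_comm]
  set g3 := mkE (eL _ r3) * mkE (eU s hs) * mkE (eL _ r1) with hg3
  have m3 : g3 ∈ EL F ⊤ f f' 1 := mul_mem (mul_mem ((hf' _ _ (eL _ r3) (Dv.zero _)).mem _)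
    ((hf _ _ (eU s hs) (Dv.zero _)).mem _)) ((hf' _ _ (eL _ r1) (Dv.zero _)).mem _)
  have s3 : g3 ∈ sup F (sp2 f f') := mul_mem (mul_mem
    (mkE_mem_sup _ (right_mem_sp2 _ _) (Submodule.zero_mem _))
    (mkE_mem_sup _ (left_mem_sp2 _ _) (Submodule.zero_mem _)))
    (mkE_mem_sup _ (right_mem_sp2 _ _) (Submodule.zero_mem _))
  have hadm : Adm F.z (1 - w ^ 2 * (s ^ 2 * (1 - β)))
      (w * (s ^ 2 * (1 - β)) * (β + (1 - β) * a)) := by
    refine ⟨by simp [hwr, hs, hβ, mul_comm], by simp [hwr, hs, hβ, ha, mul_comm],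
      ⟨-(s ^ 2 * (1 - β)), by rw [← hw]; ring⟩, ?_⟩
    refine IsCoprime.mul_right ⟨1, w, by ring⟩ ?_
    have : IsCoprime a (β + (1 - β) * a) := by
      refine IsCoprime.add_mul_right_right ⟨e, -(1 - F.z) * c, ?_⟩ _
      rw [hb'] at hdet; linear_combination hdet
    have h5 : 1 - w ^ 2 * (s ^ 2 * (1 - β)) = a + (-(w * s)) * (β + (1 - β) * a) := by
      have : a = 1 + w * s := by linear_combination has
      rw [this]; ring
    rw [h5]; exact this.add_mul_right_left _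
  obtain ⟨c', e', hc', he', hd'⟩ := exists_T' H Y.ff Y.f'f' Y.ff' hadm
  obtain ⟨t, ht, -⟩ := exists_T H Y.ff Y.f'f' Y.ff' hadm hc' he' hd'
  have mt : t ∈ EL F ⊤ f f' 1 := plane_T H hM T hadm ht
  have k3 : act (g3 * g) *ᵥ f = act t *ᵥ f := by
    rw [ht.e, hg3]
    simp only [act_mul_mulVec, k1, act_mkE, B_add_right, B_sub_right, B_smul_right, B_zero_left,
      Y.ff, Y.ff', Y.f'f, Y.f'f', ← hw, hb', smul_zero, B_zero_right]
    have : a = 1 + w * s := by linear_combination has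
    match_scalars <;> (clear * - this hz hpi hw; grind)
  have := mem_of_fix Y.ff Y.f'f' Y.ff' hf hf' (g := t⁻¹ * (g3 * g))
    (mul_mem (inv_mem ht.s) (mul_mem s3 hg)) (by rw [act_mul_mulVec, k3, act_inv_act])
  have h6 := mul_mem (inv_mem m3) (mul_mem mt this)
  simpa using h6

/-- A standard vector is moved to `f` inside the rank three lattice. -/
theorem std_to_f (H : RH F.z) (hM : MenOK F.z) (T : Fr F ⊤ f f' ρ D)
    (T' : Fr0 F P f f' ρ) {a b : O} (hi : Iso F.z a b 1) (ha : (1 - F.z) ^ 2 ∣ a - 1) :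
    ∃ g ∈ EL F ⊤ f f' 1 ⊓ sup F P, act g *ᵥ VV F f f' ρ a b 1 = f := by
  have Y := T.hyp
  have hz := F.hz
  have f'f := Y.f'f
  obtain ⟨a0, a1, h0, h1, rfl⟩ := H.dec a
  obtain ⟨b0, b1, k0, k1, rfl⟩ := H.dec b
  have hd : a0 * b1 - a1 * b0 = -(1 * star 1) := H.det_coords h0 h1 k0 k1 hi
  rw [star_one, mul_one] at hd
  obtain ⟨c, e, hc, he, hac, hae⟩ := H.coords_of_dvd H.w_real h0 h1 (H.w_dvd_sq.trans ha)
  have hb' := real_pi H k0
  have hc' := H.lam_valid (r := -e) (by simp [he])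
  have he' : star (-b1) = -b1 := by simp [k1]
  have hd' : a0 * -b1 - (1 - F.z) * b0 * (star (1 - F.z) * -e) = 1 := by
    rw [hae] at hd; linear_combination -hd
  have s1 := mkT_mem_sup Y.ff Y.f'f' Y.ff' h0 he' hb' hc' hd'
  have a2 : act (mkT Y.ff Y.f'f' Y.ff' h0 he' hb' hc' hd') *ᵥ f =
      a0 • f + ((1 - F.z) * b0) • f' := by
    rw [act_mkT, Y.ff, f'f]; match_scalars <;> (clear * - hz; grind)
  have b2 : act (mkT Y.ff Y.f'f' Y.ff' h0 he' hb' hc' hd') *ᵥ f' =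
      (star (1 - F.z) * -e) • f + (-b1) • f' := by
    rw [act_mkT, Y.ff', Y.f'f']; match_scalars <;> ring
  obtain ⟨-, r1, r2⟩ := mem_LL.1 T'.ρL
  have c2 : act (mkT Y.ff Y.f'f' Y.ff' h0 he' hb' hc' hd') *ᵥ ρ = ρ := by
    rw [act_mkT, r1, r2]; simp
  generalize mkT Y.ff Y.f'f' Y.ff' h0 he' hb' hc' hd' = γ at s1 a2 b2 c2
  have m1 : γ ∈ EL F ⊤ f f' 1 := by
    refine plane1 H hM T s1 ((det_plane Y.ff Y.f'f' Y.ff' s1 a2 b2).trans hd') ?_
    rw [a2, ← add_zero (a0 • f + _), aco_mk Y (by simp)]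
    exact ⟨star (1 - F.z) * c, by linear_combination hac⟩
  have v1 : act γ *ᵥ VV F f f' ρ 1 (-F.z) 1 = VV F f f' ρ (a0 + a1 * F.z) (b0 + b1 * F.z) 1 := by
    simp only [VV, mulVec_add, mulVec_smul, a2, b2, c2]
    match_scalars
    · linear_combination -F.z * hae
    · ring
    · ring
  have af : aco F f' f = 1 := by rw [aco, f'f, F.hz']
  obtain ⟨u, hu, eu⟩ := same_a (l := 1) H Y T'.fP T'.f'P T'.sat (VV_mem T' 1 (-F.z) 1) T'.fP
    (by rw [Y.ff, VV_iso H T']; simp [Iso]; ring) (by rw [af, VV_aco T'])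
    (by rw [VV_aco T']; exact isCoprime_one_left)
    (by
      rw [VV_aco T', VV_xco T', xco, af, Y.ff, one_mul, mul_one, one_smul, zero_smul, sub_self,
        sub_self, zero_sub]
      exact (Dv.smul_self _ _).neg)
  have su : u ∈ sup F P := (EL_le_G1 H T'.fP T'.f'P hu).1.1
  have sg : γ ∈ sup F P := sup_mono (sp2_le T'.fP T'.f'P) s1
  have e1 : u ∈ EL F ⊤ f f' 1 := EL_mono le_top hu
  refine ⟨u * γ⁻¹, Subgroup.mem_inf.2 ⟨mul_mem e1 (inv_mem m1), mul_mem su (inv_mem sg)⟩, ?_⟩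
  rw [act_mul_mulVec, ← v1, act_inv_act, eu]

end Pool.Agent.Lib.MP_61a4e3_al.R
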