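import Pool.Agent.Lib.MP_61a4e3_al.R.Mv2
import Pool.Agent.Lib.MP_61a4e3_al.N.A2

/-! The first coordinate is made prime to its conjugate. -/

set_option linter.unusedSectionVars false
set_option linter.unusedSimpArgs false
set_option linter.unusedVariables false

namespace Pool.Agent.Lib.MP_61a4e3_al.R

open Matrix WG Form

variable {O : Type} [CommRing O] [StarRing O] [IsDomain O] [CharZero O] {ι : Type} [Fintype ι]
  [DecidableEq ι] {F : Form O ι} {Γ : Subgroup (WG F)} {P : Submodule O (ι → O)}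
  {f f' ρ : ι → O} {l D : O}

theorem s0 (H : RH F.z) (T : Fr0 F P f f' ρ) (hl : IsCoprime l (star l))
    {v : ι → O} (S : Sv F P f f' l v) {D' : O} (hD : D' ≠ 0) :
    ∃ e ∈ EL F P f f' l, IsCoprime (aco F f' (act e *ᵥ v)) (star (aco F f' (act e *ᵥ v))) ∧
      IsCoprime (aco F f' (act e *ᵥ v)) D' := by
  obtain ⟨u, hu, eu, hn, wit⟩ := T92.sv_triple H T S
  obtain ⟨hx, ev⟩ := T92.pair_decomp T.hyp T.fP T.f'P S.mem
  obtain ⟨a, b, x, r, -, -, -, -, c1, c2, -⟩ := (T92.tr_mv (P := P) (l := l) T.hyp).s0 H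
    (ne_zero_of_cop_star hl) hD T.ρL T.ρρ S.ca wit
  obtain ⟨hx', e, he, m, hm, q⟩ := r (eu ▸ hx)
  rw [← eu, ← ev, act_mul_mulVec] at q
  obtain ⟨h1, h2⟩ := T92.fix_pair_of_sup (inv_mem hm)
  have ea : aco F f' (act e *ᵥ v) = a := by
    rw [← (T92.co_triple T.hyp a b (mem_LL.1 hx').2.1 (mem_LL.1 hx').2.2).1, ← q, aco, aco]
    nth_rewrite 2 [← (T92.fix_pair_of_sup hm).2]
    rw [B_act]
  exact ⟨e, he, ea ▸ c1, ea ▸ c2⟩

end Pool.Agent.Lib.MP_61a4e3_al.R
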