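import Pool.Agent.Lib.MP_61a4e3_al.R.S0

/-! Reduction to a standard vector. -/

set_option linter.unusedSectionVars false
set_option linter.unusedSimpArgs false
set_option linter.unusedVariables false

namespace Pool.Agent.Lib.MP_61a4e3_al.R

open Matrix WG Form

variable {O : Type} [CommRing O] [StarRing O] [IsDomain O] [CharZero O] {ι : Type} [Fintype ι]
  [DecidableEq ι] {F : Form O ι} {Γ : Subgroup (WG F)} {P : Submodule O (ι → O)}
  {f f' ρ : ι → O} {l D : O}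

lemma Sv.um (H : RH F.z) (T : Hyp F f f') (hf : f ∈ P) (hf' : f' ∈ P) {v : ι → O}
    (S : Sv F P f f' l v) (hc : IsCoprime (aco F f' v) (star (aco F f' v))) :
    Um F (LL F P f f') (aco F f' v) (xco F f f' v) := by
  obtain ⟨y, hy, -, h1⟩ := S.prim
  have hx := xco_mem T hf hf' S.mem
  have hyL := xco_mem T hf hf' hy
  obtain ⟨-, x1, x2⟩ := mem_LL.1 hx
  obtain ⟨-, y1, y2⟩ := mem_LL.1 hyL
  have h2 := S.iso
  have e1 := B_mk T y1 y2 x1 x2 (aco F f' y) (F.B f y) (aco F f' v) (F.B f v)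
  have e2 := B_mk T x1 x2 x1 x2 (aco F f' v) (F.B f v) (aco F f' v) (F.B f v)
  rw [← decomp, ← decomp, h1] at e1
  rw [← decomp, h2] at e2
  obtain ⟨u, w, huw⟩ := hc
  refine ⟨xco F f f' y - (aco F f' y * star w) • xco F f f' v,
    Submodule.sub_mem _ hyL (Submodule.smul_mem _ _ hx), 1,
    F.z * star (F.B f y) + star (aco F f' y) * (u * F.B f v - w * F.z * star (F.B f v)), ?_⟩
  rw [B_sub_left, B_smul_left, star_mul, star_star]
  linear_combination -e1 + star (aco F f' y) * w * e2 + star (aco F f' y) * F.B f v * huw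

lemma Sv.pi_b (T : Hyp F f f') {v : ι → O} (S : Sv F P f f' l v) : (1 - F.z) ∣ F.B f v := by
  have := S.dv.B_right F f
  rwa [B_sub_right, T.ff, sub_zero] at this

lemma Sv.dv_x (T : Hyp F f f') {v : ι → O} (S : Sv F P f f' l v) :
    Dv (1 - F.z) (xco F f f' v) := by
  have ha : (1 - F.z) ∣ aco F f' v - 1 :=
    ((dvd_pow_self _ two_ne_zero).trans (dvd_mul_right _ l)).trans S.ca
  have e : xco F f f' v = v - f - (aco F f' v - 1) • f - F.B f v • f' := by
    rw [xco, sub_smul, one_smul]; abel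
  rw [e]
  exact (S.dv.sub (Dv.smul_of_dvd ha f)).sub (Dv.smul_of_dvd (S.pi_b T) f')

theorem t1 (H : RH F.z) (T : Fr F P f f' ρ D) (hl : Nice D l) {v : ι → O}
    (S : Sv F P f f' l v) : ∃ g ∈ GM F P f f' l, ∃ a b, act g *ᵥ v = VV F f f' ρ a b 1 ∧
      Iso F.z a b 1 ∧ (1 - F.z) ^ 2 * l ∣ a - 1 ∧ IsCoprime a (star l) := by
  have l0 : star l ≠ 0 := by
    intro h
    have h' : l = 0 := by simpa using h
    have := hl.1
    rw [h, h'] at this
    exact not_isCoprime_zero_zero this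
  obtain ⟨e, he, c1, c2⟩ := s0 H T.toFr0 hl.1 S (mul_ne_zero T.D0 l0)
  have heG : e ∈ GM F P f f' l := Subgroup.mem_sup_left he
  have S1 := S.move H T.hyp T.fP T.f'P heG
  obtain ⟨v1, hv1⟩ : ∃ v1, v1 = act e *ᵥ v := ⟨_, rfl⟩
  rw [← hv1] at S1 c1 c2
  have cp := cop_pi H c1
  have hx := xco_mem T.hyp T.fP T.f'P S1.mem
  have hρ : (1 - F.z) • ρ ∈ LL F P f f' := Submodule.smul_mem _ _ T.ρL
  obtain ⟨g, hg, hd⟩ := T.sa (aco F f' v1) (1 - F.z) (xco F f f' v1) ((1 - F.z) • ρ) H.one_sub c1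
    c2.of_mul_right_left
    (cp.of_mul_right_left.mul_right
      (cp.of_mul_right_left.of_isCoprime_of_dvd_right H.star_dvd_pi))
    hx hρ ((Dv.smul_self _ _).sub (S1.dv_x T.hyp)) (S1.um H T.hyp T.fP T.f'P c1)
    ⟨ρ, T.ρL, by rw [B_smul_right, T.ρρ]; exact cp.symm⟩
  have hgG : g ∈ GM F P f f' l := Subgroup.mem_sup_right hg
  have S2 := S1.move H T.hyp T.fP T.f'P hgG
  have gx := act_mem hg.1 hx
  obtain ⟨-, g1, g2⟩ := mem_LL.1 gx
  have e2 : act g *ᵥ v1 =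
      aco F f' v1 • f + F.B f v1 • f' + act g *ᵥ xco F f f' v1 := by
    conv_lhs => rw [decomp (F := F) (f := f) (f' := f') v1]
    rw [mulVec_add, mulVec_add, mulVec_smul, mulVec_smul, (fix_of_LL hg.1).1, (fix_of_LL hg.1).2]
  have a2 : aco F f' (act g *ᵥ v1) = aco F f' v1 := by rw [e2, aco_mk T.hyp g2]
  have x2 : xco F f f' (act g *ᵥ v1) = act g *ᵥ xco F f f' v1 := by rw [e2, xco_mk T.hyp g1 g2]
  have a0 : aco F f' v1 ≠ 0 := by
    intro h
    rw [h, star_zero] at c1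
    exact not_isCoprime_zero_zero c1
  obtain ⟨e', he', b, e3⟩ := move_x (l := l) T.hyp T.sat T.fP T.f'P S2.mem hρ
    (by rw [a2]; exact mul_ne_zero a0 H.one_sub)
    (by have := hd.neg; rw [neg_sub] at this; rw [a2, x2]; exact this)
  have he'G : e' ∈ GM F P f f' l := Subgroup.mem_sup_left he'
  have S3 := S2.move H T.hyp T.fP T.f'P he'G
  rw [e3, a2] at S3
  obtain ⟨c, hc⟩ := S3.pi_b T.hyp
  rw [bco_mk T.hyp (mem_LL.1 hρ).2.1] at hc
  have eV : aco F f' v1 • f + b • f' + (1 - F.z) • ρ = VV F f f' ρ (aco F f' v1) c 1 := by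
    rw [VV, mul_one, hc]
  rw [eV] at S3
  refine ⟨e' * g * e, mul_mem (mul_mem he'G hgG) heG, aco F f' v1, c, ?_,
    (VV_iso H T.toFr0 _ _ _).1 S3.iso, S1.ca, c2.of_mul_right_right⟩
  rw [act_mul_mulVec, act_mul_mulVec, ← hv1, e3, a2, eV]

end Pool.Agent.Lib.MP_61a4e3_al.R
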