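import Pool.Agent.Lib.MP_61a4e3_al.R.T1
import Pool.Agent.Lib.MP_61a4e3_al.N.S2
import Pool.Agent.Lib.MP_61a4e3_al.N.NC

/-! Transitivity of the elementary group. -/

set_option linter.unusedSectionVars false
set_option linter.unusedSimpArgs false
set_option linter.unusedVariables false

namespace Pool.Agent.Lib.MP_61a4e3_al.R

open Matrix WG Form

variable {O : Type} [CommRing O] [StarRing O] [IsDomain O] [CharZero O] {ι : Type} [Fintype ι]
  [DecidableEq ι] {F : Form O ι} {Γ : Subgroup (WG F)} {P : Submodule O (ι → O)}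
  {f f' ρ : ι → O} {l D : O}

theorem trans_T (H : RH F.z) (T : Fr F P f f' ρ D) (hl : Nice D l) {v : ι → O}
    (S : Sv F P f f' l v) : ∃ e ∈ EL F P f f' l, act e *ᵥ v = f :=
  T92.transT H T hl S

end Pool.Agent.Lib.MP_61a4e3_al.R
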